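import Pool.Agent.H940R3.VD.Defs

set_option autoImplicit false

open Matrix MeasureTheory Metric Filter Topology
open scoped ComplexOrder MatrixOrder Matrix.Norms.L2Operator

namespace Pool.Agent.H940R3.VD

open Pool.Agent.H805R2.Gram Pool.Agent.H805R2.Fek

variable {n : ℕ}

/-- Andreief's identity -/
lemma andreief_abs {ι X : Type*} [Fintype ι] [DecidableEq ι] [MeasurableSpace X]
    (μ : Measure X) [IsFiniteMeasure μ] (m : X → ι → ℂ) (g : ι → ι → X → ℂ)
    (hg : ∀ α β z, g α β z = star (m z α) * m z β)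
    (hint : ∀ α β, Integrable (g α β) μ) (G : Matrix ι ι ℂ) (hG : ∀ α β, G α β = ∫ z, g α β z ∂μ) :
    ((∫ x, ‖(ev m x).det‖ ^ 2 ∂(Measure.pi fun _ : ι => μ) : ℝ) : ℂ) =
      (Fintype.card ι).factorial * G.det := by
  have hI0 : ∀ τ σ : Equiv.Perm ι, Integrable (fun x : ι → X => ∏ j, g (τ j) (σ j) (x j))
      (Measure.pi fun _ : ι => μ) := by
    intro τ σ
    exact Integrable.fintype_prod (f := fun j => g (τ j) (σ j)) (μ := fun _ : ι => μ)
      (fun j => hint (τ j) (σ j))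
  have hI : ∀ τ σ : Equiv.Perm ι, Integrable (fun x : ι → X =>
      (((Equiv.Perm.sign τ : ℤ) : ℂ) * ((Equiv.Perm.sign σ : ℤ) : ℂ)) *
        ∏ j, g (τ j) (σ j) (x j)) (Measure.pi fun _ : ι => μ) := fun τ σ => (hI0 τ σ).const_mul _
  have hI2 : ∀ τ : Equiv.Perm ι, Integrable (fun x : ι → X => ∑ σ : Equiv.Perm ι,
      (((Equiv.Perm.sign τ : ℤ) : ℂ) * ((Equiv.Perm.sign σ : ℤ) : ℂ)) *
        ∏ j, g (τ j) (σ j) (x j)) (Measure.pi fun _ : ι => μ) :=
    fun τ => integrable_finsetSum _ fun σ _ => hI τ σ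
  have h1 : ∀ x : ι → X, ((‖(ev m x).det‖ ^ 2 : ℝ) : ℂ) =
      ∑ τ : Equiv.Perm ι, ∑ σ : Equiv.Perm ι,
        (((Equiv.Perm.sign τ : ℤ) : ℂ) * ((Equiv.Perm.sign σ : ℤ) : ℂ)) *
          ∏ j, g (τ j) (σ j) (x j) := by
    intro x
    have e1 : ((‖(ev m x).det‖ ^ 2 : ℝ) : ℂ) =
        star ((ev m x).det) * (ev m x).det := by
      rw [Complex.star_def, mul_comm, Complex.mul_conj, Complex.normSq_eq_norm_sq]
    have e2 : (ev m x).det = ∑ σ : Equiv.Perm ι,
        ((Equiv.Perm.sign σ : ℤ) : ℂ) * ∏ j, m (x j) (σ j) := by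
      rw [← det_transpose, det_apply']
      rfl
    rw [e1, e2, star_sum, Finset.sum_mul_sum]
    apply Finset.sum_congr rfl
    intro τ _
    apply Finset.sum_congr rfl
    intro σ _
    have e3 : star ((Equiv.Perm.sign τ : ℤ) : ℂ) = ((Equiv.Perm.sign τ : ℤ) : ℂ) := by
      rw [Complex.star_def, map_intCast]
    have e4 : ∏ j, g (τ j) (σ j) (x j) = (∏ j, star (m (x j) (τ j))) * ∏ j, m (x j) (σ j) := by
      rw [← Finset.prod_mul_distrib]
      exact Finset.prod_congr rfl fun j _ => hg _ _ _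
    rw [star_mul', star_prod, e3, e4]
    ring
  rw [← integral_complex_ofReal]
  have h2 : ∀ τ : Equiv.Perm ι, ∫ x : ι → X, ∑ σ : Equiv.Perm ι,
      (((Equiv.Perm.sign τ : ℤ) : ℂ) * ((Equiv.Perm.sign σ : ℤ) : ℂ)) *
        ∏ j, g (τ j) (σ j) (x j) ∂(Measure.pi fun _ : ι => μ) = G.det := by
    intro τ
    rw [integral_finsetSum _ (fun σ _ => hI τ σ)]
    have h4 : ∀ σ : Equiv.Perm ι, ∫ x : ι → X,
        (((Equiv.Perm.sign τ : ℤ) : ℂ) * ((Equiv.Perm.sign σ : ℤ) : ℂ)) *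
        ∏ j, g (τ j) (σ j) (x j) ∂(Measure.pi fun _ : ι => μ) =
        ((Equiv.Perm.sign τ : ℤ) : ℂ) * (((Equiv.Perm.sign σ : ℤ) : ℂ) *
          ∏ j, G (τ j) (σ j)) := by
      intro σ
      rw [integral_const_mul]
      have := integral_fintype_prod_eq_prod (𝕜 := ℂ) (μ := fun _ : ι => μ)
        (fun (j : ι) => g (τ j) (σ j))
      rw [this, mul_assoc]
      congr 2
      exact Finset.prod_congr rfl fun j _ => (hG _ _).symm
    rw [Finset.sum_congr rfl fun σ _ => h4 σ, ← Finset.mul_sum]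
    have h5 : ∑ σ : Equiv.Perm ι, ((Equiv.Perm.sign σ : ℤ) : ℂ) * ∏ j, G (τ j) (σ j) =
        ((Equiv.Perm.sign τ : ℤ) : ℂ) * G.det := by
      have h6 := Matrix.det_permute τ G
      rw [← h6, ← det_transpose, det_apply']
      rfl
    rw [h5, ← mul_assoc]
    have h7 : ((Equiv.Perm.sign τ : ℤ) : ℂ) * ((Equiv.Perm.sign τ : ℤ) : ℂ) = 1 := by
      rcases Int.units_eq_one_or (Equiv.Perm.sign τ) with h | h <;> rw [h] <;> simp
    rw [h7, one_mul]
  rw [integral_congr_ae (Filter.Eventually.of_forall h1),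
    integral_finsetSum _ (fun τ _ => hI2 τ), Finset.sum_congr rfl fun τ _ => h2 τ,
    Finset.sum_const, Finset.card_univ, Fintype.card_perm, nsmul_eq_mul]

lemma andreief {R : ℝ} (hR : 0 < R) {K : Set (Fin n → ℂ)} (hK : K ⊆ closedBall 0 R)
    {μ : Measure (Fin n → ℂ)} [IsFiniteMeasure μ] (hμ : μ Kᶜ = 0) (k : ℕ) :
    ∫ x, ‖(ev (e n R k) x).det‖ ^ 2 ∂(Measure.pi fun _ : Ix n k => μ) =
      (NN n k).factorial * (Gk μ R k).det.re := by
  have hint : ∀ α β : Ix n k, Integrable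
      (fun z => star (e n R k z α) * e n R k z β * (((1 : ℝ)) : ℂ)) μ := fun α β =>
    gram_entry_integrable μ (e n R k) (fun _ => 1) (hm R k) (hmb hR hK hμ k) measurable_const 1
      (by simp) α β
  have h2 := andreief_abs μ (e n R k)
    (fun α β z => star (e n R k z α) * e n R k z β * (((1 : ℝ)) : ℂ))
    (fun α β z => by simp) hint (Gk μ R k) (fun α β => rfl)
  have h8 := congrArg Complex.re h2
  rw [Complex.ofReal_re] at h8
  rw [h8, ← Complex.ofReal_natCast, Complex.re_ofReal_mul, card_Ix]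

lemma vdm_eq {R : ℝ} (hR : 0 < R) (k : ℕ) (x : Ix n k → (Fin n → ℂ)) :
    ‖vdm n k x‖ = R ^ (n * SS n k) * ‖(ev (e n R k) x).det‖ := by
  have h1 : vdm n k x = (ev (e n 1 k) x).det := by
    unfold vdm
    rw [← det_transpose]
    congr 1
    ext i j
    simp [ev, e]
  rw [h1, det_scale hR, norm_mul, norm_inv, norm_pow, Complex.norm_real, Real.norm_of_nonneg hR.le]
  have : R ^ (n * SS n k) ≠ 0 := by positivity
  field_simp

lemma Zk_eq {R : ℝ} (hR : 0 < R) {K : Set (Fin n → ℂ)} (hK : K ⊆ closedBall 0 R)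
    {μ : Measure (Fin n → ℂ)} [IsFiniteMeasure μ] (hμ : μ Kᶜ = 0) (k : ℕ) :
    Zk μ k = (R ^ (n * SS n k)) ^ 2 * ((NN n k).factorial * (Gk μ R k).det.re) := by
  rw [← andreief hR hK hμ, ← integral_const_mul]
  unfold Zk
  congr 1
  funext x
  rw [vdm_eq hR, mul_pow]

lemma maxVdm_eq {R : ℝ} (hR : 0 < R) {K : Set (Fin n → ℂ)} {k : ℕ}
    {x : Ix n k → (Fin n → ℂ)} (hx : ∀ j, x j ∈ K)
    (hmax : ∀ y : Ix n k → (Fin n → ℂ), (∀ j, y j ∈ K) →
      ‖(ev (e n R k) y).det‖ ≤ ‖(ev (e n R k) x).det‖) :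
    maxVdm K k = R ^ (n * SS n k) * ‖(ev (e n R k) x).det‖ := by
  unfold maxVdm
  have hne : Nonempty (Ix n k → K) := ⟨fun j => ⟨x j, hx j⟩⟩
  have hle : ∀ y : Ix n k → K, ‖vdm n k (fun j => (y j : Fin n → ℂ))‖ ≤
      R ^ (n * SS n k) * ‖(ev (e n R k) x).det‖ := by
    intro y
    rw [vdm_eq hR]
    have := hmax (fun j => (y j : Fin n → ℂ)) (fun j => (y j).2)
    gcongr
  apply le_antisymm
  · exact ciSup_le hle
  · have := le_ciSup (f := fun y : Ix n k → K => ‖vdm n k (fun j => (y j : Fin n → ℂ))‖)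
      ⟨_, by rintro _ ⟨y, rfl⟩; exact hle y⟩ (fun j => ⟨x j, hx j⟩)
    simp only at this
    rwa [vdm_eq hR] at this

lemma lk_eq (n k : ℕ) : lk n k = n * SS n k := by
  unfold lk
  have h := SS_mul n k
  have h2 : (SS n k : ℝ) * (n + 1) = k * NN n k := by exact_mod_cast h
  have h3 : Nat.choose (n + k) k = NN n k := by
    unfold NN
    rw [Nat.choose_symm_add]
  rw [h3, div_eq_iff (by positivity)]
  linear_combination (-(n : ℝ)) * h2

end Pool.Agent.H940R3.VD
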