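import Pool.Agent.H940R3.VD.Core

set_option autoImplicit false

open Matrix MeasureTheory Metric Filter Topology
open scoped ComplexOrder MatrixOrder Matrix.Norms.L2Operator

namespace Pool.Agent.H940R3.VD

open Pool.Agent.H805R2.Gram Pool.Agent.H805R2.Fek

variable {n : ℕ}

lemma NN_le_pow (n k : ℕ) : NN n k ≤ (k + 1) ^ n := by
  induction n generalizing k with
  | zero => simp [NN]
  | succ n ih =>
    rw [← NN_sum]
    calc ∑ j ∈ Finset.range (k + 1), NN n (k - j) ≤ ∑ _j ∈ Finset.range (k + 1), (k + 1) ^ n := by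
          apply Finset.sum_le_sum
          intro j _
          refine (ih (k - j)).trans ?_
          gcongr
          omega
      _ = (k + 1) ^ (n + 1) := by
          rw [Finset.sum_const, Finset.card_range, smul_eq_mul]
          ring

lemma NN_two_pow (n : ℕ) (Q : ℕ) {k m : ℕ} (h : k ≤ 2 ^ Q * m) : NN n k ≤ (2 ^ n) ^ Q * NN n m := by
  induction Q generalizing k m with
  | zero =>
    have : k ≤ m := by simpa using h
    simpa using NN_mono n this
  | succ Q ih =>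
    have h1 : k ≤ 2 * (2 ^ Q * m) := by rw [pow_succ] at h; nlinarith
    calc NN n k ≤ 2 ^ n * NN n (2 ^ Q * m) := NN_half n _ _ h1
      _ ≤ 2 ^ n * ((2 ^ n) ^ Q * NN n m) := by gcongr; exact ih le_rfl
      _ = _ := by ring

lemma log_NN (n : ℕ) {C : ℝ} (hC : 0 ≤ C) {τ : ℝ} (hτ : 0 < τ) :
    ∀ᶠ k : ℕ in atTop, Real.log (C + NN n k) ≤ τ * k := by
  have h1 : ∀ᶠ k : ℕ in atTop, Real.log (C + 1) ≤ τ / 2 * k := by
    have : Tendsto (fun k : ℕ => τ / 2 * (k : ℝ)) atTop atTop :=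
      tendsto_natCast_atTop_atTop.const_mul_atTop (by positivity)
    exact this.eventually_ge_atTop _
  have h2 : ∀ᶠ k : ℕ in atTop, (n : ℝ) * Real.log ((k : ℝ) + 1) ≤ τ / 2 * k := by
    have h3 : ∀ᶠ x : ℝ in atTop, ‖Real.log x‖ ≤ τ / (4 * (n + 1)) * ‖x‖ :=
      Real.isLittleO_log_id_atTop.def (by positivity)
    have h4 : Tendsto (fun k : ℕ => (k : ℝ) + 1) atTop atTop :=
      tendsto_atTop_add_const_right _ _ tendsto_natCast_atTop_atTop
    filter_upwards [h4.eventually h3, eventually_ge_atTop 1] with k hk hk1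
    have hk1' : (1 : ℝ) ≤ k := by exact_mod_cast hk1
    rw [Real.norm_of_nonneg (Real.log_nonneg (by linarith)), Real.norm_of_nonneg (by positivity)]
      at hk
    have hn : (0 : ℝ) ≤ n := Nat.cast_nonneg n
    calc (n : ℝ) * Real.log ((k : ℝ) + 1) ≤ n * (τ / (4 * (n + 1)) * (k + 1)) := by gcongr
      _ ≤ (n + 1) * (τ / (4 * (n + 1)) * (2 * k)) := by
          apply mul_le_mul (by linarith) _ (by positivity) (by positivity)
          gcongr
          linarith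
      _ = _ := by field_simp; ring
  filter_upwards [h1, h2] with k hk1 hk2
  have hN : (NN n k : ℝ) ≤ ((k : ℝ) + 1) ^ n := by exact_mod_cast NN_le_pow n k
  have hN1 : (1 : ℝ) ≤ NN n k := by exact_mod_cast NN_pos n k
  calc Real.log (C + NN n k) ≤ Real.log ((C + 1) * ((k : ℝ) + 1) ^ n) := by
        apply Real.log_le_log (by linarith)
        nlinarith
    _ = Real.log (C + 1) + n * Real.log ((k : ℝ) + 1) := by
        rw [Real.log_mul (by positivity) (by positivity), Real.log_pow]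
    _ ≤ τ * k := by linarith

lemma SS_le (n m : ℕ) : (SS n m : ℝ) ≤ m * NN n m := by
  have h := SS_mul n m
  have h2 : SS n m ≤ m * NN n m := by
    rw [← h]
    exact Nat.le_mul_of_pos_right _ (by omega)
  exact_mod_cast h2

/-- growth with constant `c` -/
def Gr (K : Set (Fin n → ℂ)) (c : ℝ) (A : Set (Fin n → ℂ)) : Prop :=
  ∀ (k : ℕ) (g : (Fin n → ℂ) → ℂ), IsP k g → ∀ S : ℝ, 0 ≤ S → (∀ z ∈ K, ‖g z‖ ≤ S) → ∀ z ∈ A,
    ‖g z‖ ≤ Real.exp (c * k) * S

theorem ZR_core {R : ℝ} (hR : 0 < R) {K : Set (Fin n → ℂ)} (hK : K ⊆ closedBall 0 R)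
    {μ : Measure (Fin n → ℂ)} [IsFiniteMeasure μ] (hμ : μ Kᶜ = 0)
    (H : ∀ τ : ℝ, 0 < τ → ∀ᶠ k : ℕ in atTop, ∃ x : Ix n k → (Fin n → ℂ), Fk (e n R k) K x ∧
      (Gk μ R k).PosDef ∧ Real.log (‖(ev (e n R k) x).det‖ ^ 2 / (Gk μ R k).det.re) ≤
        τ * (k * NN n k))
    {z₀ : Fin n → ℂ} {r c' : ℝ} (hr : 0 < r) (hc' : 0 ≤ c') (hg : Gr K c' (closedBall z₀ (2 * r)))
    {c : ℝ} (hc : c' < c) :
    ∀ᶠ d : ℕ in atTop, ∀ f : (Fin n → ℂ) → ℂ, IsP d f → ∀ s : ℝ, 0 < s →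
      ∫ z, ‖f z‖ ^ 2 ∂μ ≤ s ^ 2 → ‖f z₀‖ < Real.exp (c * d) * s := by
  obtain ⟨cR, hcR, hcore⟩ := core n hR
  set γ := c - c' with hγ
  have hγ0 : 0 < γ := by linarith
  set θ := min 1 (γ / 4) with hθ
  have hθ0 : 0 < θ := lt_min one_pos (by positivity)
  have hθ1 : θ ≤ 1 := min_le_left _ _
  have hθ2 : θ ≤ γ / 4 := min_le_right _ _
  set L₀ := |Real.log (cR * ((volume (ball (0 : Fin n → ℂ) (θ * r))).toReal / 4))| with hL₀
  have hL₀0 : 0 ≤ L₀ := abs_nonneg _
  set W := L₀ + 2 * c' + γ / 4 with hW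
  have hW0 : 0 < W := by positivity
  obtain ⟨Q, hQ⟩ := pow_unbounded_of_one_lt (4 * W / γ) (one_lt_two)
  set A : ℝ := ((2 : ℝ) ^ n) ^ (Q + 1) with hA
  have hA0 : 0 < A := by positivity
  set τ := γ / (8 * A) with hτ
  have hτ0 : 0 < τ := by positivity
  obtain ⟨k₁, hk₁⟩ := eventually_atTop.mp (H τ hτ0)
  obtain ⟨k₂, hk₂⟩ := eventually_atTop.mp (log_NN n (measureReal_nonneg (μ := μ) (s := Set.univ)) hτ0)
  have e3 : ∀ᶠ d : ℕ in atTop, Real.log 2 / θ ≤ d :=
    tendsto_natCast_atTop_atTop.eventually_ge_atTop _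
  have e4 : ∀ᶠ d : ℕ in atTop, W / γ + 1 ≤ d :=
    tendsto_natCast_atTop_atTop.eventually_ge_atTop _
  filter_upwards [eventually_ge_atTop k₁, eventually_ge_atTop k₂, e3, e4] with d hd1 hd2 hd3 hd4
  intro f hf s hs hfs
  by_contra hcon
  push Not at hcon
  set m := d / 2 ^ Q + 1 with hm
  obtain ⟨x, hx, hpd, hY⟩ := hk₁ (d + m) (le_trans hd1 (Nat.le_add_right d m))
  have h2 := hk₂ (d + m) (le_trans hd2 (Nat.le_add_right d m))
  have hgrow : ∀ g, IsP (d + m) g → ∀ S : ℝ, 0 ≤ S → (∀ z ∈ K, ‖g z‖ ≤ S) →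
      ∀ z ∈ closedBall z₀ (2 * r), ‖g z‖ ≤ Real.exp (c' * (d + m : ℕ)) * S :=
    fun g hg' S hS hz => hg (d + m) g hg' S hS hz
  have hmain := hcore K hK μ hμ d m hpd x hx f hf z₀ s hs hfs c hcon r θ c' hr hθ0 hθ1
    (by rw [div_le_iff₀ hθ0] at hd3; linarith) hgrow
  have hNm : (1 : ℝ) ≤ NN n m := by exact_mod_cast NN_pos n m
  have hkm : d + m ≤ 2 ^ (Q + 1) * m := by
    have h3 : d < 2 ^ Q * m := by
      rw [hm]
      have := Nat.lt_mul_div_succ d (b := 2 ^ Q) (by positivity)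
      simpa using this
    have h4 : m ≤ 2 ^ Q * m := Nat.le_mul_of_pos_left _ (by positivity)
    rw [pow_succ]
    nlinarith
  have hNk : (NN n (d + m) : ℝ) ≤ A * NN n m := by
    have := NN_two_pow n (Q + 1) hkm
    rw [hA]
    exact_mod_cast this
  have hmd : (m : ℝ) ≤ d / 2 ^ Q + 1 := by
    rw [hm]
    push_cast
    have h5 : ((d / 2 ^ Q : ℕ) : ℝ) ≤ (d : ℝ) / ((2 ^ Q : ℕ) : ℝ) := Nat.cast_div_le
    push_cast at h5
    linarith
  have hlogm : Real.log (μ.real Set.univ + NN n m) ≤ τ * (d + m : ℕ) := by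
    refine le_trans ?_ h2
    apply Real.log_le_log
    · have := measureReal_nonneg (μ := μ) (s := Set.univ)
      linarith
    · have : (NN n m : ℝ) ≤ NN n (d + m) := by exact_mod_cast NN_mono n (by omega)
      linarith
  have hSSl : -(m * NN n m * L₀) ≤ SS n m *
      Real.log (cR * ((volume (ball (0 : Fin n → ℂ) (θ * r))).toReal / 4)) := by
    have h6 := neg_abs_le (Real.log (cR * ((volume (ball (0 : Fin n → ℂ) (θ * r))).toReal / 4)))
    have h7 := SS_le n m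
    have h8 : (0 : ℝ) ≤ SS n m := Nat.cast_nonneg _
    rw [← hL₀] at h6
    nlinarith
  have hd0 : (0 : ℝ) ≤ d := Nat.cast_nonneg d
  have hm0 : (0 : ℝ) ≤ m := Nat.cast_nonneg m
  push_cast at hmain hlogm hY
  have hkk : (0 : ℝ) ≤ (d : ℝ) + m := by positivity
  have h9 : (NN n (d + m) : ℝ) * Real.log (μ.real Set.univ + NN n m) ≤
      A * NN n m * (τ * (d + m)) := by
    calc (NN n (d + m) : ℝ) * Real.log (μ.real Set.univ + NN n m) ≤
          NN n (d + m) * (τ * (d + m)) := by gcongr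
      _ ≤ _ := by gcongr
  have h10 : Real.log (‖(ev (e n R (d + m)) x).det‖ ^ 2 / (Gk μ R (d + m)).det.re) ≤
      τ * ((d + m) * (A * NN n m)) := by
    refine hY.trans ?_
    gcongr
  have hAτ : A * τ = γ / 8 := by rw [hτ]; field_simp
  -- divide by NN n m
  have h11 : 2 * (d * (c - θ)) ≤ m * L₀ + 2 * c' * (d + m) + 2 * (γ / 8) * (d + m) := by
    have h12 : (2 * (d * (c - θ))) * NN n m ≤
        (m * L₀ + 2 * c' * (d + m) + 2 * (γ / 8) * (d + m)) * NN n m := by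
      rw [← hAτ]
      nlinarith
    exact le_of_mul_le_mul_right h12 (by linarith)
  have h13 : m * W ≤ γ / 4 * d + W := by
    have h14 : (d : ℝ) / 2 ^ Q * W ≤ γ / 4 * d := by
      rw [div_mul_eq_mul_div, div_le_iff₀ (by positivity)]
      rw [div_lt_iff₀ hγ0] at hQ
      nlinarith
    nlinarith
  have h15 : W + γ ≤ γ * d := by
    have h16 := mul_le_mul_of_nonneg_left hd4 hγ0.le
    have h17 : γ * (W / γ + 1) = W + γ := by field_simp
    linarith
  have hcc : c = c' + γ := by linarith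
  rw [hcc] at h11
  rw [hW] at h13 h15
  nlinarith

end Pool.Agent.H940R3.VD
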