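import Pool.Agent.H940R3.VD.Fin1

set_option autoImplicit false

open Matrix MeasureTheory Metric Filter Topology

namespace Pool.Agent.H940R3.VD

open Pool.Agent.H805R2.Fek

variable {n : ℕ}

lemma lint_vi {Y : Set (Fin n → ℂ)} (hYm : MeasurableSet Y)
    {v : (Fin n → ℂ) → ℝ} (hvm : Measurable v) (hv0 : ∀ z, 0 ≤ v z) {ξ : Fin n → ℂ} {V : ℝ}
    (hV0 : 0 ≤ V) (hV : ∀ y ∈ Y, v (y + ξ) ≤ V) {B : (Fin n → ℂ) → ℝ}
    (hBi : Integrable B (volume.restrict Y)) (hB0 : ∀ z, 0 ≤ B z) :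
    ENNReal.ofReal (∫ y in Y, vi Y v ξ y * B y) =
      ∫⁻ y in Y, ENNReal.ofReal (v (y + ξ)) * ENNReal.ofReal (B y) := by
  have hvim := vi_meas hYm hvm ξ
  have hvib : ∀ y, |vi Y v ξ y| ≤ V := by
    intro y
    rw [abs_of_nonneg (vi_nonneg hv0 ξ y)]
    unfold vi
    by_cases hy : y ∈ Y
    · rw [Set.indicator_of_mem hy]; exact hV y hy
    · rw [Set.indicator_of_notMem hy]; exact hV0
  have hi : Integrable (fun y => vi Y v ξ y * B y) (volume.restrict Y) :=
    hBi.bdd_mul hvim.aestronglyMeasurable (c := V)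
      (Filter.Eventually.of_forall fun z => by rw [Real.norm_eq_abs]; exact hvib z)
  rw [ofReal_integral_eq_lintegral_ofReal hi
    (Filter.Eventually.of_forall fun y => mul_nonneg (vi_nonneg hv0 ξ y) (hB0 y))]
  apply setLIntegral_congr_fun hYm
  intro y hy
  simp only
  rw [ENNReal.ofReal_mul (vi_nonneg hv0 ξ y)]
  congr 2
  unfold vi
  rw [Set.indicator_of_mem hy]

/-- measurability of the inner integral -/
lemma inner_meas {g : (Fin n → ℂ) → ENNReal} (hg : Measurable g)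
    {B : (Fin n → ℂ) → ENNReal} (hB : Measurable B) (ν : Measure (Fin n → ℂ)) [SFinite ν] :
    Measurable fun ξ : Fin n → ℂ => ∫⁻ y, g (y + ξ) * B y ∂ν := by
  have h1 : Measurable (Function.uncurry fun (ξ y : Fin n → ℂ) => g (y + ξ) * B y) := by
    apply Measurable.mul
    · exact hg.comp (measurable_snd.add measurable_fst)
    · exact hB.comp measurable_snd
  exact h1.lintegral_prod_right

lemma avg_bound {Y D : Set (Fin n → ℂ)} (hYm : MeasurableSet Y) (hDm : MeasurableSet D) {ε : ℝ}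
    (hYD : ∀ y ∈ Y, ∀ ξ ∈ ball (0 : Fin n → ℂ) ε, y + ξ ∈ D)
    {g : (Fin n → ℂ) → ENNReal} (hg : Measurable g)
    {B : (Fin n → ℂ) → ENNReal} (hB : Measurable B) :
    ∫⁻ ξ in ball (0 : Fin n → ℂ) ε, ∫⁻ y in Y, g (y + ξ) * B y ≤
      (∫⁻ z in D, g z) * ∫⁻ y in Y, B y := by
  have h1 : Measurable (Function.uncurry fun (ξ y : Fin n → ℂ) => g (y + ξ) * B y) := by
    apply Measurable.mul
    · exact hg.comp (measurable_snd.add measurable_fst)
    · exact hB.comp measurable_snd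
  rw [lintegral_lintegral_swap h1.aemeasurable, ← lintegral_const_mul _ hB]
  apply setLIntegral_mono' hYm
  intro y hy
  have hmy : Measurable fun x => g (y + x) := hg.comp (measurable_const_add y)
  rw [lintegral_mul_const _ hmy]
  apply mul_le_mul' _ le_rfl
  rw [← lintegral_indicator measurableSet_ball, ← lintegral_indicator hDm,
    ← lintegral_add_left_eq_self (D.indicator fun z => g z) y]
  apply lintegral_mono
  intro ξ
  by_cases hξ : ξ ∈ ball (0 : Fin n → ℂ) ε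
  · rw [Set.indicator_of_mem hξ]
    change g (y + ξ) ≤ D.indicator (fun z => g z) (y + ξ)
    rw [Set.indicator_of_mem (hYD y hy ξ hξ)]
  · rw [Set.indicator_of_notMem hξ]
    exact zero_le

/-- the averaged form of the chain and of the comparison -/
theorem avg_main {Y D : Set (Fin n → ℂ)} (hYm : MeasurableSet Y) (hYf : volume Y ≠ ⊤)
    (hDm : MeasurableSet D) {ε : ℝ} (hε : 0 < ε)
    (hYD : ∀ y ∈ Y, ∀ ξ ∈ ball (0 : Fin n → ℂ) ε, y + ξ ∈ D)
    {m J : ℕ} (hm : 1 ≤ m) (hJ : 1 ≤ J) {kk : ℕ → ℕ}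
    {v : (Fin n → ℂ) → ℝ} (hvm : Measurable v) (hv0 : ∀ z, 0 ≤ v z) {V : ℝ} (hV0 : 0 ≤ V)
    (hV : ∀ z ∈ D, v z ≤ V) {U : ℕ → (Fin n → ℂ) → ℝ} (hUm : ∀ k, Measurable (U k))
    (hU0 : ∀ k z, 0 ≤ U k z) {Cb : ℝ} (hCb : ∀ k z, U k z ≤ Cb)
    {Rf : ℕ → (Fin n → ℂ) → ℝ} (hRm : ∀ k, Measurable (Rf k)) (hR0 : ∀ k z, 0 ≤ Rf k z)
    (hRi : ∀ k, Integrable (Rf k) (volume.restrict Y)) (hR1 : ∀ k, ∫ y in Y, Rf k y = NN n k)
    {S : ℝ} (hS0 : 0 ≤ S) (hS : ∀ ξ ∈ ball (0 : Fin n → ℂ) ε,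
      ∑ j ∈ Finset.range J, ∫ y in Y, vi Y v ξ y * Rf (kk j) y ≤ S)
    {A : ℕ → ℝ} (hA : ∀ j < J, ∀ ξ ∈ ball (0 : Fin n → ℂ) ε,
      A j ≤ ∫ y in Y, vi Y (U (kk j)) ξ y * Rf (kk j) y)
    {η : ℝ} (hη : 0 ≤ η) (hη2 : ∀ j < J, ∫⁻ z in D, ENNReal.ofReal (U (kk j) z - v z / m) ≤
      ENNReal.ofReal (η * (volume (ball (0 : Fin n → ℂ) ε)).toReal)) :
    ∃ j < J, A j ≤ S / (J * m) + η * NN n (kk j) := by
  set W := ball (0 : Fin n → ℂ) ε with hW
  set vW := (volume W).toReal with hvW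
  have hvWt : volume W ≠ ⊤ := measure_ball_lt_top.ne
  have hvW0 : 0 < vW := ENNReal.toReal_pos (measure_ball_pos _ _ hε).ne' hvWt
  have hvWe : volume W = ENNReal.ofReal vW := (ENNReal.ofReal_toReal hvWt).symm
  have : IsFiniteMeasure (volume.restrict Y) := ⟨by simpa using hYf.lt_top⟩
  have hm0 : (0 : ℝ) < m := by exact_mod_cast hm
  have hJ0 : (0 : ℝ) < J := by exact_mod_cast hJ
  set gv : (Fin n → ℂ) → ENNReal := fun z => ENNReal.ofReal (v z) with hgv
  have hgvm : Measurable gv := ENNReal.measurable_ofReal.comp hvm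
  set RR : ℕ → (Fin n → ℂ) → ENNReal := fun k y => ENNReal.ofReal (Rf k y) with hRR
  have hRRm : ∀ k, Measurable (RR k) := fun k => ENNReal.measurable_ofReal.comp (hRm k)
  have hRR1 : ∀ k, ∫⁻ y in Y, RR k y = ENNReal.ofReal (NN n k) := by
    intro k
    rw [hRR]
    simp only
    rw [← ofReal_integral_eq_lintegral_ofReal (hRi k)
      (Filter.Eventually.of_forall fun y => hR0 k y), hR1 k]
  set T : ℕ → ENNReal := fun j => ∫⁻ ξ in W, ∫⁻ y in Y, gv (y + ξ) * RR (kk j) y with hT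
  have hTsum : ∑ j ∈ Finset.range J, T j ≤ ENNReal.ofReal S * volume W := by
    rw [hT]
    simp only
    rw [← lintegral_finsetSum _ fun j _ => inner_meas hgvm (hRRm (kk j)) _]
    calc ∫⁻ ξ in W, ∑ j ∈ Finset.range J, ∫⁻ y in Y, gv (y + ξ) * RR (kk j) y
        ≤ ∫⁻ _ξ in W, ENNReal.ofReal S := by
          apply setLIntegral_mono' measurableSet_ball
          intro ξ hξ
          have h1 : ∀ j ∈ Finset.range J, ∫⁻ y in Y, gv (y + ξ) * RR (kk j) y =
              ENNReal.ofReal (∫ y in Y, vi Y v ξ y * Rf (kk j) y) := by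
            intro j _
            exact (lint_vi hYm hvm hv0 hV0 (fun y hy => hV _ (hYD y hy ξ hξ)) (hRi _)
              (hR0 _)).symm
          rw [Finset.sum_congr rfl h1, ← ENNReal.ofReal_sum_of_nonneg]
          · exact ENNReal.ofReal_le_ofReal (hS ξ hξ)
          · intro j _
            exact integral_nonneg fun y => mul_nonneg (vi_nonneg hv0 ξ y) (hR0 _ y)
      _ = _ := by rw [setLIntegral_const]
  obtain ⟨j, hjJ, hjmin⟩ := Finset.exists_min_image (Finset.range J) T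
    ⟨0, Finset.mem_range.mpr hJ⟩
  have hjJ' := Finset.mem_range.mp hjJ
  have hJT : (J : ENNReal) * T j ≤ ENNReal.ofReal S * volume W := by
    have h1 := Finset.card_nsmul_le_sum (Finset.range J) T (T j) hjmin
    rw [Finset.card_range, nsmul_eq_mul] at h1
    exact h1.trans hTsum
  refine ⟨j, hjJ', ?_⟩
  by_cases hAj : A j ≤ 0
  · refine hAj.trans ?_
    positivity
  push Not at hAj
  set k := kk j with hk
  -- lower bound for the average
  have h2 : ENNReal.ofReal (A j) * volume W ≤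
      ∫⁻ ξ in W, ∫⁻ y in Y, ENNReal.ofReal (U k (y + ξ)) * RR k y := by
    have h0 : ENNReal.ofReal (A j) * volume W = ∫⁻ _ξ in W, ENNReal.ofReal (A j) := by
      rw [setLIntegral_const]
    rw [h0]
    apply setLIntegral_mono' measurableSet_ball
    intro ξ hξ
    have h1 := lint_vi hYm (hUm k) (hU0 k) (ξ := ξ) (V := Cb) ((hU0 k 0).trans (hCb k 0))
      (fun y _ => hCb k _) (hRi k) (hR0 k)
    refine le_trans (ENNReal.ofReal_le_ofReal (hA j hjJ' ξ hξ)) h1.le
  set g1 : (Fin n → ℂ) → ENNReal := fun z => ENNReal.ofReal (v z / m) with hg1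
  set g2 : (Fin n → ℂ) → ENNReal := fun z => ENNReal.ofReal (U k z - v z / m) with hg2
  have hg1m : Measurable g1 := ENNReal.measurable_ofReal.comp (hvm.div_const _)
  have hg2m : Measurable g2 := ENNReal.measurable_ofReal.comp ((hUm k).sub (hvm.div_const _))
  have h3 : ∫⁻ ξ in W, ∫⁻ y in Y, ENNReal.ofReal (U k (y + ξ)) * RR k y ≤
      (∫⁻ ξ in W, ∫⁻ y in Y, g1 (y + ξ) * RR k y) +
      ∫⁻ ξ in W, ∫⁻ y in Y, g2 (y + ξ) * RR k y := by
    rw [← lintegral_add_left (inner_meas hg1m (hRRm k) _)]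
    apply lintegral_mono
    intro ξ
    simp only
    have hmy : Measurable fun y => g1 (y + ξ) * RR k y :=
      (hg1m.comp (measurable_add_const ξ)).mul (hRRm k)
    rw [← lintegral_add_left hmy]
    apply lintegral_mono
    intro y
    simp only
    rw [← add_mul]
    gcongr
    rw [hg1, hg2]
    simp only
    have : U k (y + ξ) = v (y + ξ) / m + (U k (y + ξ) - v (y + ξ) / m) := by ring
    conv_lhs => rw [this]
    exact ENNReal.ofReal_add_le
  have h4 : ∫⁻ ξ in W, ∫⁻ y in Y, g2 (y + ξ) * RR k y ≤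
      ENNReal.ofReal (η * vW) * ENNReal.ofReal (NN n k) := by
    refine (avg_bound hYm hDm hYD hg2m (hRRm k)).trans ?_
    rw [hRR1 k]
    gcongr
    exact hη2 j hjJ'
  have h5 : ∫⁻ ξ in W, ∫⁻ y in Y, g1 (y + ξ) * RR k y ≤
      ENNReal.ofReal (1 / m) * T j := by
    rw [hT]
    simp only
    rw [← lintegral_const_mul _ (inner_meas hgvm (hRRm k) _)]
    apply lintegral_mono
    intro ξ
    simp only
    have hmy : Measurable fun y => gv (y + ξ) * RR k y :=
      (hgvm.comp (measurable_add_const ξ)).mul (hRRm k)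
    rw [← lintegral_const_mul _ hmy]
    apply lintegral_mono
    intro y
    simp only [hg1, hgv]
    have e1 : ENNReal.ofReal (v (y + ξ) / m) = ENNReal.ofReal (1 / m) * ENNReal.ofReal (v (y + ξ)) := by
      rw [← ENNReal.ofReal_mul (by positivity)]
      congr 1
      ring
    rw [e1, mul_assoc]
  have h6 : T j ≤ ENNReal.ofReal (S * vW / J) := by
    have h7 : T j ≤ (ENNReal.ofReal S * volume W) / (J : ENNReal) := by
      rw [ENNReal.le_div_iff_mul_le (Or.inl (by simp; omega)) (Or.inl (ENNReal.natCast_ne_top J)),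
        mul_comm]
      exact hJT
    refine h7.trans (le_of_eq ?_)
    rw [hvWe, ← ENNReal.ofReal_mul hS0, ENNReal.ofReal_div_of_pos hJ0, ENNReal.ofReal_natCast]
  have h8 : ENNReal.ofReal (A j * vW) ≤
      ENNReal.ofReal (1 / m * (S * vW / J) + η * vW * NN n k) := by
    have e1 : ENNReal.ofReal (1 / m * (S * vW / J)) =
        ENNReal.ofReal (1 / m) * ENNReal.ofReal (S * vW / J) :=
      ENNReal.ofReal_mul (by positivity)
    have e2 : ENNReal.ofReal (η * vW * NN n k) = ENNReal.ofReal (η * vW) * ENNReal.ofReal (NN n k) :=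
      ENNReal.ofReal_mul (mul_nonneg hη hvW0.le)
    have e3 : (0 : ℝ) ≤ η * vW * NN n k := mul_nonneg (mul_nonneg hη hvW0.le) (Nat.cast_nonneg _)
    have e4 : (0 : ℝ) ≤ 1 / m * (S * vW / J) := by positivity
    rw [ENNReal.ofReal_mul hAj.le, ← hvWe, ENNReal.ofReal_add e4 e3, e1, e2]
    refine h2.trans (h3.trans (add_le_add (h5.trans ?_) h4))
    exact mul_le_mul' le_rfl h6
  have h9 : A j * vW ≤ 1 / m * (S * vW / J) + η * vW * NN n k := by
    rwa [ENNReal.ofReal_le_ofReal_iff (by positivity)] at h8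
  have h10 : A j * vW ≤ (S / (J * m) + η * NN n k) * vW := by
    refine h9.trans (le_of_eq ?_)
    field_simp
  exact le_of_mul_le_mul_right h10 hvW0

end Pool.Agent.H940R3.VD
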