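import Pool.Agent.H940R3.VD.Asym

set_option autoImplicit false

open Matrix MeasureTheory Metric Filter Topology
open scoped ComplexOrder MatrixOrder Matrix.Norms.L2Operator

namespace Pool.Agent.H940R3.VD

open Pool.Agent.H805R2.Gram Pool.Agent.H805R2.Fek

variable {n : ℕ}

lemma continuous_det (R : ℝ) (k : ℕ) :
    Continuous fun x : Ix n k → (Fin n → ℂ) => (ev (e n R k) x).det := by
  apply Continuous.matrix_det
  apply continuous_matrix
  intro i j
  exact (isP_e R k j).continuous.comp (continuous_apply i)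

lemma exists_fek {K : Set (Fin n → ℂ)} (hK : IsCompact K) (hne : K.Nonempty) (R : ℝ) (k : ℕ) :
    ∃ x : Ix n k → (Fin n → ℂ), (∀ j, x j ∈ K) ∧ ∀ y : Ix n k → (Fin n → ℂ), (∀ j, y j ∈ K) →
      ‖(ev (e n R k) y).det‖ ≤ ‖(ev (e n R k) x).det‖ := by
  have hcomp : IsCompact (Set.pi Set.univ (fun _ : Ix n k => K)) := isCompact_univ_pi fun _ => hK
  have hne' : (Set.pi Set.univ (fun _ : Ix n k => K)).Nonempty := by
    obtain ⟨w, hw⟩ := hne
    exact ⟨fun _ => w, fun _ _ => hw⟩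
  obtain ⟨x, hx, hmax⟩ := hcomp.exists_isMaxOn hne' (continuous_det R k).norm.continuousOn
  exact ⟨x, fun j => hx j (Set.mem_univ j), fun y hy => hmax (fun j _ => hy j)⟩

lemma fk_of {K : Set (Fin n → ℂ)} (hK : IsCompact K) {R : ℝ} {k : ℕ}
    {y : Ix n k → (Fin n → ℂ)} (hy : ∀ j, y j ∈ K) (hne : (ev (e n R k) y).det ≠ 0) :
    ∃ x : Ix n k → (Fin n → ℂ), Fk (e n R k) K x := by
  have hKne : K.Nonempty := by
    have : Nonempty (Ix n k) := ⟨⟨fun _ => 0, by simp⟩⟩
    exact ⟨_, hy (Classical.arbitrary _)⟩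
  obtain ⟨x, hx, hmax⟩ := exists_fek hK hKne R k
  refine ⟨x, hx, hmax, ?_⟩
  have := hmax y hy
  have h2 : 0 < ‖(ev (e n R k) y).det‖ := norm_pos_iff.mpr hne
  exact norm_pos_iff.mp (h2.trans_le this)

lemma det_update {R : ℝ} {k : ℕ} (x : Ix n k → (Fin n → ℂ)) (j : Ix n k) :
    ∃ c : Ix n k → ℂ, ∀ z, (ev (e n R k) (Function.update x j z)).det = sm (e n R k) c z := by
  refine ⟨fun α => (adjugate (ev (e n R k) x)ᵀ) j α, fun z => ?_⟩
  have h4 : (ev (e n R k) x).updateRow j (e n R k z) = ev (e n R k) (Function.update x j z) := by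
    ext i α
    by_cases hi : i = j
    · subst hi
      simp [ev]
    · simp [ev, Matrix.updateRow_ne hi, Function.update_of_ne hi]
  rw [← h4, ← Matrix.cramer_transpose_apply, Matrix.cramer_eq_adjugate_mulVec]
  rfl

lemma det_growth {K : Set (Fin n → ℂ)} (hK : IsCompact K) (hne : K.Nonempty) {R : ℝ} {k : ℕ}
    {A : ℝ} (hA : 0 ≤ A) {y : Ix n k → (Fin n → ℂ)}
    (hy : ∀ g, IsP k g → ∀ S : ℝ, 0 ≤ S → (∀ z ∈ K, ‖g z‖ ≤ S) → ∀ b, ‖g (y b)‖ ≤ A * S)
    {M : ℝ} (hM : ∀ x : Ix n k → (Fin n → ℂ), (∀ j, x j ∈ K) → ‖(ev (e n R k) x).det‖ ≤ M) :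
    ‖(ev (e n R k) y).det‖ ≤ A ^ NN n k * M := by
  have key : ∀ s : Finset (Ix n k), ∃ x : Ix n k → (Fin n → ℂ), (∀ j ∈ s, x j ∈ K) ∧
      (∀ j, j ∉ s → x j = y j) ∧
      ‖(ev (e n R k) y).det‖ ≤ A ^ s.card * ‖(ev (e n R k) x).det‖ := by
    intro s
    induction s using Finset.induction_on with
    | empty => exact ⟨y, by simp, fun _ _ => rfl, by simp⟩
    | insert j s hj ih =>
      obtain ⟨x, hx1, hx2, hx3⟩ := ih
      obtain ⟨c, hc⟩ := det_update (R := R) x j
      have hcont : Continuous (sm (e n R k) c) := (isP_sm R k c).continuous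
      obtain ⟨w, hw, hmax⟩ := hK.exists_isMaxOn hne hcont.norm.continuousOn
      have h1 := hy _ (isP_sm R k c) ‖sm (e n R k) c w‖ (norm_nonneg _) (fun z hz => hmax hz) j
      have h2 : sm (e n R k) c (y j) = (ev (e n R k) x).det := by
        rw [← hc, ← hx2 j hj, Function.update_eq_self]
      refine ⟨Function.update x j w, ?_, ?_, ?_⟩
      · intro i hi
        rcases Finset.mem_insert.mp hi with rfl | hi
        · simpa using hw
        · have : i ≠ j := fun h => hj (h ▸ hi)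
          rw [Function.update_of_ne this]
          exact hx1 i hi
      · intro i hi
        rw [Finset.mem_insert, not_or] at hi
        rw [Function.update_of_ne hi.1]
        exact hx2 i hi.2
      · rw [hc, Finset.card_insert_of_notMem hj, pow_succ]
        rw [h2] at h1
        calc ‖(ev (e n R k) y).det‖ ≤ A ^ s.card * ‖(ev (e n R k) x).det‖ := hx3
          _ ≤ A ^ s.card * (A * ‖sm (e n R k) c w‖) := by gcongr
          _ = _ := by ring
  obtain ⟨x, hx1, _, hx3⟩ := key Finset.univ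
  rw [Finset.card_univ, card_Ix] at hx3
  refine hx3.trans ?_
  have := hM x (fun j => hx1 j (Finset.mem_univ j))
  gcongr

/-- counting measure on an array -/
noncomputable def cnt {k : ℕ} (x : Ix n k → (Fin n → ℂ)) : Measure (Fin n → ℂ) :=
  ∑ j, Measure.dirac (x j)

instance {k : ℕ} (x : Ix n k → (Fin n → ℂ)) : IsFiniteMeasure (cnt x) := by
  unfold cnt
  infer_instance

lemma cnt_integral {k : ℕ} (x : Ix n k → (Fin n → ℂ)) {E : Type*} [NormedAddCommGroup E]
    [NormedSpace ℝ E] [CompleteSpace E] {f : (Fin n → ℂ) → E} (hf : Continuous f) :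
    ∫ z, f z ∂(cnt x) = ∑ j, f (x j) := by
  unfold cnt
  rw [integral_finsetSum_measure]
  · simp
  · intro j _
    exact integrable_dirac (by simp [enorm_lt_top])

lemma cnt_univ {k : ℕ} (x : Ix n k → (Fin n → ℂ)) : (cnt x).real Set.univ = NN n k := by
  have := cnt_integral x (f := fun _ => (1 : ℝ)) continuous_const
  simp [card_Ix] at this
  exact this

lemma cnt_compl {k : ℕ} {x : Ix n k → (Fin n → ℂ)} {K : Set (Fin n → ℂ)} (hK : MeasurableSet K)
    (hx : ∀ j, x j ∈ K) : cnt x Kᶜ = 0 := by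
  unfold cnt
  rw [Measure.finsetSum_apply]
  apply Finset.sum_eq_zero
  intro j _
  rw [Measure.dirac_apply' _ hK.compl]
  simp [hx j]

lemma Gk_cnt {R : ℝ} {k : ℕ} (x : Ix n k → (Fin n → ℂ)) :
    Gk (cnt x) R k = (ev (e n R k) x)ᴴ * ev (e n R k) x := by
  ext α β
  unfold Gk Pool.Agent.H805R2.Gram.gram
  simp only [Matrix.of_apply]
  rw [cnt_integral x]
  · simp [Matrix.mul_apply, ev]
  · have h1 := (isP_e R k α).continuous
    have h2 := (isP_e R k β).continuous
    have h3 : Continuous fun z => star (e n R k z α) := h1.star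
    fun_prop

lemma Gk_cnt_posDef {R : ℝ} {k : ℕ} {x : Ix n k → (Fin n → ℂ)}
    (hne : (ev (e n R k) x).det ≠ 0) : (Gk (cnt x) R k).PosDef := by
  rw [Gk_cnt]
  have h1 : ((ev (e n R k) x)ᴴ * ev (e n R k) x).PosSemidef :=
    Matrix.posSemidef_conjTranspose_mul_self _
  rw [h1.posDef_iff_det_ne_zero, det_mul, det_conjTranspose]
  exact mul_ne_zero (by simpa using hne) hne

lemma Gk_cnt_det {R : ℝ} {k : ℕ} (x : Ix n k → (Fin n → ℂ)) :
    (Gk (cnt x) R k).det.re = ‖(ev (e n R k) x).det‖ ^ 2 := by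
  rw [Gk_cnt, det_mul, det_conjTranspose, Complex.star_def, mul_comm, Complex.mul_conj,
    Complex.normSq_eq_norm_sq, Complex.ofReal_re]

lemma det_le_pow {R : ℝ} (hR : 0 < R) {k : ℕ} {x : Ix n k → (Fin n → ℂ)}
    (hx : ∀ j, x j ∈ closedBall (0 : Fin n → ℂ) R) :
    ‖(ev (e n R k) x).det‖ ≤ (NN n k : ℝ) ^ NN n k := by
  have h1 : ∀ i j, ‖ev (e n R k) x i j‖ ≤ 1 := by
    intro i j
    have := hx i
    rw [mem_closedBall_zero_iff] at this
    exact norm_e_le hR this j
  rw [Matrix.det_apply]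
  refine (norm_sum_le _ _).trans ?_
  have h2 : ∀ σ : Equiv.Perm (Ix n k),
      ‖Equiv.Perm.sign σ • ∏ i, ev (e n R k) x (σ i) i‖ ≤ 1 := by
    intro σ
    have h3 : ‖∏ i, ev (e n R k) x (σ i) i‖ ≤ 1 := by
      rw [norm_prod]
      exact Finset.prod_le_one (fun i _ => norm_nonneg _) (fun i _ => h1 _ _)
    rcases Int.units_eq_one_or (Equiv.Perm.sign σ) with h | h <;> rw [h] <;> simpa using h3
  refine (Finset.sum_le_sum fun σ _ => h2 σ).trans ?_
  rw [Finset.sum_const, Finset.card_univ, Fintype.card_perm, card_Ix]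
  simp only [nsmul_eq_mul, mul_one]
  exact_mod_cast Nat.factorial_le_pow (NN n k)

end Pool.Agent.H940R3.VD
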