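import Pool.Agent.H940R3.VD.Star

set_option autoImplicit false

open Matrix MeasureTheory
open scoped ComplexOrder MatrixOrder Matrix.Norms.L2Operator

namespace Pool.Agent.H940R3.VD

open Pool.Agent.H805R2.Gram

variable {ι ι' : Type*} [Fintype ι] [DecidableEq ι] [Fintype ι'] [DecidableEq ι']
  {X : Type*} [MeasurableSpace X]

/-- `B` is the Bergman function of the Gram matrix `gram μ m w` (times the weight) -/
structure Bg (μ : Measure X) (m : X → ι → ℂ) (w : X → ℝ) (B : X → ℝ) : Prop where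
  meas : Measurable B
  nonneg : ∀ z, 0 ≤ B z
  integrable : Integrable B μ
  int : ∫ z, B z ∂μ = Fintype.card ι
  ge : ∀ z c, ‖sm m c z‖ ^ 2 * w z ≤ B z * (qf (Pool.Agent.H805R2.Gram.gram μ m w) c).re
  le : ∀ z κ, 0 ≤ κ → (∀ c, ‖sm m c z‖ ^ 2 * w z ≤
    κ * (qf (Pool.Agent.H805R2.Gram.gram μ m w) c).re) → B z ≤ κ

lemma Bg.eq {μ : Measure X} {m : X → ι → ℂ} {w : X → ℝ} {B B' : X → ℝ} (h : Bg μ m w B)
    (h' : Bg μ m w B') : B = B' := by
  funext z
  exact le_antisymm (h.le z _ (h'.nonneg z) (h'.ge z)) (h'.le z _ (h.nonneg z) (h.ge z))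

lemma Bg.compare {μ : Measure X} {m : X → ι → ℂ} {w : X → ℝ} {B : X → ℝ} (h : Bg μ m w B)
    {μ' : Measure X} {m' : X → ι' → ℂ} {w' : X → ℝ} {B' : X → ℝ} (h' : Bg μ' m' w' B') (y y' : X)
    (H : ∀ c, ∃ c', ‖sm m c y‖ ^ 2 * w y ≤ ‖sm m' c' y'‖ ^ 2 * w' y' ∧
      (qf (Pool.Agent.H805R2.Gram.gram μ' m' w') c').re ≤
        (qf (Pool.Agent.H805R2.Gram.gram μ m w) c).re) :
    B y ≤ B' y' := by
  apply h.le y _ (h'.nonneg y')
  intro c
  obtain ⟨c', h1, h2⟩ := H c
  exact h1.trans ((h'.ge y' c').trans (mul_le_mul_of_nonneg_left h2 (h'.nonneg y')))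

lemma qf_gram_re (μ : Measure X) [IsFiniteMeasure μ] (m : X → ι → ℂ)
    (hm : ∀ α, Measurable fun z => m z α) (hmb : ∀ᵐ z ∂μ, ∀ α, ‖m z α‖ ≤ 1)
    (w : X → ℝ) (hw : Measurable w) (W : ℝ) (hW : ∀ z, |w z| ≤ W) (c : ι → ℂ) :
    (qf (Pool.Agent.H805R2.Gram.gram μ m w) c).re = ∫ z, ‖sm m c z‖ ^ 2 * w z ∂μ := by
  rw [qf_gram μ m w hm hmb hw W hW, Complex.ofReal_re]
  rfl

/-- existence of the Bergman function together with Jensen's inequality -/
lemma bg_exists (μ : Measure X) [IsFiniteMeasure μ] (m : X → ι → ℂ)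
    (hm : ∀ α, Measurable fun z => m z α) (hmb : ∀ᵐ z ∂μ, ∀ α, ‖m z α‖ ≤ 1)
    (w : X → ℝ) (hw : Measurable w) (W : ℝ) (hW : ∀ z, |w z| ≤ W) (hw0 : ∀ z, 0 ≤ w z)
    (hpd : (Pool.Agent.H805R2.Gram.gram μ m w).PosDef)
    (v : X → ℝ) (hv : Measurable v) (V : ℝ) (hV : ∀ z, |v z| ≤ V) :
    ∃ B : X → ℝ, Bg μ m w B ∧ 2 * ∫ z, v z * B z ∂μ ≤
      Real.log (Pool.Agent.H805R2.Gram.gram μ m (fun z => w z * Real.exp (2 * v z))).det.re -
      Real.log (Pool.Agent.H805R2.Gram.gram μ m w).det.re := by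
  set w' : X → ℝ := fun z => w z * Real.exp (2 * v z) with hw'
  have hw'm : Measurable w' := by fun_prop
  have hw'b : ∀ z, |w' z| ≤ W * Real.exp (2 * V) := by
    intro z
    rw [hw']
    simp only
    rw [abs_mul, abs_of_pos (Real.exp_pos _)]
    have h1 := hW z
    have h2 := (abs_le.1 (hV z)).2
    have h3 : 0 ≤ W := (abs_nonneg _).trans h1
    gcongr
  set G := Pool.Agent.H805R2.Gram.gram μ m w with hG
  set Q := Pool.Agent.H805R2.Gram.gram μ m w' with hQ
  obtain ⟨C, x, h1, h2⟩ := simul_diag G Q hpd (gram_isHermitian μ m _)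
  obtain ⟨hC, h3⟩ := det_rel G Q C x h1 h2
  set p : ι → X → ℝ := fun i z => ‖∑ β, C β i * m z β‖ ^ 2 * w z with hp
  have hpi : ∀ i, Integrable (p i) μ := fun i =>
    qf_integrable μ m w hm hmb hw _ hW (fun β => C β i)
  have hp0 : ∀ i z, 0 ≤ p i z := fun i z => mul_nonneg (by positivity) (hw0 z)
  have hp1 : ∀ i, ∫ z, p i z ∂μ = 1 := by
    intro i
    have e1 := diag_entry G C i
    rw [h1, one_apply_eq, hG, qf_gram μ m w hm hmb hw _ hW] at e1
    exact_mod_cast e1.symm
  have hx : ∀ i, x i = ∫ z, p i z * Real.exp (2 * v z) ∂μ := by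
    intro i
    have e1 := diag_entry Q C i
    rw [h2, diagonal_apply_eq, hQ, qf_gram μ m w' hm hmb hw'm _ hw'b] at e1
    have e2 : x i = ∫ z, ‖∑ β, C β i * m z β‖ ^ 2 * w' z ∂μ := by exact_mod_cast e1
    rw [e2]
    apply integral_congr_ae
    refine Filter.Eventually.of_forall fun z => ?_
    simp only [hp, hw']
    ring
  have hlog : ∀ i, 2 * ∫ z, v z * p i z ∂μ ≤ Real.log (x i) := by
    intro i
    rw [hx i]
    exact jensen_exp μ (p i) v (hpi i) (hp0 i) (hp1 i) hv V hV
  have hxpos : ∀ i, 0 < x i := by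
    intro i
    rw [hx i]
    have hle : Real.exp (-2 * V) * ∫ z, p i z ∂μ ≤ ∫ z, p i z * Real.exp (2 * v z) ∂μ := by
      rw [← integral_const_mul]
      apply integral_mono_of_nonneg
      · exact Filter.Eventually.of_forall fun z => mul_nonneg (Real.exp_pos _).le (hp0 i z)
      · have : Integrable (fun z => Real.exp (2 * v z) * p i z) μ := by
          apply (hpi i).bdd_mul (by fun_prop) (c := Real.exp (2 * V))
          refine Filter.Eventually.of_forall fun z => ?_
          rw [Real.norm_eq_abs, abs_of_pos (Real.exp_pos _)]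
          apply Real.exp_le_exp.2
          have := (abs_le.1 (hV z)).2
          linarith
        simpa only [mul_comm] using this
      · refine Filter.Eventually.of_forall fun z => ?_
        simp only
        rw [mul_comm]
        apply mul_le_mul_of_nonneg_left _ (hp0 i z)
        apply Real.exp_le_exp.2
        have := (abs_le.1 (hV z)).1
        linarith
    rw [hp1 i, mul_one] at hle
    exact (Real.exp_pos _).trans_le hle
  have hGp : 0 < G.det := hpd.det_pos
  obtain ⟨hGre, hGim⟩ := Complex.pos_iff.1 hGp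
  have hdet : Q.det.re = G.det.re * ∏ i, x i := by
    rw [h3, ← Complex.ofReal_prod, Complex.re_mul_ofReal]
  have hlogdet : Real.log Q.det.re = Real.log G.det.re + ∑ i, Real.log (x i) := by
    rw [hdet, Real.log_mul hGre.ne' (Finset.prod_pos fun i _ => hxpos i).ne',
      Real.log_prod fun i _ => (hxpos i).ne']
  have hvp : ∀ i, Integrable (fun z => v z * p i z) μ := by
    intro i
    apply (hpi i).bdd_mul hv.aestronglyMeasurable (c := V)
    exact Filter.Eventually.of_forall fun z => by rw [Real.norm_eq_abs]; exact hV z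
  set B : X → ℝ := fun z => ∑ i, p i z with hB
  have hBi : Integrable B μ := integrable_finsetSum _ fun i _ => hpi i
  have hB0 : ∀ z, 0 ≤ B z := fun z => Finset.sum_nonneg fun i _ => hp0 i z
  have hB1 : ∫ z, B z ∂μ = Fintype.card ι := by
    rw [hB, integral_finsetSum _ fun i _ => hpi i]
    simp [hp1]
  refine ⟨B, ⟨?_, hB0, hBi, hB1, ?_, ?_⟩, ?_⟩
  · apply Finset.measurable_sum
    intro i _
    simp only [hp]
    have : Measurable fun z => ∑ β, C β i * m z β :=
      Finset.measurable_sum _ fun β _ => (hm β).const_mul _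
    fun_prop
  · intro z c
    -- Cauchy-Schwarz
    have hCdet : IsUnit C.det := by
      have h4 : (Cᴴ * G * C).det = 1 := by rw [h1, det_one]
      rw [det_mul] at h4
      exact IsUnit.of_mul_eq_one_right _ h4
    set a : ι → ℂ := C⁻¹ *ᵥ c with ha
    have hc : c = C *ᵥ a := by rw [ha, mulVec_mulVec, mul_nonsing_inv _ hCdet, one_mulVec]
    have hqf : (qf G c).re = ∑ i, ‖a i‖ ^ 2 := by
      have e1 : qf G c = star a ⬝ᵥ a := by
        unfold qf
        rw [hc, star_mulVec, ← dotProduct_mulVec, mulVec_mulVec, mulVec_mulVec,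
          h1, one_mulVec]
      rw [e1]
      simp only [dotProduct, Complex.re_sum, Pi.star_apply, Complex.star_def]
      apply Finset.sum_congr rfl
      intro i _
      rw [mul_comm, Complex.mul_conj, Complex.normSq_eq_norm_sq, Complex.ofReal_re]
    have hsm : sm m c z = ∑ i, a i * ∑ β, C β i * m z β := by
      unfold sm
      rw [hc]
      simp only [mulVec, dotProduct, Finset.sum_mul, Finset.mul_sum]
      rw [Finset.sum_comm]
      apply Finset.sum_congr rfl
      intro i _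
      apply Finset.sum_congr rfl
      intro β _
      ring
    have hcs : ‖sm m c z‖ ^ 2 ≤ (∑ i, ‖a i‖ ^ 2) * ∑ i, ‖∑ β, C β i * m z β‖ ^ 2 := by
      rw [hsm]
      calc ‖∑ i, a i * ∑ β, C β i * m z β‖ ^ 2 ≤ (∑ i, ‖a i‖ * ‖∑ β, C β i * m z β‖) ^ 2 := by
            gcongr
            refine (norm_sum_le _ _).trans (le_of_eq ?_)
            exact Finset.sum_congr rfl fun i _ => norm_mul _ _
        _ ≤ _ := Finset.sum_mul_sq_le_sq_mul_sq _ _ _
    rw [hqf]
    simp only [hB, hp]
    rw [← Finset.sum_mul]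
    have := mul_le_mul_of_nonneg_right hcs (hw0 z)
    linarith
  · intro z κ hκ h
    have := bergman_pointwise G C h1 (m z) (w z) κ hκ h
    rw [Finset.sum_mul] at this
    exact this
  · have e1 : 2 * ∫ z, v z * B z ∂μ = ∑ i, 2 * ∫ z, v z * p i z ∂μ := by
      rw [← Finset.mul_sum, ← integral_finsetSum _ fun i _ => hvp i]
      congr 1
      apply integral_congr_ae
      refine Filter.Eventually.of_forall fun z => ?_
      simp only [hB]
      rw [Finset.mul_sum]
    rw [e1, hlogdet]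
    have := Finset.sum_le_sum fun i (_ : i ∈ Finset.univ) => hlog i
    linarith

end Pool.Agent.H940R3.VD
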