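import Pool.Agent.H940R3.VD.Berg
import Pool.Agent.H940R3.VD.Bdd

set_option autoImplicit false

open Matrix MeasureTheory Metric
open scoped ComplexOrder MatrixOrder Matrix.Norms.L2Operator

namespace Pool.Agent.H940R3.VD

open Pool.Agent.H805R2.Gram Pool.Agent.H805R2.Fek

variable {n : ℕ}

section
variable {ι : Type*} [Fintype ι] [DecidableEq ι]

lemma det_le_smul {G Q : Matrix ι ι ℂ} (hG : G.PosDef) (hQ : Q.PosSemidef) {C : ℝ} (hC : 0 < C)
    (h : ∀ c, (qf Q c).re ≤ C * (qf G c).re) : Q.det.re ≤ C ^ Fintype.card ι * G.det.re := by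
  have h1 : ((C : ℂ) • G).PosDef := by
    apply hG.smul
    exact_mod_cast hC
  have h2 := det_mono ((C : ℂ) • G) Q h1 hQ (by
    intro c
    rw [qf_smul, Complex.re_ofReal_mul]
    exact h c)
  rwa [det_smul, ← Complex.ofReal_pow, Complex.re_ofReal_mul] at h2

end

/-- translated monomials -/
noncomputable def mx (R : ℝ) (k : ℕ) (ξ : Fin n → ℂ) (y : Fin n → ℂ) : Ix n k → ℂ :=
  e n R k (y + ξ)

lemma mx_meas (R : ℝ) (k : ℕ) (ξ : Fin n → ℂ) (α : Ix n k) : Measurable fun y => mx R k ξ y α :=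
  ((isP_e R k α).translate ξ).continuous.measurable

lemma mx_bd {R : ℝ} (hR : 0 < R) (k : ℕ) {ξ : Fin n → ℂ} {Y : Set (Fin n → ℂ)}
    (hYm : MeasurableSet Y) (hY : ∀ y ∈ Y, ‖y + ξ‖ ≤ R) :
    ∀ᵐ y ∂(volume.restrict Y), ∀ α, ‖mx R k ξ y α‖ ≤ 1 := by
  rw [ae_restrict_iff' hYm]
  exact Filter.Eventually.of_forall fun y hy α => norm_e_le hR (hY y hy) α

lemma sm_mx (R : ℝ) (k : ℕ) (ξ : Fin n → ℂ) (c : Ix n k → ℂ) (y : Fin n → ℂ) :
    sm (mx R k ξ) c y = sm (e n R k) c (y + ξ) := rfl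

/-- the Gram matrices of the chain -/
noncomputable def GG (R : ℝ) (k : ℕ) (Y : Set (Fin n → ℂ)) (ξ : Fin n → ℂ)
    (w : (Fin n → ℂ) → ℝ) : Matrix (Ix n k) (Ix n k) ℂ :=
  Pool.Agent.H805R2.Gram.gram (volume.restrict Y) (mx R k ξ) w

lemma qf_GG {R : ℝ} (hR : 0 < R) (k : ℕ) {ξ : Fin n → ℂ} {Y : Set (Fin n → ℂ)}
    (hYm : MeasurableSet Y) (hYf : volume Y ≠ ⊤) (hY : ∀ y ∈ Y, ‖y + ξ‖ ≤ R)
    {w : (Fin n → ℂ) → ℝ} (hw : Measurable w) {W : ℝ} (hW : ∀ z, |w z| ≤ W) (c : Ix n k → ℂ) :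
    qf (GG R k Y ξ w) c = ((∫ y in Y, ‖sm (e n R k) c (y + ξ)‖ ^ 2 * w y : ℝ) : ℂ) := by
  have : IsFiniteMeasure (volume.restrict Y) := ⟨by simpa using hYf.lt_top⟩
  exact qf_gram (volume.restrict Y) (mx R k ξ) w (mx_meas R k ξ) (mx_bd hR k hYm hY) hw W hW c

lemma GG_int {R : ℝ} (hR : 0 < R) (k : ℕ) {ξ : Fin n → ℂ} {Y : Set (Fin n → ℂ)}
    (hYm : MeasurableSet Y) (hYf : volume Y ≠ ⊤) (hY : ∀ y ∈ Y, ‖y + ξ‖ ≤ R)
    {w : (Fin n → ℂ) → ℝ} (hw : Measurable w) {W : ℝ} (hW : ∀ z, |w z| ≤ W) (c : Ix n k → ℂ) :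
    IntegrableOn (fun y => ‖sm (e n R k) c (y + ξ)‖ ^ 2 * w y) Y := by
  have : IsFiniteMeasure (volume.restrict Y) := ⟨by simpa using hYf.lt_top⟩
  exact qf_integrable (volume.restrict Y) (mx R k ξ) w (mx_meas R k ξ) (mx_bd hR k hYm hY) hw W hW c

lemma GG_psd {R : ℝ} (hR : 0 < R) (k : ℕ) {ξ : Fin n → ℂ} {Y : Set (Fin n → ℂ)}
    (hYm : MeasurableSet Y) (hYf : volume Y ≠ ⊤) (hY : ∀ y ∈ Y, ‖y + ξ‖ ≤ R)
    {w : (Fin n → ℂ) → ℝ} (hw : Measurable w) {W : ℝ} (hW : ∀ z, |w z| ≤ W) (hw0 : ∀ z, 0 ≤ w z) :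
    (GG R k Y ξ w).PosSemidef := by
  refine Matrix.PosSemidef.of_dotProduct_mulVec_nonneg (gram_isHermitian _ _ _) ?_
  intro c
  have h1 : star c ⬝ᵥ (GG R k Y ξ w *ᵥ c) = qf (GG R k Y ξ w) c := rfl
  rw [h1, qf_GG hR k hYm hYf hY hw hW, ← Complex.ofReal_zero, Complex.real_le_real]
  exact integral_nonneg fun y => mul_nonneg (by positivity) (hw0 y)

lemma low_bound {R : ℝ} (hR : 0 < R) {k : ℕ} {ξ : Fin n → ℂ} {Y K : Set (Fin n → ℂ)}
    (hYm : MeasurableSet Y) (hYf : volume Y ≠ ⊤) (hY : ∀ y ∈ Y, ‖y + ξ‖ ≤ R)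
    {w : (Fin n → ℂ) → ℝ} (hw : Measurable w) {W : ℝ} (hW : ∀ z, |w z| ≤ W) (hw0 : ∀ z, 0 ≤ w z)
    {r ω : ℝ} (hr : 0 < r) (hω : 0 < ω)
    (hsub : ∀ z ∈ K, ∀ t ∈ ball (0 : Fin n → ℂ) r, z + t - ξ ∈ Y ∧ ω ≤ w (z + t - ξ))
    {x : Ix n k → (Fin n → ℂ)} (hx : ∀ j, x j ∈ K) (c : Ix n k → ℂ) :
    (qf ((ev (e n R k) x)ᴴ * ev (e n R k) x) c).re ≤
      (NN n k / (ω * (volume (ball (0 : Fin n → ℂ) r)).toReal)) * (qf (GG R k Y ξ w) c).re := by
  rw [qf_ev, Complex.ofReal_re, qf_GG hR k hYm hYf hY hw hW, Complex.ofReal_re]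
  set f := sm (e n R k) c with hf
  have hfP : IsP k f := isP_sm R k c
  have hfc := hfP.continuous
  set I := ∫ y in Y, ‖f (y + ξ)‖ ^ 2 * w y with hI
  set Vr := (volume (ball (0 : Fin n → ℂ) r)).toReal with hVr
  have hVr0 : 0 < Vr := ENNReal.toReal_pos (measure_ball_pos _ _ hr).ne' measure_ball_lt_top.ne
  have key : ∀ z ∈ K, ‖f z‖ ^ 2 ≤ I / (ω * Vr) := by
    intro z hz
    have h1 := submean_sq hfP z r
    have h2 : ∫ t in ball (0 : Fin n → ℂ) r, ‖f (z + t)‖ ^ 2 ≤ ω⁻¹ * I := by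
      have h3 : ω⁻¹ * I = ∫ t, ω⁻¹ * (Y.indicator (fun y => ‖f (y + ξ)‖ ^ 2 * w y) ((z - ξ) + t)) := by
        rw [integral_const_mul, integral_add_left_eq_self
          (Y.indicator (fun y => ‖f (y + ξ)‖ ^ 2 * w y)) (z - ξ), integral_indicator hYm]
      rw [h3, ← integral_indicator measurableSet_ball]
      apply integral_mono
      · rw [integrable_indicator_iff measurableSet_ball]
        have hcon : Continuous fun t => ‖f (z + t)‖ ^ 2 := by fun_prop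
        exact (hcon.continuousOn.integrableOn_compact (isCompact_closedBall 0 r)).mono_set
          ball_subset_closedBall
      · apply Integrable.const_mul
        have h4 := (integrable_indicator_iff hYm).mpr (GG_int hR k hYm hYf hY hw hW c)
        exact h4.comp_add_left (z - ξ)
      · intro t
        by_cases ht : t ∈ ball (0 : Fin n → ℂ) r
        · obtain ⟨h5, h6⟩ := hsub z hz t ht
          have e1 : z - ξ + t = z + t - ξ := by abel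
          simp only [Set.indicator_of_mem ht]
          rw [e1, Set.indicator_of_mem h5, sub_add_cancel]
          have h7 : (0 : ℝ) ≤ ‖f (z + t)‖ ^ 2 := by positivity
          calc ‖f (z + t)‖ ^ 2 = ω⁻¹ * (‖f (z + t)‖ ^ 2 * ω) := by field_simp
            _ ≤ _ := by gcongr
        · rw [Set.indicator_of_notMem ht]
          apply mul_nonneg (by positivity)
          apply Set.indicator_nonneg
          intro y _
          exact mul_nonneg (by positivity) (hw0 y)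
    rw [le_div_iff₀ (by positivity)]
    have h8 := h1.trans h2
    rw [← div_eq_inv_mul, le_div_iff₀ hω] at h8
    linarith
  calc ∑ b, ‖f (x b)‖ ^ 2 ≤ ∑ _b : Ix n k, I / (ω * Vr) :=
        Finset.sum_le_sum fun b _ => key _ (hx b)
    _ = _ := by
        rw [Finset.sum_const, Finset.card_univ, card_Ix, nsmul_eq_mul]
        ring

lemma GG_posDef {R : ℝ} (hR : 0 < R) {k : ℕ} {ξ : Fin n → ℂ} {Y K : Set (Fin n → ℂ)}
    (hYm : MeasurableSet Y) (hYf : volume Y ≠ ⊤) (hY : ∀ y ∈ Y, ‖y + ξ‖ ≤ R)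
    {w : (Fin n → ℂ) → ℝ} (hw : Measurable w) {W : ℝ} (hW : ∀ z, |w z| ≤ W) (hw0 : ∀ z, 0 ≤ w z)
    {r ω : ℝ} (hr : 0 < r) (hω : 0 < ω)
    (hsub : ∀ z ∈ K, ∀ t ∈ ball (0 : Fin n → ℂ) r, z + t - ξ ∈ Y ∧ ω ≤ w (z + t - ξ))
    {x : Ix n k → (Fin n → ℂ)} (hx : ∀ j, x j ∈ K) (hne : (ev (e n R k) x).det ≠ 0) :
    (GG R k Y ξ w).PosDef := by
  have hEE : ((ev (e n R k) x)ᴴ * ev (e n R k) x).PosDef := by
    rw [← Gk_cnt]
    exact Gk_cnt_posDef hne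
  have hpsd := GG_psd hR k hYm hYf hY hw hW hw0
  refine Matrix.PosDef.of_dotProduct_mulVec_pos hpsd.1 ?_
  intro c hc
  have h1 : star c ⬝ᵥ (GG R k Y ξ w *ᵥ c) = qf (GG R k Y ξ w) c := rfl
  have h2 := hEE.dotProduct_mulVec_pos hc
  have h3 := low_bound hR hYm hYf hY hw hW hw0 hr hω hsub hx c
  have h4 : 0 < (qf ((ev (e n R k) x)ᴴ * ev (e n R k) x) c).re := (Complex.pos_iff.1 h2).1
  rw [h1, qf_GG hR k hYm hYf hY hw hW]
  rw [qf_GG hR k hYm hYf hY hw hW, Complex.ofReal_re] at h3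
  have hVr0 : 0 < (volume (ball (0 : Fin n → ℂ) r)).toReal :=
    ENNReal.toReal_pos (measure_ball_pos _ _ hr).ne' measure_ball_lt_top.ne
  have h5 : 0 < ∫ y in Y, ‖sm (e n R k) c (y + ξ)‖ ^ 2 * w y := by
    by_contra hcon
    push Not at hcon
    have h6 : (NN n k / (ω * (volume (ball (0 : Fin n → ℂ) r)).toReal)) *
        ∫ y in Y, ‖sm (e n R k) c (y + ξ)‖ ^ 2 * w y ≤ 0 :=
      mul_nonpos_of_nonneg_of_nonpos (by positivity) hcon
    linarith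
  rw [← Complex.ofReal_zero, Complex.real_lt_real]
  exact h5

/-- lower bound for the logarithm of the determinant -/
lemma log_GG_ge {R : ℝ} (hR : 0 < R) {k : ℕ} {ξ : Fin n → ℂ} {Y K : Set (Fin n → ℂ)}
    (hYm : MeasurableSet Y) (hYf : volume Y ≠ ⊤) (hY : ∀ y ∈ Y, ‖y + ξ‖ ≤ R)
    {w : (Fin n → ℂ) → ℝ} (hw : Measurable w) {W : ℝ} (hW : ∀ z, |w z| ≤ W) (hw0 : ∀ z, 0 ≤ w z)
    {r ω : ℝ} (hr : 0 < r) (hω : 0 < ω)
    (hsub : ∀ z ∈ K, ∀ t ∈ ball (0 : Fin n → ℂ) r, z + t - ξ ∈ Y ∧ ω ≤ w (z + t - ξ))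
    {x : Ix n k → (Fin n → ℂ)} (hx : ∀ j, x j ∈ K) (hne : (ev (e n R k) x).det ≠ 0) :
    2 * Real.log ‖(ev (e n R k) x).det‖ ≤ NN n k *
      (Real.log (NN n k) - Real.log ω - Real.log (volume (ball (0 : Fin n → ℂ) r)).toReal) +
      Real.log (GG R k Y ξ w).det.re := by
  have hpd := GG_posDef hR hYm hYf hY hw hW hw0 hr hω hsub hx hne
  have hEE : ((ev (e n R k) x)ᴴ * ev (e n R k) x).PosSemidef :=
    Matrix.posSemidef_conjTranspose_mul_self _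
  have hVr0 : 0 < (volume (ball (0 : Fin n → ℂ) r)).toReal :=
    ENNReal.toReal_pos (measure_ball_pos _ _ hr).ne' measure_ball_lt_top.ne
  have hN : (0 : ℝ) < NN n k := by exact_mod_cast NN_pos n k
  have hC : 0 < NN n k / (ω * (volume (ball (0 : Fin n → ℂ) r)).toReal) := by positivity
  have h1 := det_le_smul hpd hEE hC (low_bound hR hYm hYf hY hw hW hw0 hr hω hsub hx)
  have h2 : ((ev (e n R k) x)ᴴ * ev (e n R k) x).det.re = ‖(ev (e n R k) x).det‖ ^ 2 := by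
    rw [← Gk_cnt, Gk_cnt_det]
  have hM : 0 < ‖(ev (e n R k) x).det‖ := norm_pos_iff.mpr hne
  have hD := det_re_pos hpd
  rw [h2, card_Ix] at h1
  have h3 := Real.log_le_log (by positivity) h1
  rw [Real.log_pow, Real.log_mul (by positivity) hD.ne', Real.log_pow,
    Real.log_div hN.ne' (by positivity), Real.log_mul hω.ne' hVr0.ne'] at h3
  push_cast at h3
  linarith

/-- upper bound for the determinant -/
lemma log_GG_le {R : ℝ} (hR : 0 < R) {k : ℕ} {ξ : Fin n → ℂ} {Y K₃ : Set (Fin n → ℂ)}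
    (hYm : MeasurableSet Y) (hYf : volume Y ≠ ⊤) (hY : ∀ y ∈ Y, ‖y + ξ‖ ≤ R)
    (hYK : ∀ y ∈ Y, y + ξ ∈ K₃) (hpd : (GG R k Y ξ (fun _ => 1)).PosDef)
    {x : Ix n k → (Fin n → ℂ)} (hx : Fk (e n R k) K₃ x) (hYp : 0 < (volume Y).toReal) :
    Real.log (GG R k Y ξ (fun _ => 1)).det.re ≤ NN n k * Real.log (volume Y).toReal +
      2 * Real.log ‖(ev (e n R k) x).det‖ := by
  have h1 := det_le_of_form hpd.posSemidef hx (B := (volume Y).toReal) (by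
    intro c S hS hc
    rw [qf_GG hR k hYm hYf hY measurable_const (W := 1) (by simp), Complex.ofReal_re]
    calc ∫ y in Y, ‖sm (e n R k) c (y + ξ)‖ ^ 2 * 1 ≤ ∫ _y in Y, S ^ 2 := by
          apply setIntegral_mono_on (GG_int hR k hYm hYf hY measurable_const (W := 1) (by simp) c)
            (integrableOn_const hYf) hYm
          intro y hy
          rw [mul_one]
          have := hc _ (hYK y hy)
          gcongr
      _ = (volume Y).toReal * S ^ 2 := by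
          rw [setIntegral_const, smul_eq_mul]
          rfl)
  have hD := det_re_pos hpd
  have hM : 0 < ‖(ev (e n R k) x).det‖ := norm_pos_iff.mpr hx.ne
  have h3 := Real.log_le_log hD h1
  rw [Real.log_mul (by positivity) (by positivity), Real.log_pow, Real.log_pow, card_Ix] at h3
  push_cast at h3
  linarith

/-- `v` is `log max |h_i|` for finitely many polynomials of degree at most `m` -/
def Adm (m : ℕ) (v : (Fin n → ℂ) → ℝ) : Prop :=
  ∀ z, ∃ h, IsP m h ∧ Real.exp (v z) ≤ ‖h z‖ ∧ ∀ w, ‖h w‖ ≤ Real.exp (v w)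

/-- the truncated translated function -/
noncomputable def vi (Y : Set (Fin n → ℂ)) (v : (Fin n → ℂ) → ℝ) (ξ : Fin n → ℂ) :
    (Fin n → ℂ) → ℝ := Y.indicator (fun y => v (y + ξ))

/-- the weights -/
noncomputable def wj (Y : Set (Fin n → ℂ)) (v : (Fin n → ℂ) → ℝ) (ξ : Fin n → ℂ) (j : ℕ) :
    (Fin n → ℂ) → ℝ := fun y => Real.exp (-(2 * j) * vi Y v ξ y)

lemma wj_zero (Y : Set (Fin n → ℂ)) (v : (Fin n → ℂ) → ℝ) (ξ : Fin n → ℂ) :
    wj Y v ξ 0 = fun _ => 1 := by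
  funext y
  simp [wj]

lemma dominate {R : ℝ} (hR : 0 < R) {k k' j m : ℕ} (hk : k' + j * m ≤ k) {ξ : Fin n → ℂ}
    {Y : Set (Fin n → ℂ)} (hYm : MeasurableSet Y) (hYf : volume Y ≠ ⊤)
    (hY : ∀ y ∈ Y, ‖y + ξ‖ ≤ R) (hY0 : ∀ y ∈ Y, ‖y‖ ≤ R) {v : (Fin n → ℂ) → ℝ}
    (hadm : Adm m v) (hwm : Measurable (wj Y v ξ j)) {W : ℝ} (hW : ∀ z, |wj Y v ξ j z| ≤ W)
    {B B' : (Fin n → ℂ) → ℝ} (hB : Bg (volume.restrict Y) (mx R k' 0) (fun _ => 1) B)
    (hB' : Bg (volume.restrict Y) (mx R k ξ) (wj Y v ξ j) B') {y : Fin n → ℂ} (hy : y ∈ Y) :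
    B y ≤ B' y := by
  apply hB.compare hB' y y
  intro c
  obtain ⟨h, hh, hh1, hh2⟩ := hadm (y + ξ)
  set f := sm (e n R k') c with hf
  have hfP : IsP k' f := isP_sm R k' c
  have hg : IsP k (fun z => f (z + -ξ) * h z ^ j) :=
    ((hfP.translate (-ξ)).mul (hh.pow j)).mono hk
  obtain ⟨c', hc'⟩ := hg.coef hR
  have hval : ∀ z, sm (e n R k) c' (z + ξ) = f z * h (z + ξ) ^ j := by
    intro z
    rw [← hc', add_neg_cancel_right]
  refine ⟨c', ?_, ?_⟩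
  · rw [sm_mx, sm_mx, hval, add_zero, mul_one, norm_mul, norm_pow, mul_pow]
    have h1 : 1 ≤ (‖h (y + ξ)‖ ^ j) ^ 2 * wj Y v ξ j y := by
      have h2 : wj Y v ξ j y = ((Real.exp (v (y + ξ)) ^ j) ^ 2)⁻¹ := by
        simp only [wj, vi]
        rw [Set.indicator_of_mem hy, ← pow_mul, ← Real.exp_nat_mul, ← Real.exp_neg]
        congr 1
        push_cast
        ring
      rw [h2, ← div_eq_mul_inv, le_div_iff₀ (by positivity), one_mul]
      gcongr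
    have h3 : (0 : ℝ) ≤ ‖f y‖ ^ 2 := by positivity
    calc ‖sm (e n R k') c y‖ ^ 2 = ‖f y‖ ^ 2 * 1 := by rw [mul_one]
      _ ≤ ‖f y‖ ^ 2 * ((‖h (y + ξ)‖ ^ j) ^ 2 * wj Y v ξ j y) := by gcongr
      _ = _ := by ring
  · have e1 := qf_GG hR k hYm hYf hY hwm hW c'
    have e2 := qf_GG hR k' (ξ := 0) hYm hYf (fun y hy => by rw [add_zero]; exact hY0 y hy)
      (measurable_const (a := (1 : ℝ))) (W := 1) (by simp) c
    unfold GG at e1 e2
    rw [e1, e2, Complex.ofReal_re, Complex.ofReal_re]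
    apply setIntegral_mono_on (GG_int hR k hYm hYf hY hwm hW c')
      (GG_int hR k' hYm hYf (fun y hy => by rw [add_zero]; exact hY0 y hy)
        measurable_const (W := 1) (by simp) c) hYm
    intro z hz
    rw [hval, norm_mul, norm_pow, mul_pow, add_zero, mul_one]
    have h1 : (‖h (z + ξ)‖ ^ j) ^ 2 * wj Y v ξ j z ≤ 1 := by
      have h2 : wj Y v ξ j z = ((Real.exp (v (z + ξ)) ^ j) ^ 2)⁻¹ := by
        simp only [wj, vi]
        rw [Set.indicator_of_mem hz, ← pow_mul, ← Real.exp_nat_mul, ← Real.exp_neg]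
        congr 1
        push_cast
        ring
      rw [h2, ← div_eq_mul_inv, div_le_iff₀ (by positivity), one_mul]
      have := hh2 (z + ξ)
      gcongr
    have h3 : (0 : ℝ) ≤ ‖f z‖ ^ 2 := by positivity
    calc ‖f z‖ ^ 2 * (‖h (z + ξ)‖ ^ j) ^ 2 * wj Y v ξ j z =
          ‖f z‖ ^ 2 * ((‖h (z + ξ)‖ ^ j) ^ 2 * wj Y v ξ j z) := by ring
      _ ≤ ‖f z‖ ^ 2 * 1 := by gcongr
      _ = _ := mul_one _

end Pool.Agent.H940R3.VD
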