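import Pool.Agent.H940R3.VD.Chain

set_option autoImplicit false

open Matrix MeasureTheory Metric
open scoped ComplexOrder MatrixOrder Matrix.Norms.L2Operator

namespace Pool.Agent.H940R3.VD

open Pool.Agent.H805R2.Gram Pool.Agent.H805R2.Fek

variable {n : ℕ}

lemma vi_meas {Y : Set (Fin n → ℂ)} (hYm : MeasurableSet Y) {v : (Fin n → ℂ) → ℝ}
    (hv : Measurable v) (ξ : Fin n → ℂ) : Measurable (vi Y v ξ) := by
  unfold vi
  apply Measurable.indicator _ hYm
  exact hv.comp (measurable_id.add_const ξ)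

lemma vi_nonneg {Y : Set (Fin n → ℂ)} {v : (Fin n → ℂ) → ℝ} (hv : ∀ z, 0 ≤ v z)
    (ξ y : Fin n → ℂ) : 0 ≤ vi Y v ξ y := Set.indicator_nonneg (fun _ _ => hv _) y

lemma wj_le_one {Y : Set (Fin n → ℂ)} {v : (Fin n → ℂ) → ℝ} (hv : ∀ z, 0 ≤ v z)
    (ξ : Fin n → ℂ) (j : ℕ) (y : Fin n → ℂ) : |wj Y v ξ j y| ≤ 1 := by
  unfold wj
  rw [abs_of_pos (Real.exp_pos _)]
  apply Real.exp_le_one_iff.mpr
  have := vi_nonneg (Y := Y) hv ξ y
  have h2 : (0 : ℝ) ≤ 2 * j := by positivity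
  nlinarith

lemma wj_meas {Y : Set (Fin n → ℂ)} (hYm : MeasurableSet Y) {v : (Fin n → ℂ) → ℝ}
    (hv : Measurable v) (ξ : Fin n → ℂ) (j : ℕ) : Measurable (wj Y v ξ j) := by
  unfold wj
  have := vi_meas hYm hv ξ
  fun_prop

theorem chain {R : ℝ} (hR : 0 < R) {k m J : ℕ} (hJ : J * m ≤ k) {ξ : Fin n → ℂ}
    {Y K : Set (Fin n → ℂ)} (hYm : MeasurableSet Y) (hYf : volume Y ≠ ⊤)
    (hY : ∀ y ∈ Y, ‖y + ξ‖ ≤ R) (hY0 : ∀ y ∈ Y, ‖y‖ ≤ R) {v : (Fin n → ℂ) → ℝ}
    (hadm : Adm m v) (hvm : Measurable v) (hv0 : ∀ z, 0 ≤ v z) {V : ℝ}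
    (hV : ∀ y ∈ Y, v (y + ξ) ≤ V) (hV0 : 0 ≤ V)
    {r ω : ℝ} (hr : 0 < r)
    (hsub : ∀ z ∈ K, ∀ t ∈ ball (0 : Fin n → ℂ) r, z + t - ξ ∈ Y ∧ v (z + t) ≤ ω)
    {x : Ix n k → (Fin n → ℂ)} (hx : ∀ j, x j ∈ K) (hne : (ev (e n R k) x).det ≠ 0)
    {Rf : ℕ → (Fin n → ℂ) → ℝ}
    (hRf : ∀ k', Bg (volume.restrict Y) (mx R k' 0) (fun _ => 1) (Rf k'))
    {K₃ : Set (Fin n → ℂ)} (hYK : ∀ y ∈ Y, y + ξ ∈ K₃) {x₃ : Ix n k → (Fin n → ℂ)}
    (hx₃ : Fk (e n R k) K₃ x₃) (hYp : 0 < (volume Y).toReal) :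
    ∑ j ∈ Finset.range J, ∫ y in Y, vi Y v ξ y * Rf (k - (j + 1) * m) y ≤
      Real.log ‖(ev (e n R k) x₃).det‖ - Real.log ‖(ev (e n R k) x).det‖ +
      NN n k / 2 * (Real.log (volume Y).toReal + Real.log (NN n k) -
        Real.log (volume (ball (0 : Fin n → ℂ) r)).toReal) + J * ω * NN n k := by
  have : IsFiniteMeasure (volume.restrict Y) := ⟨by simpa using hYf.lt_top⟩
  have hvim := vi_meas hYm hvm ξ
  have hvib : ∀ y, |vi Y v ξ y| ≤ V := by
    intro y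
    rw [abs_of_nonneg (vi_nonneg hv0 ξ y)]
    unfold vi
    by_cases hy : y ∈ Y
    · rw [Set.indicator_of_mem hy]; exact hV y hy
    · rw [Set.indicator_of_notMem hy]; exact hV0
  have hwpos : ∀ j y, 0 ≤ wj Y v ξ j y := fun j y => (Real.exp_pos _).le
  have hωj : ∀ j : ℕ, ∀ z ∈ K, ∀ t ∈ ball (0 : Fin n → ℂ) r, z + t - ξ ∈ Y ∧
      Real.exp (-(2 * j) * ω) ≤ wj Y v ξ j (z + t - ξ) := by
    intro j z hz t ht
    obtain ⟨h1, h2⟩ := hsub z hz t ht
    refine ⟨h1, ?_⟩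
    unfold wj vi
    rw [Set.indicator_of_mem h1, sub_add_cancel]
    apply Real.exp_le_exp.mpr
    have h3 : (0 : ℝ) ≤ 2 * j := by positivity
    nlinarith
  have hpd : ∀ j, (GG R k Y ξ (wj Y v ξ j)).PosDef := fun j =>
    GG_posDef hR hYm hYf hY (wj_meas hYm hvm ξ j) (wj_le_one hv0 ξ j) (hwpos j) hr
      (Real.exp_pos _) (hωj j) hx hne
  set L : ℕ → ℝ := fun j => Real.log (GG R k Y ξ (wj Y v ξ j)).det.re with hL
  have hstep : ∀ j ∈ Finset.range J, 2 * ∫ y in Y, vi Y v ξ y * Rf (k - (j + 1) * m) y ≤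
      L j - L (j + 1) := by
    intro j hj
    have hjJ := Finset.mem_range.mp hj
    have hle : (j + 1) * m ≤ k := (Nat.mul_le_mul_right m (by omega)).trans hJ
    obtain ⟨B, hB, hB2⟩ := bg_exists (volume.restrict Y) (mx R k ξ) (mx_meas R k ξ)
      (mx_bd hR k hYm hY) (wj Y v ξ (j + 1)) (wj_meas hYm hvm ξ _) 1 (wj_le_one hv0 ξ _)
      (hwpos _) (hpd (j + 1)) (vi Y v ξ) hvim V hvib
    have e1 : (fun z => wj Y v ξ (j + 1) z * Real.exp (2 * vi Y v ξ z)) = wj Y v ξ j := by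
      funext z
      unfold wj
      rw [← Real.exp_add]
      congr 1
      push_cast
      ring
    rw [e1] at hB2
    refine le_trans ?_ hB2
    apply mul_le_mul_of_nonneg_left _ (by norm_num)
    have hi1 : Integrable (fun y => vi Y v ξ y * B y) (volume.restrict Y) :=
      hB.integrable.bdd_mul hvim.aestronglyMeasurable (c := V)
        (Filter.Eventually.of_forall fun z => by rw [Real.norm_eq_abs]; exact hvib z)
    have hi2 : Integrable (fun y => vi Y v ξ y * Rf (k - (j + 1) * m) y) (volume.restrict Y) :=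
      (hRf _).integrable.bdd_mul hvim.aestronglyMeasurable (c := V)
        (Filter.Eventually.of_forall fun z => by rw [Real.norm_eq_abs]; exact hvib z)
    apply setIntegral_mono_on hi2 hi1 hYm
    intro y hy
    apply mul_le_mul_of_nonneg_left _ (vi_nonneg hv0 ξ y)
    exact dominate hR (by omega) hYm hYf hY hY0 hadm (wj_meas hYm hvm ξ _)
      (wj_le_one hv0 ξ _) (hRf _) hB hy
  have hsum := Finset.sum_le_sum hstep
  rw [Finset.sum_range_sub', ← Finset.mul_sum] at hsum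
  have hup := log_GG_le hR hYm hYf hY hYK (by rw [← wj_zero Y v ξ]; exact hpd 0) hx₃ hYp
  have hlo := log_GG_ge hR hYm hYf hY (wj_meas hYm hvm ξ J) (wj_le_one hv0 ξ J) (hwpos J) hr
    (Real.exp_pos _) (hωj J) hx hne
  have hL0 : L 0 = Real.log (GG R k Y ξ (fun _ => 1)).det.re := by rw [hL]; simp only; rw [wj_zero]
  rw [← hL0] at hup
  rw [Real.log_exp] at hlo
  have hlo' : 2 * Real.log ‖(ev (e n R k) x).det‖ ≤ NN n k *
      (Real.log (NN n k) - -(2 * J) * ω - Real.log (volume (ball (0 : Fin n → ℂ) r)).toReal) +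
      L J := hlo
  linarith

theorem ustep {R : ℝ} (hR : 0 < R) {k : ℕ} {ξ : Fin n → ℂ}
    {Y K : Set (Fin n → ℂ)} (hYm : MeasurableSet Y) (hYf : volume Y ≠ ⊤)
    (hY : ∀ y ∈ Y, ‖y + ξ‖ ≤ R) (hY0 : ∀ y ∈ Y, ‖y‖ ≤ R) {U : (Fin n → ℂ) → ℝ}
    (hUm : Measurable U) (hU0 : ∀ z, 0 ≤ U z) {Cb : ℝ} (hCb : ∀ z, U z ≤ Cb)
    {r : ℝ} (hr : 0 < r)
    (hsub : ∀ z ∈ K, ∀ t ∈ ball (0 : Fin n → ℂ) r, z + t - ξ ∈ Y)
    {x : Ix n k → (Fin n → ℂ)} (hx : ∀ j, x j ∈ K) (hne : (ev (e n R k) x).det ≠ 0)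
    {Rf : (Fin n → ℂ) → ℝ}
    (hRf : Bg (volume.restrict Y) (mx R k 0) (fun _ => 1) Rf)
    (hYp : 0 < (volume Y).toReal) {K' : Set (Fin n → ℂ)} (hK' : K' ⊆ closedBall 0 R)
    {μ : Measure (Fin n → ℂ)} [IsFiniteMeasure μ] (hμ : μ K'ᶜ = 0) (hpdμ : (Gk μ R k).PosDef)
    (hUb : ∀ f, IsP k f → ∀ y ∈ Y, ‖f (y + ξ)‖ ^ 2 ≤ Real.exp (2 * k * U (y + ξ)) *
      ∫ z, ‖f z‖ ^ 2 ∂μ) :
    2 * Real.log ‖(ev (e n R k) x).det‖ - Real.log (Gk μ R k).det.re ≤
      NN n k * (Real.log (volume Y).toReal + Real.log (NN n k) -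
        Real.log (volume (ball (0 : Fin n → ℂ) r)).toReal) +
      2 * k * ∫ y in Y, vi Y U ξ y * Rf y := by
  have : IsFiniteMeasure (volume.restrict Y) := ⟨by simpa using hYf.lt_top⟩
  have hCb0 : 0 ≤ Cb := (hU0 0).trans (hCb 0)
  have hvim := vi_meas hYm hUm ξ
  have hvib : ∀ y, |vi Y U ξ y| ≤ Cb := by
    intro y
    rw [abs_of_nonneg (vi_nonneg hU0 ξ y)]
    unfold vi
    by_cases hy : y ∈ Y
    · rw [Set.indicator_of_mem hy]; exact hCb _
    · rw [Set.indicator_of_notMem hy]; exact hCb0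
  have hsub1 : ∀ z ∈ K, ∀ t ∈ ball (0 : Fin n → ℂ) r, z + t - ξ ∈ Y ∧
      (1 : ℝ) ≤ (fun _ : Fin n → ℂ => (1 : ℝ)) (z + t - ξ) := fun z hz t ht => ⟨hsub z hz t ht, le_rfl⟩
  have hpd : (GG R k Y ξ (fun _ => 1)).PosDef :=
    GG_posDef hR hYm hYf hY measurable_const (W := 1) (by simp) (by simp) hr one_pos hsub1 hx hne
  set v : (Fin n → ℂ) → ℝ := fun y => -(k * vi Y U ξ y) with hv
  have hvm : Measurable v := by fun_prop
  have hvb : ∀ y, |v y| ≤ k * Cb := by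
    intro y
    rw [hv]
    simp only
    rw [abs_neg, abs_mul, Nat.abs_cast]
    have := hvib y
    gcongr
  obtain ⟨B, hB, hB2⟩ := bg_exists (volume.restrict Y) (mx R k ξ) (mx_meas R k ξ)
      (mx_bd hR k hYm hY) (fun _ => 1) measurable_const 1 (by simp) (by simp) hpd v hvm _ hvb
  set w' : (Fin n → ℂ) → ℝ := fun z => 1 * Real.exp (2 * v z) with hw'
  have hw'm : Measurable w' := by fun_prop
  have hw'le : ∀ z, |w' z| ≤ 1 := by
    intro z
    rw [hw']
    simp only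
    rw [one_mul, abs_of_pos (Real.exp_pos _)]
    apply Real.exp_le_one_iff.mpr
    rw [hv]
    simp only
    have h1 := vi_nonneg (Y := Y) hU0 ξ z
    have h2 : (0 : ℝ) ≤ k * vi Y U ξ z := by positivity
    linarith
  have hpsd' : (GG R k Y ξ w').PosSemidef :=
    GG_psd hR k hYm hYf hY hw'm hw'le (fun z => by rw [hw']; positivity)
  have hdet := det_le_smul hpdμ hpsd' hYp (by
    intro c
    rw [qf_GG hR k hYm hYf hY hw'm hw'le, Complex.ofReal_re, qf_Gk hR hK' hμ]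
    set I := ∫ z, ‖sm (e n R k) c z‖ ^ 2 ∂μ with hI
    calc ∫ y in Y, ‖sm (e n R k) c (y + ξ)‖ ^ 2 * w' y ≤ ∫ _y in Y, I := by
          apply setIntegral_mono_on (GG_int hR k hYm hYf hY hw'm hw'le c)
            (integrableOn_const hYf) hYm
          intro y hy
          have h1 := hUb _ (isP_sm R k c) y hy
          have h2 : w' y = (Real.exp (2 * k * U (y + ξ)))⁻¹ := by
            rw [hw']
            simp only [hv, vi]
            rw [Set.indicator_of_mem hy, one_mul, ← Real.exp_neg]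
            congr 1
            ring
          rw [h2, ← div_eq_mul_inv, div_le_iff₀ (Real.exp_pos _)]
          linarith
      _ = (volume Y).toReal * I := by
          rw [setIntegral_const, smul_eq_mul]
          rfl)
  -- the comparison of Bergman functions
  have hBR : ∀ y, B y ≤ Rf y := by
    intro y
    apply hB.compare hRf y y
    intro c
    have hf : IsP k (fun z => sm (e n R k) c (z + ξ)) := (isP_sm R k c).translate ξ
    obtain ⟨c', hc'⟩ := hf.coef hR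
    refine ⟨c', ?_, ?_⟩
    · rw [sm_mx, sm_mx, add_zero, ← hc']
    · have e1 := qf_GG hR k hYm hYf hY (measurable_const (a := (1 : ℝ))) (W := 1) (by simp) c
      have e2 := qf_GG hR k (ξ := 0) hYm hYf (fun y hy => by rw [add_zero]; exact hY0 y hy)
        (measurable_const (a := (1 : ℝ))) (W := 1) (by simp) c'
      unfold GG at e1 e2
      rw [e1, e2, Complex.ofReal_re, Complex.ofReal_re]
      apply le_of_eq
      congr 1
      funext z
      rw [add_zero, ← hc']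
  have hpd' : (0 : ℝ) < (GG R k Y ξ w').det.re := by
    apply det_re_pos
    -- positive weight bounded below
    refine GG_posDef (K := K) hR hYm hYf hY hw'm hw'le (fun z => by rw [hw']; positivity) hr
      (Real.exp_pos (-(2 * (k * Cb)))) ?_ hx hne
    intro z hz t ht
    refine ⟨hsub z hz t ht, ?_⟩
    rw [hw']
    simp only
    rw [one_mul]
    apply Real.exp_le_exp.mpr
    have := (abs_le.mp (hvb (z + t - ξ))).1
    linarith
  have hDμ := det_re_pos hpdμ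
  have hlogdet := Real.log_le_log hpd' hdet
  rw [Real.log_mul (by positivity) hDμ.ne', Real.log_pow, card_Ix] at hlogdet
  have hlo := log_GG_ge hR hYm hYf hY measurable_const (W := 1) (by simp) (by simp) hr one_pos
    hsub1 hx hne
  rw [Real.log_one] at hlo
  have hint : ∫ y in Y, v y * B y = -(k * ∫ y in Y, vi Y U ξ y * B y) := by
    rw [← integral_const_mul, ← integral_neg]
    congr 1
    funext y
    rw [hv]
    ring
  have hi1 : Integrable (fun y => vi Y U ξ y * B y) (volume.restrict Y) :=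
    hB.integrable.bdd_mul hvim.aestronglyMeasurable (c := Cb)
      (Filter.Eventually.of_forall fun z => by rw [Real.norm_eq_abs]; exact hvib z)
  have hi2 : Integrable (fun y => vi Y U ξ y * Rf y) (volume.restrict Y) :=
    hRf.integrable.bdd_mul hvim.aestronglyMeasurable (c := Cb)
      (Filter.Eventually.of_forall fun z => by rw [Real.norm_eq_abs]; exact hvib z)
  have hmono : ∫ y in Y, vi Y U ξ y * B y ≤ ∫ y in Y, vi Y U ξ y * Rf y := by
    apply integral_mono hi1 hi2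
    intro y
    exact mul_le_mul_of_nonneg_left (hBR y) (vi_nonneg hU0 ξ y)
  have hB2' : 2 * ∫ y in Y, v y * B y ≤ Real.log (GG R k Y ξ w').det.re -
      Real.log (GG R k Y ξ (fun _ => 1)).det.re := hB2
  rw [hint] at hB2'
  have hk0 : (0 : ℝ) ≤ k := Nat.cast_nonneg k
  have h10 : (k : ℝ) * ∫ y in Y, vi Y U ξ y * B y ≤ k * ∫ y in Y, vi Y U ξ y * Rf y := by gcongr
  nlinarith

end Pool.Agent.H940R3.VD
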