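import Pool.Agent.H940R3.VD.Andr

set_option autoImplicit false

open Matrix MeasureTheory Metric Filter Topology
open scoped ComplexOrder MatrixOrder Matrix.Norms.L2Operator

namespace Pool.Agent.H940R3.VD

open Pool.Agent.H805R2.Gram Pool.Agent.H805R2.Fek

variable {n : ℕ}

lemma lk_le (n k : ℕ) : lk n k ≤ k * NN n k := by
  rw [lk_eq]
  have h2 : (SS n k : ℝ) * (n + 1) = k * NN n k := by exact_mod_cast SS_mul n k
  have h3 : (0 : ℝ) ≤ SS n k := Nat.cast_nonneg _
  nlinarith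

lemma le_lk {n : ℕ} (hn : 1 ≤ n) (k : ℕ) : (k : ℝ) * NN n k ≤ 2 * lk n k := by
  rw [lk_eq]
  have h2 : (SS n k : ℝ) * (n + 1) = k * NN n k := by exact_mod_cast SS_mul n k
  have h3 : (0 : ℝ) ≤ SS n k := Nat.cast_nonneg _
  have h4 : (1 : ℝ) ≤ n := by exact_mod_cast hn
  nlinarith

lemma lk_pos {n : ℕ} (hn : 1 ≤ n) {k : ℕ} (hk : 1 ≤ k) : 0 < lk n k := by
  have h1 := le_lk hn k
  have h2 : (1 : ℝ) ≤ k := by exact_mod_cast hk
  have h3 : (1 : ℝ) ≤ NN n k := by exact_mod_cast NN_pos n k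
  nlinarith

lemma Zk_le {K : Set (Fin n → ℂ)} (hKne : K.Nonempty) (hK : IsCompact K)
    {μ : Measure (Fin n → ℂ)} [IsFiniteMeasure μ] (hμ : μ Kᶜ = 0) (k : ℕ) :
    Zk μ k ≤ maxVdm K k ^ 2 * μ.real Set.univ ^ NN n k := by
  obtain ⟨x, hx, hmax⟩ := exists_fek hK hKne 1 k
  have hM := maxVdm_eq one_pos hx hmax
  unfold Zk
  have hae : ∀ᵐ y ∂(Measure.pi fun _ : Ix n k => μ), ∀ j, y j ∈ K := by
    have h1 : ∀ _j : Ix n k, ∀ᵐ z ∂μ, z ∈ K := by
      intro _
      rw [ae_iff]
      exact hμ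
    exact Measure.ae_pi_le_pi (Filter.eventually_pi h1)
  calc ∫ y, ‖vdm n k y‖ ^ 2 ∂(Measure.pi fun _ : Ix n k => μ)
      ≤ ∫ _y, maxVdm K k ^ 2 ∂(Measure.pi fun _ : Ix n k => μ) := by
        apply integral_mono_of_nonneg
        · exact Filter.Eventually.of_forall fun y => by positivity
        · exact integrable_const _
        · filter_upwards [hae] with y hy
          have h2 := hmax y hy
          have h3 : ‖vdm n k y‖ ≤ maxVdm K k := by
            rw [hM, vdm_eq one_pos]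
            gcongr
          gcongr
    _ = maxVdm K k ^ 2 * μ.real Set.univ ^ NN n k := by
        rw [integral_const, smul_eq_mul, mul_comm]
        congr 1
        simp [Measure.real, Measure.pi_univ, card_Ix]

lemma tendsto_of_exp {a b : ℕ → ℝ} {δ : ℝ} (ha : Tendsto a atTop (𝓝 δ)) (ha0 : ∀ k, 0 ≤ a k)
    (h1 : ∀ τ : ℝ, 0 < τ → ∀ᶠ k in atTop, a k * Real.exp (-τ) ≤ b k)
    (h2 : ∀ τ : ℝ, 0 < τ → ∀ᶠ k in atTop, b k ≤ a k * Real.exp τ) : Tendsto b atTop (𝓝 δ) := by
  have hδ : 0 ≤ δ := ge_of_tendsto' ha ha0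
  rw [tendsto_order]
  constructor
  · intro c hc
    have hcont : Tendsto (fun τ : ℝ => δ * Real.exp (-τ)) (𝓝[>] 0) (𝓝 (δ * Real.exp (-0))) := by
      apply Tendsto.mono_left _ nhdsWithin_le_nhds
      have : Continuous fun τ : ℝ => δ * Real.exp (-τ) := by fun_prop
      exact this.tendsto 0
    rw [neg_zero, Real.exp_zero, mul_one] at hcont
    obtain ⟨τ, hτ1, hτ2⟩ := ((hcont.eventually_const_lt hc).and self_mem_nhdsWithin).exists
    have hτ0 : 0 < τ := hτ2
    filter_upwards [h1 τ hτ0, (ha.mul_const (Real.exp (-τ))).eventually_const_lt hτ1] with k hk1 hk2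
    linarith
  · intro c hc
    have hcont : Tendsto (fun τ : ℝ => δ * Real.exp τ) (𝓝[>] 0) (𝓝 (δ * Real.exp 0)) := by
      apply Tendsto.mono_left _ nhdsWithin_le_nhds
      have : Continuous fun τ : ℝ => δ * Real.exp τ := by fun_prop
      exact this.tendsto 0
    rw [Real.exp_zero, mul_one] at hcont
    obtain ⟨τ, hτ1, hτ2⟩ := ((hcont.eventually_lt_const hc).and self_mem_nhdsWithin).exists
    have hτ0 : 0 < τ := hτ2
    filter_upwards [h2 τ hτ0, (ha.mul_const (Real.exp τ)).eventually_lt_const hτ1] with k hk1 hk2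
    linarith

lemma maxVdm_nonneg {K : Set (Fin n → ℂ)} (k : ℕ) : 0 ≤ maxVdm K k :=
  Real.iSup_nonneg fun _ => norm_nonneg _

lemma Zk_nonneg (μ : Measure (Fin n → ℂ)) (k : ℕ) : 0 ≤ Zk μ k :=
  integral_nonneg fun _ => by positivity

/-- the trivial upper bound -/
lemma upper (hn : 1 ≤ n) {K : Set (Fin n → ℂ)} (hKne : K.Nonempty) (hK : IsCompact K)
    {μ : Measure (Fin n → ℂ)} [IsFiniteMeasure μ] (hμ : μ Kᶜ = 0) {τ : ℝ} (hτ : 0 < τ) :
    ∀ᶠ k : ℕ in atTop, Zk μ k ^ (1 / (2 * lk n k)) ≤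
      maxVdm K k ^ (1 / lk n k) * Real.exp τ := by
  set B := μ.real Set.univ + 1 with hB
  have hμ0 : 0 ≤ μ.real Set.univ := measureReal_nonneg
  have hB1 : 1 ≤ B := by linarith
  have e1 : ∀ᶠ k : ℕ in atTop, Real.log B / τ ≤ k :=
    tendsto_natCast_atTop_atTop.eventually_ge_atTop _
  filter_upwards [e1, eventually_ge_atTop 1] with k hk1 hk2
  have hl := lk_pos hn hk2
  have h1 := Zk_le hKne hK hμ k
  have h2 : Zk μ k ≤ maxVdm K k ^ 2 * B ^ NN n k := by
    refine h1.trans ?_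
    have := maxVdm_nonneg (K := K) k
    gcongr
    linarith
  have hk0 : (1 : ℝ) ≤ k := by exact_mod_cast hk2
  calc Zk μ k ^ (1 / (2 * lk n k)) ≤ (maxVdm K k ^ 2 * B ^ NN n k) ^ (1 / (2 * lk n k)) :=
        Real.rpow_le_rpow (Zk_nonneg μ k) h2 (by positivity)
    _ = maxVdm K k ^ (1 / lk n k) * (B ^ NN n k) ^ (1 / (2 * lk n k)) := by
        rw [Real.mul_rpow (by positivity) (by positivity), ← Real.rpow_natCast (maxVdm K k) 2,
          ← Real.rpow_mul (maxVdm_nonneg k)]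
        congr 2
        push_cast
        field_simp
    _ ≤ maxVdm K k ^ (1 / lk n k) * Real.exp τ := by
        apply mul_le_mul_of_nonneg_left _ (Real.rpow_nonneg (maxVdm_nonneg k) _)
        rw [← Real.rpow_natCast B, ← Real.rpow_mul (by positivity),
          Real.rpow_def_of_pos (by positivity)]
        apply Real.exp_le_exp.mpr
        rw [mul_one_div, ← mul_div_assoc, div_le_iff₀ (by positivity)]
        rw [div_le_iff₀ hτ] at hk1
        have h5 := le_lk hn k
        have h6 : (0 : ℝ) ≤ NN n k := Nat.cast_nonneg _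
        have h7 : Real.log B * NN n k ≤ (k * τ) * NN n k := by gcongr
        nlinarith

/-- condition (Z) follows from smallness of `y_k` -/
theorem condZ_of (hn : 1 ≤ n) {R : ℝ} (hR : 0 < R) {K : Set (Fin n → ℂ)} (hKne : K.Nonempty)
    (hKc : IsCompact K) (hK : K ⊆ closedBall 0 R)
    {μ : Measure (Fin n → ℂ)} [IsFiniteMeasure μ] (hμ : μ Kᶜ = 0) {δ : ℝ}
    (hδ : Tendsto (fun k => maxVdm K k ^ (1 / lk n k)) atTop (𝓝 δ))
    (H : ∀ τ : ℝ, 0 < τ → ∀ᶠ k : ℕ in atTop, ∃ x : Ix n k → (Fin n → ℂ), Fk (e n R k) K x ∧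
      (Gk μ R k).PosDef ∧ Real.log (‖(ev (e n R k) x).det‖ ^ 2 / (Gk μ R k).det.re) ≤
        τ * (k * NN n k)) : CondZ μ δ := by
  apply tendsto_of_exp hδ (fun k => Real.rpow_nonneg (maxVdm_nonneg k) _)
  · intro τ hτ
    filter_upwards [H τ hτ, eventually_ge_atTop 1] with k ⟨x, hx, hpd, hy⟩ hk
    have hl := lk_pos hn hk
    have hD := det_re_pos hpd
    have hM : 0 < ‖(ev (e n R k) x).det‖ := norm_pos_iff.mpr hx.ne
    have hmv := maxVdm_eq hR hx.mem hx.max
    have hZ := Zk_eq hR hK hμ k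
    have hmvp : 0 < maxVdm K k := by rw [hmv]; positivity
    have hfac : (1 : ℝ) ≤ (NN n k).factorial := by
      exact_mod_cast Nat.one_le_iff_ne_zero.mpr (Nat.factorial_ne_zero _)
    have h1 : maxVdm K k ^ 2 * Real.exp (-(τ * (k * NN n k))) ≤ Zk μ k := by
      rw [hZ, hmv, mul_pow]
      have h2 : ‖(ev (e n R k) x).det‖ ^ 2 * Real.exp (-(τ * (k * NN n k))) ≤
          (Gk μ R k).det.re := by
        have h3 : ‖(ev (e n R k) x).det‖ ^ 2 / (Gk μ R k).det.re ≤ Real.exp (τ * (k * NN n k)) :=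
          (Real.log_le_iff_le_exp (by positivity)).mp hy
        rw [div_le_iff₀ hD] at h3
        rw [Real.exp_neg, ← div_eq_mul_inv, div_le_iff₀ (Real.exp_pos _)]
        linarith
      calc (R ^ (n * SS n k)) ^ 2 * ‖(ev (e n R k) x).det‖ ^ 2 * Real.exp (-(τ * (k * NN n k)))
          = (R ^ (n * SS n k)) ^ 2 *
            (1 * (‖(ev (e n R k) x).det‖ ^ 2 * Real.exp (-(τ * (k * NN n k))))) := by ring
        _ ≤ _ := by gcongr
    calc maxVdm K k ^ (1 / lk n k) * Real.exp (-τ)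
        ≤ (maxVdm K k ^ 2 * Real.exp (-(τ * (k * NN n k)))) ^ (1 / (2 * lk n k)) := by
          rw [Real.mul_rpow (by positivity) (Real.exp_pos _).le, ← Real.rpow_natCast (maxVdm K k) 2,
            ← Real.rpow_mul (maxVdm_nonneg k), ← Real.exp_mul]
          have h4 : ((2 : ℕ) : ℝ) * (1 / (2 * lk n k)) = 1 / lk n k := by
            push_cast
            field_simp
          rw [h4]
          apply mul_le_mul_of_nonneg_left _ (Real.rpow_nonneg (maxVdm_nonneg k) _)
          apply Real.exp_le_exp.mpr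
          rw [mul_one_div, le_div_iff₀ (by positivity)]
          have h5 := le_lk hn k
          nlinarith
      _ ≤ Zk μ k ^ (1 / (2 * lk n k)) := Real.rpow_le_rpow (by positivity) h1 (by positivity)
  · intro τ hτ
    exact upper hn hKne hKc hμ hτ

theorem condZ_zero (hn : 1 ≤ n) {K : Set (Fin n → ℂ)} (hKne : K.Nonempty)
    (hKc : IsCompact K)
    {μ : Measure (Fin n → ℂ)} [IsFiniteMeasure μ] (hμ : μ Kᶜ = 0)
    (hδ : Tendsto (fun k => maxVdm K k ^ (1 / lk n k)) atTop (𝓝 0)) : CondZ μ 0 := by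
  unfold CondZ
  have h1 := upper hn hKne hKc hμ one_pos
  have h2 : Tendsto (fun k => maxVdm K k ^ (1 / lk n k) * Real.exp 1) atTop (𝓝 0) := by
    simpa using hδ.mul_const (Real.exp 1)
  exact squeeze_zero' (Filter.Eventually.of_forall fun k => Real.rpow_nonneg (Zk_nonneg μ k) _)
    h1 h2

/-- condition (Z) gives smallness of `y_k` -/
theorem of_condZ (hn : 1 ≤ n) {R : ℝ} (hR : 0 < R) {K : Set (Fin n → ℂ)} (hKne : K.Nonempty)
    (hKc : IsCompact K) (hK : K ⊆ closedBall 0 R)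
    {μ : Measure (Fin n → ℂ)} [IsFiniteMeasure μ] (hμ : μ Kᶜ = 0) {δ : ℝ} (hδ0 : 0 < δ)
    (hδ : Tendsto (fun k => maxVdm K k ^ (1 / lk n k)) atTop (𝓝 δ)) (hZ : CondZ μ δ)
    {τ : ℝ} (hτ : 0 < τ) : ∀ᶠ k : ℕ in atTop, ∃ x : Ix n k → (Fin n → ℂ), Fk (e n R k) K x ∧
      (Gk μ R k).PosDef ∧ Real.log (‖(ev (e n R k) x).det‖ ^ 2 / (Gk μ R k).det.re) ≤
        τ * (k * NN n k) := by
  have hlog1 := hδ.log hδ0.ne'
  have hlog2 := Filter.Tendsto.log hZ hδ0.ne'
  have hsub := hlog1.sub hlog2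
  rw [sub_self] at hsub
  have e1 : ∀ᶠ k in atTop, Real.log (maxVdm K k ^ (1 / lk n k)) -
      Real.log (Zk μ k ^ (1 / (2 * lk n k))) < τ / 4 :=
    hsub.eventually_lt_const (by positivity)
  have e2 := hδ.eventually_const_lt hδ0
  have e3 := Filter.Tendsto.eventually_const_lt hδ0 hZ
  have e4 := log_NN n (C := 0) le_rfl (τ := τ / 2) (by positivity)
  filter_upwards [e1, e2, e3, e4, eventually_ge_atTop 1] with k h1 h2 h3 h4 hk
  have hl := lk_pos hn hk
  obtain ⟨x, hx, hmax⟩ := exists_fek hKc hKne R k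
  have hmv := maxVdm_eq hR hx hmax
  have hmvp : 0 < maxVdm K k := by
    rcases (maxVdm_nonneg (K := K) k).eq_or_lt with h | h
    · rw [← h, Real.zero_rpow (by positivity)] at h2
      exact absurd h2 (lt_irrefl 0)
    · exact h
  have hZp : 0 < Zk μ k := by
    rcases (Zk_nonneg μ k).eq_or_lt with h | h
    · rw [← h, Real.zero_rpow (by positivity)] at h3
      exact absurd h3 (lt_irrefl 0)
    · exact h
  have hM : 0 < ‖(ev (e n R k) x).det‖ := by
    rw [hmv] at hmvp
    exact (mul_pos_iff_of_pos_left (by positivity)).mp hmvp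
  have hZe := Zk_eq hR hK hμ k
  have hpsd := Gk_psd hR hK hμ k
  have hD : 0 < (Gk μ R k).det.re := by
    rcases (det_re_nonneg hpsd).eq_or_lt with h | h
    · rw [hZe, ← h, mul_zero, mul_zero] at hZp
      exact absurd hZp (lt_irrefl 0)
    · exact h
  refine ⟨x, ⟨hx, hmax, norm_pos_iff.mp hM⟩, ?_, ?_⟩
  · rw [hpsd.posDef_iff_det_ne_zero]
    intro h
    rw [h] at hD
    simp at hD
  · rw [Real.log_rpow hmvp, Real.log_rpow hZp] at h1
    have h5 : 2 * Real.log (maxVdm K k) - Real.log (Zk μ k) ≤ τ / 2 * lk n k := by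
      have h6 : (1 / lk n k * Real.log (maxVdm K k) - 1 / (2 * lk n k) * Real.log (Zk μ k)) *
          (2 * lk n k) ≤ τ / 4 * (2 * lk n k) := by gcongr
      have h7 : (1 / lk n k * Real.log (maxVdm K k) - 1 / (2 * lk n k) * Real.log (Zk μ k)) *
          (2 * lk n k) = 2 * Real.log (maxVdm K k) - Real.log (Zk μ k) := by
        field_simp
      rw [h7] at h6
      linarith
    have hfac : (0 : ℝ) < (NN n k).factorial := by exact_mod_cast Nat.factorial_pos _
    have h8 : Real.log (Zk μ k) = 2 * Real.log (R ^ (n * SS n k)) +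
        (Real.log (NN n k).factorial + Real.log (Gk μ R k).det.re) := by
      rw [hZe, Real.log_mul (by positivity) (by positivity), Real.log_mul hfac.ne' hD.ne',
        Real.log_pow]
      push_cast
      ring
    have h9 : Real.log (maxVdm K k) = Real.log (R ^ (n * SS n k)) +
        Real.log ‖(ev (e n R k) x).det‖ := by
      rw [hmv, Real.log_mul (by positivity) hM.ne']
    have h10 : Real.log (NN n k).factorial ≤ NN n k * (τ / 2 * k) := by
      calc Real.log (NN n k).factorial ≤ Real.log ((NN n k : ℝ) ^ NN n k) := by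
            apply Real.log_le_log hfac
            exact_mod_cast Nat.factorial_le_pow (NN n k)
        _ = NN n k * Real.log (NN n k) := Real.log_pow _ _
        _ ≤ _ := by
            rw [zero_add] at h4
            gcongr
    rw [Real.log_div (by positivity) hD.ne', Real.log_pow]
    have h11 := lk_le n k
    push_cast
    have h12 : τ / 2 * lk n k ≤ τ / 2 * (k * NN n k) := by gcongr
    nlinarith

end Pool.Agent.H940R3.VD
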