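import Pool.Agent.H940R3.VD.Vol

set_option autoImplicit false

open Matrix MeasureTheory Metric
open scoped ComplexOrder MatrixOrder Matrix.Norms.L2Operator

namespace Pool.Agent.H940R3.VD

open Pool.Agent.H805R2.Gram Pool.Agent.H805R2.Fek

variable {n : ℕ}

/-- the Gram matrix of the scaled monomials -/
noncomputable def Gk (μ : Measure (Fin n → ℂ)) (R : ℝ) (k : ℕ) : Matrix (Ix n k) (Ix n k) ℂ :=
  gram μ (e n R k) (fun _ => 1)

lemma hmb {R : ℝ} (hR : 0 < R) {K : Set (Fin n → ℂ)} (hK : K ⊆ closedBall 0 R)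
    {μ : Measure (Fin n → ℂ)} (hμ : μ Kᶜ = 0) (k : ℕ) :
    ∀ᵐ z ∂μ, ∀ α, ‖e n R k z α‖ ≤ 1 := by
  have : ∀ᵐ z ∂μ, z ∈ K := by
    rw [ae_iff]
    exact hμ
  filter_upwards [this] with z hz α
  apply norm_e_le hR
  have := hK hz
  rwa [mem_closedBall_zero_iff] at this

lemma hm (R : ℝ) (k : ℕ) (α : Ix n k) : Measurable fun z => e n R k z α :=
  (isP_e R k α).continuous.measurable

lemma qf_Gk {R : ℝ} (hR : 0 < R) {K : Set (Fin n → ℂ)} (hK : K ⊆ closedBall 0 R)
    {μ : Measure (Fin n → ℂ)} [IsFiniteMeasure μ] (hμ : μ Kᶜ = 0) (k : ℕ) (c : Ix n k → ℂ) :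
    (qf (Gk μ R k) c).re = ∫ z, ‖sm (e n R k) c z‖ ^ 2 ∂μ := by
  unfold Gk
  rw [qf_gram μ (e n R k) (fun _ => 1) (hm R k) (hmb hR hK hμ k) measurable_const 1 (by simp),
    Complex.ofReal_re]
  simp [sm]

lemma integrable_sq {R : ℝ} {K : Set (Fin n → ℂ)} (hK : K ⊆ closedBall 0 R)
    {μ : Measure (Fin n → ℂ)} [IsFiniteMeasure μ] (hμ : μ Kᶜ = 0) {k : ℕ} {f : (Fin n → ℂ) → ℂ}
    (hf : IsP k f) : Integrable (fun z => ‖f z‖ ^ 2) μ := by
  have hc := hf.continuous
  obtain ⟨C, hC⟩ := (isCompact_closedBall (0 : Fin n → ℂ) R).exists_bound_of_continuousOn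
    (f := fun z => ‖f z‖ ^ 2) (by fun_prop)
  refine Integrable.mono' (g := fun _ => C) (integrable_const _)
    (by fun_prop) ?_
  have : ∀ᵐ z ∂μ, z ∈ K := by
    rw [ae_iff]
    exact hμ
  filter_upwards [this] with z hz
  exact hC z (hK hz)

lemma Gk_psd {R : ℝ} (hR : 0 < R) {K : Set (Fin n → ℂ)} (hK : K ⊆ closedBall 0 R)
    {μ : Measure (Fin n → ℂ)} [IsFiniteMeasure μ] (hμ : μ Kᶜ = 0) (k : ℕ) :
    (Gk μ R k).PosSemidef := by
  refine Matrix.PosSemidef.of_dotProduct_mulVec_nonneg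
    (gram_isHermitian μ (e n R k) (fun _ => 1)) ?_
  intro c
  have h1 : star c ⬝ᵥ (Gk μ R k *ᵥ c) = qf (Gk μ R k) c := rfl
  rw [h1]
  unfold Gk
  rw [qf_gram μ (e n R k) (fun _ => 1) (hm R k) (hmb hR hK hμ k) measurable_const 1 (by simp)]
  rw [← Complex.ofReal_zero, Complex.real_le_real]
  exact integral_nonneg fun z => by positivity

lemma diag_entry' {ι ι' : Type*} [Fintype ι] [Fintype ι'] (G : Matrix ι ι ℂ) (C : Matrix ι ι' ℂ)
    (i : ι') : (Cᴴ * G * C) i i = qf G (fun j => C j i) := by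
  simp only [qf, Matrix.mul_apply, dotProduct, mulVec, conjTranspose_apply, Pi.star_apply,
    Finset.sum_mul, Finset.mul_sum]
  rw [Finset.sum_comm]
  apply Finset.sum_congr rfl
  intro j _
  apply Finset.sum_congr rfl
  intro k _
  ring

theorem core (n : ℕ) {R : ℝ} (hR : 0 < R) : ∃ cR : ℝ, 0 < cR ∧ ∀ (K : Set (Fin n → ℂ)),
    K ⊆ closedBall 0 R → ∀ (μ : Measure (Fin n → ℂ)) [IsFiniteMeasure μ], μ Kᶜ = 0 →
    ∀ (d m : ℕ), (Gk μ R (d + m)).PosDef → ∀ x : Ix n (d + m) → (Fin n → ℂ),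
    Fk (e n R (d + m)) K x → ∀ f : (Fin n → ℂ) → ℂ, IsP d f → ∀ (z₀ : Fin n → ℂ) (s : ℝ),
    0 < s → ∫ z, ‖f z‖ ^ 2 ∂μ ≤ s ^ 2 → ∀ c : ℝ, Real.exp (c * d) * s ≤ ‖f z₀‖ →
    ∀ r θ c' : ℝ, 0 < r → 0 < θ → θ ≤ 1 → Real.log 2 ≤ θ * d →
    (∀ g, IsP (d + m) g → ∀ S : ℝ, 0 ≤ S → (∀ z ∈ K, ‖g z‖ ≤ S) → ∀ z ∈ closedBall z₀ (2 * r),
      ‖g z‖ ≤ Real.exp (c' * (d + m : ℕ)) * S) →
    2 * (NN n m : ℝ) * (d * (c - θ)) + SS n m *
      Real.log (cR * ((volume (ball (0 : Fin n → ℂ) (θ * r))).toReal / 4)) ≤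
    2 * c' * (d + m : ℕ) * NN n m + NN n (d + m) * Real.log (μ.real Set.univ + NN n m) +
      Real.log (‖(ev (e n R (d + m)) x).det‖ ^ 2 / (Gk μ R (d + m)).det.re) := by
  obtain ⟨cR, hcR, hfek⟩ := fekete' n hR
  refine ⟨cR, hcR, ?_⟩
  intro K hK μ _ hμ d m hG x hx f hf z₀ s hs hfs c hc r θ c' hr hθ hθ1 hd hgrow
  have hz₀ : 0 < ‖f z₀‖ := lt_of_lt_of_le (by positivity) hc
  have hfc := hf.continuous
  set S : Set (Fin n → ℂ) := {z ∈ closedBall z₀ (2 * r) | Real.exp (-θ * d) * ‖f z₀‖ ≤ ‖f z‖} with hS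
  have hSm : MeasurableSet S := by
    apply IsClosed.measurableSet
    apply isClosed_closedBall.inter
    exact isClosed_le continuous_const hfc.norm
  have hSfin : volume S ≠ ⊤ := by
    refine ne_of_lt (lt_of_le_of_lt (measure_mono (fun z hz => hz.1)) ?_)
    exact measure_closedBall_lt_top
  have hbig := big_set hf (norm_pos_iff.mp hz₀) hr hθ hθ1 hd
  set V₀ := (volume (ball (0 : Fin n → ℂ) (θ * r))).toReal / 4 with hV₀
  have hV₀pos : 0 < V₀ := by
    have : 0 < (volume (ball (0 : Fin n → ℂ) (θ * r))).toReal :=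
      ENNReal.toReal_pos (measure_ball_pos _ _ (by positivity)).ne' measure_ball_lt_top.ne
    positivity
  obtain ⟨y, hy, hy2⟩ := hfek S hSm (volume S).toReal (hV₀pos.trans_le hbig)
    (ENNReal.ofReal_toReal hSfin).symm m
  have hy3 : (cR * V₀) ^ SS n m ≤ ‖(ev (e n R m) y).det‖ ^ 2 := by
    refine le_trans ?_ hy2
    gcongr
  -- coefficient matrix
  have hw : ∀ β : Ix n m, IsP (d + m) (fun z => f z * e n R m z β) := fun β => hf.mul (isP_e R m β)
  choose J' hJ' using fun β => (hw β).coef hR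
  set J : Matrix (Ix n (d + m)) (Ix n m) ℂ := Matrix.of fun α β => J' β α with hJ
  have hJ2 : ∀ β z, sm (e n R (d + m)) (fun α => J α β) z = f z * e n R m z β := by
    intro β z
    exact (hJ' β z).symm
  have hEJ : ev (e n R (d + m)) y * J = diagonal (fun b => f (y b)) * ev (e n R m) y := by
    ext b β
    rw [diagonal_mul]
    have := hJ2 β (y b)
    simp only [Matrix.mul_apply, ev, Matrix.of_apply]
    rw [← this]
    unfold sm
    exact Finset.sum_congr rfl fun α _ => mul_comm _ _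
  have hstar := star_ineq hG hx J y (Real.exp_pos (c' * (d + m : ℕ))) (by
    intro c S₁ hS₁ hc2 b
    exact hgrow _ (isP_sm R (d + m) c) S₁ hS₁ hc2 _ (hy b).1) (m := μ.real Set.univ) (by
    intro c S₁ hS₁ hc2
    rw [qf_Gk hR hK hμ]
    calc ∫ z, ‖sm (e n R (d + m)) c z‖ ^ 2 ∂μ ≤ ∫ _z, S₁ ^ 2 ∂μ := by
          apply integral_mono_ae (integrable_sq hK hμ (isP_sm R _ c)) (integrable_const _)
          have : ∀ᵐ z ∂μ, z ∈ K := by
            rw [ae_iff]
            exact hμ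
          filter_upwards [this] with z hz
          have := hc2 z hz
          gcongr
      _ = μ.real Set.univ * S₁ ^ 2 := by
          rw [integral_const, smul_eq_mul])
  rw [hEJ, det_mul, det_diagonal, norm_mul, mul_pow, norm_prod, card_Ix, card_Ix] at hstar
  -- Hadamard
  have hJpsd : (Jᴴ * Gk μ R (d + m) * J).PosSemidef := hG.posSemidef.conjTranspose_mul_mul_same J
  have hhad : (Jᴴ * Gk μ R (d + m) * J).det.re ≤ s ^ (2 * NN n m) := by
    refine (hadamard hJpsd).trans ?_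
    have : s ^ (2 * NN n m) = ∏ _β : Ix n m, s ^ 2 := by
      simp [card_Ix, pow_mul]
    rw [this]
    apply Finset.prod_le_prod
    · intro β _
      exact diag_re_nonneg hJpsd β
    · intro β _
      rw [diag_entry', qf_Gk hR hK hμ]
      refine le_trans ?_ hfs
      apply integral_mono_ae (integrable_sq hK hμ (isP_sm R _ _)) (integrable_sq hK hμ hf)
      filter_upwards [hmb hR hK hμ m] with z hz
      have h1 := hz β
      rw [hJ2, norm_mul]
      have h2 : ‖f z‖ * ‖e n R m z β‖ ≤ ‖f z‖ * 1 := by gcongr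
      rw [mul_one] at h2
      gcongr
  have hdetG := det_re_pos hG
  have hM : 0 < ‖(ev (e n R (d + m)) x).det‖ ^ 2 := by
    have := norm_pos_iff.mpr hx.ne
    positivity
  set Y := ‖(ev (e n R (d + m)) x).det‖ ^ 2 / (Gk μ R (d + m)).det.re with hY
  have hYpos : 0 < Y := div_pos hM hdetG
  have hN : 0 < NN n m := NN_pos n m
  have hμN : 0 < μ.real Set.univ + NN n m := by
    have : (0 : ℝ) < NN n m := by exact_mod_cast hN
    have := measureReal_nonneg (μ := μ) (s := Set.univ)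
    linarith
  -- lower bound
  have hlow : (Real.exp ((c - θ) * d) * s) ^ (2 * NN n m) * (cR * V₀) ^ SS n m ≤
      (∏ b, ‖f (y b)‖) ^ 2 * ‖(ev (e n R m) y).det‖ ^ 2 := by
    apply mul_le_mul _ hy3 (by positivity) (by positivity)
    rw [mul_comm 2, pow_mul]
    apply pow_le_pow_left₀ (by positivity)
    have : (Real.exp ((c - θ) * d) * s) ^ NN n m = ∏ _b : Ix n m, (Real.exp ((c - θ) * d) * s) := by
      simp [card_Ix]
    rw [this]
    apply Finset.prod_le_prod
    · intro b _; positivity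
    · intro b _
      refine le_trans ?_ (hy b).2
      calc Real.exp ((c - θ) * d) * s = Real.exp (-θ * d) * (Real.exp (c * d) * s) := by
            rw [← mul_assoc, ← Real.exp_add]; congr 2; ring
        _ ≤ _ := by gcongr
  have hall : (Real.exp ((c - θ) * d) * s) ^ (2 * NN n m) * (cR * V₀) ^ SS n m ≤
      Real.exp (c' * (d + m : ℕ)) ^ (2 * NN n m) * (μ.real Set.univ + NN n m) ^ NN n (d + m) *
        Y * s ^ (2 * NN n m) :=
    hlow.trans (hstar.trans (mul_le_mul_of_nonneg_left hhad (by positivity)))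
  have hall2 : Real.exp ((c - θ) * d) ^ (2 * NN n m) * (cR * V₀) ^ SS n m ≤
      Real.exp (c' * (d + m : ℕ)) ^ (2 * NN n m) * (μ.real Set.univ + NN n m) ^ NN n (d + m) * Y := by
    have hsp : 0 < s ^ (2 * NN n m) := by positivity
    rw [mul_pow] at hall
    by_contra hcon
    push Not at hcon
    have := mul_lt_mul_of_pos_right hcon hsp
    nlinarith
  have hlog := Real.log_le_log (by positivity) hall2
  rw [Real.log_mul (by positivity) (by positivity), Real.log_mul (by positivity) (by positivity),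
    Real.log_mul (by positivity) (by positivity), Real.log_pow, Real.log_pow, Real.log_pow,
    Real.log_pow, Real.log_exp, Real.log_exp] at hlog
  push_cast at hlog ⊢
  nlinarith

end Pool.Agent.H940R3.VD
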