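import Pool.Agent.H940R3.VD.NB

set_option autoImplicit false

open MeasureTheory Filter Topology

namespace Pool.Agent.H940R3.VD

/-- The extremal function of `K`: `V_K(z) = sup { log⁺|p(z)| / deg p }` over polynomials `p` of
degree at least one with `|p| ≤ 1` on `K`. -/
noncomputable def VK {n : ℕ} (K : Set (Fin n → ℂ)) (z : Fin n → ℂ) : EReal :=
  ⨆ (p : MvPolynomial (Fin n) ℂ) (_ : 1 ≤ p.totalDegree)
    (_ : ∀ w ∈ K, ‖MvPolynomial.eval w p‖ ≤ 1),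
    ((Real.posLog ‖MvPolynomial.eval z p‖ / p.totalDegree : ℝ) : EReal)

/-- The upper semicontinuous regularisation `V_K^*`. -/
noncomputable def VKstar {n : ℕ} (K : Set (Fin n → ℂ)) (z : Fin n → ℂ) : EReal :=
  limsup (VK K) (𝓝 z)

/-- Condition (R). -/
def CondR {n : ℕ} (K : Set (Fin n → ℂ)) (μ : Measure (Fin n → ℂ)) : Prop :=
  ∀ p : ℕ → MvPolynomial (Fin n) ℂ, (∀ j, p j ≠ 0) →
    Tendsto (fun j => (p j).totalDegree) atTop atTop → ∀ z : Fin n → ℂ,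
      limsup (fun j => (‖MvPolynomial.eval z (p j)‖ₑ /
        eLpNorm (fun w => MvPolynomial.eval w (p j)) 2 μ) ^ (1 / ((p j).totalDegree : ℝ))) atTop
      ≤ (VKstar K z).exp

/-- The Vandermonde determinant `VDM_k(x) = det [e_i(x_j)]`, the monomials `e_i` of degree at most
`k` being indexed by their exponents. -/
noncomputable def vdm (n k : ℕ) (x : Ix n k → (Fin n → ℂ)) : ℂ :=
  (Matrix.of fun α j : Ix n k => ∏ i, x j i ^ (α.1 i : ℕ)).det

/-- `max_{x ∈ K^{N_k}} |VDM_k(x)|` -/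
noncomputable def maxVdm {n : ℕ} (K : Set (Fin n → ℂ)) (k : ℕ) : ℝ :=
  ⨆ x : Ix n k → K, ‖vdm n k (fun j => (x j : Fin n → ℂ))‖

/-- `l_k = n k N_k / (n + 1)`, with `N_k = (n + k choose k)` -/
noncomputable def lk (n k : ℕ) : ℝ := n * k * (Nat.choose (n + k) k) / (n + 1)

/-- `Z_k` -/
noncomputable def Zk {n : ℕ} (μ : Measure (Fin n → ℂ)) (k : ℕ) : ℝ :=
  ∫ x, ‖vdm n k x‖ ^ 2 ∂(Measure.pi fun _ : Ix n k => μ)

/-- Condition (Z), for the transfinite diameter `δ`. -/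
def CondZ {n : ℕ} (μ : Measure (Fin n → ℂ)) (δ : ℝ) : Prop :=
  Tendsto (fun k => Zk μ k ^ (1 / (2 * lk n k))) atTop (𝓝 δ)

end Pool.Agent.H940R3.VD
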