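import Pool.Agent.H940R3.VD.Outer3

set_option autoImplicit false

open Matrix Metric Filter Topology
open scoped MonomialOrder

namespace Pool.Agent.H940R3.VD

open Pool.Agent.H805R2.Fek

variable {n : ℕ}

lemma lk_atTop (hn : 1 ≤ n) : Tendsto (fun k => lk n k) atTop atTop := by
  have h1 : Tendsto (fun k : ℕ => (k : ℝ) / 2) atTop atTop :=
    tendsto_natCast_atTop_atTop.atTop_div_const (by norm_num)
  apply tendsto_atTop_mono _ h1
  intro k
  have h2 := le_lk hn k
  have h3 : (1 : ℝ) ≤ NN n k := by exact_mod_cast NN_pos n k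
  have h4 : (0 : ℝ) ≤ k := Nat.cast_nonneg k
  nlinarith

/-- asymptotics of the scaled maximal determinants -/
lemma asympL (hn : 1 ≤ n) {R : ℝ} (hR : 0 < R) {K : Set (Fin n → ℂ)} {δ : ℝ} (hδ0 : 0 < δ)
    (hδ : Tendsto (fun k => maxVdm K k ^ (1 / lk n k)) atTop (𝓝 δ)) {τ : ℝ} (hτ : 0 < τ) :
    ∀ᶠ k : ℕ in atTop, ∀ x : Ix n k → (Fin n → ℂ), Fk (e n R k) K x →
      |Real.log ‖(ev (e n R k) x).det‖ - (Real.log δ - Real.log R) * lk n k| ≤ τ * lk n k := by
  have hlog := hδ.log hδ0.ne'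
  have hev := Metric.tendsto_nhds.mp hlog τ hτ
  have e2 := hδ.eventually_const_lt hδ0
  filter_upwards [hev, e2, eventually_ge_atTop 1] with k h1 h2 hk x hx
  have hl := lk_pos hn hk
  have hmv := maxVdm_eq hR hx.mem hx.max
  have hM : 0 < ‖(ev (e n R k) x).det‖ := norm_pos_iff.mpr hx.ne
  have hmvp : 0 < maxVdm K k := by rw [hmv]; positivity
  rw [Real.dist_eq, Real.log_rpow hmvp, hmv, Real.log_mul (by positivity) hM.ne', Real.log_pow] at h1
  have h3 : ((n * SS n k : ℕ) : ℝ) = lk n k := by rw [lk_eq]; push_cast; ring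
  rw [h3] at h1
  have h4 : Real.log ‖(ev (e n R k) x).det‖ - (Real.log δ - Real.log R) * lk n k =
      (1 / lk n k * (lk n k * Real.log R + Real.log ‖(ev (e n R k) x).det‖) - Real.log δ) *
        lk n k := by
    field_simp
    ring
  rw [h4, abs_mul, abs_of_pos hl]
  gcongr

theorem outer (hn : 1 ≤ n) {R : ℝ} (hR : 0 < R) {K : Set (Fin n → ℂ)} (hKc : IsCompact K)
    (hK : K ⊆ ball 0 R) {δ : ℝ} (hδ0 : 0 < δ)
    (hfk : ∀ k, ∃ x : Ix n k → (Fin n → ℂ), Fk (e n R k) K x)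
    (hδ : Tendsto (fun k => maxVdm K k ^ (1 / lk n k)) atTop (𝓝 δ)) {τ : ℝ} (hτ : 0 < τ) :
    ∃ ε : ℝ, 0 < ε ∧ cthickening ε K ⊆ closedBall 0 R ∧ ∀ᶠ k : ℕ in atTop,
      ∀ x y : Ix n k → (Fin n → ℂ), Fk (e n R k) K x → (∀ j, y j ∈ cthickening ε K) →
      ‖(ev (e n R k) y).det‖ ≤ ‖(ev (e n R k) x).det‖ * Real.exp (τ * (k * NN n k)) := by
  have hKne : K.Nonempty := by
    obtain ⟨x, hx⟩ := hfk 0
    have : Nonempty (Ix n 0) := ⟨⟨fun _ => 0, by simp⟩⟩
    exact ⟨_, hx.mem (Classical.arbitrary _)⟩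
  set D := -(Real.log δ - Real.log R) with hD
  -- D ≥ 0
  have hD0 : 0 ≤ D := by
    by_contra hcon
    push Not at hcon
    have e1 := asympL hn hR hδ0 hδ (τ := -D / 2) (by linarith)
    have e2 := log_NN n (C := 0) le_rfl (τ := -D / 8) (by linarith)
    obtain ⟨k, h1, h2, h3⟩ := (e1.and (e2.and (eventually_ge_atTop 1))).exists
    obtain ⟨x, hx⟩ := hfk k
    have h4 := h1 x hx
    have hM : 0 < ‖(ev (e n R k) x).det‖ := norm_pos_iff.mpr hx.ne
    have h5 : Real.log ‖(ev (e n R k) x).det‖ ≤ NN n k * Real.log (NN n k) := by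
      rw [← Real.log_pow]
      exact Real.log_le_log hM (det_le_pow hR fun j => ball_subset_closedBall (hK (hx.mem j)))
    have h6 := (abs_le.mp h4).1
    have h7 := le_lk hn k
    have h8 := lk_pos hn h3
    have h9 : (0 : ℝ) ≤ NN n k := Nat.cast_nonneg _
    rw [zero_add] at h2
    have h10 : (NN n k : ℝ) * Real.log (NN n k) ≤ NN n k * (-D / 8 * k) := by gcongr
    nlinarith
  set τ' := τ / 12 with hτ'
  have hτ'0 : 0 < τ' := by positivity
  set s := min 1 (τ / (4 * (D + 1))) with hs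
  have hs0 : 0 < s := lt_min one_pos (by positivity)
  have hs1 : s ≤ 1 := min_le_left _ _
  have hsD : s * D ≤ τ / 4 := by
    have h1 : s ≤ τ / (4 * (D + 1)) := min_le_right _ _
    calc s * D ≤ τ / (4 * (D + 1)) * (D + 1) := by
          apply mul_le_mul h1 (by linarith) hD0 (by positivity)
      _ = τ / 4 := by field_simp
  have easy := asympL hn hR hδ0 hδ hτ'0
  obtain ⟨k₀, hk₀1, hk₀2, hk₀3, hk₀4⟩ := (easy.and ((SS_jl n hs0 hs1).and
    (((lk_atTop hn).eventually_ge_atTop (Real.log 2 / τ')).and (eventually_ge_atTop 1)))).exists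
  obtain ⟨x₀, hx₀⟩ := hfk k₀
  have hM₀ : 0 < ‖(ev (e n R k₀) x₀).det‖ := norm_pos_iff.mpr hx₀.ne
  have hL₀ := hk₀1 x₀ hx₀
  obtain ⟨q, S, hq, hqd, hS, hSK, hprod⟩ := greedy (MonomialOrder.degLex) hKc hKne R k₀ (by
    intro c hc
    by_contra hcon
    push Not at hcon
    apply hc
    have h1 : ev (e n R k₀) x₀ *ᵥ c = 0 := by
      ext j
      have h2 := hcon (x₀ j) (hx₀.mem j)
      simp only [mulVec, dotProduct, ev, Matrix.of_apply, Pi.zero_apply]
      rw [← h2]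
      unfold sm
      exact Finset.sum_congr rfl fun _ _ => mul_comm _ _
    have h3 : IsUnit (ev (e n R k₀) x₀).det := isUnit_iff_ne_zero.mpr hx₀.ne
    calc c = (ev (e n R k₀) x₀)⁻¹ *ᵥ (ev (e n R k₀) x₀ *ᵥ c) := by
          rw [mulVec_mulVec, nonsing_inv_mul _ h3, one_mulVec]
      _ = 0 := by rw [h1, mulVec_zero]) hx₀.max
  -- choice of η
  obtain ⟨η, hη0, hη⟩ : ∃ η : ℝ, 0 < η ∧ (1 + η) ^ NN n k₀ ≤ 2 := by
    have hcont : Tendsto (fun η : ℝ => (1 + η) ^ NN n k₀) (𝓝[>] 0) (𝓝 ((1 + 0) ^ NN n k₀)) := by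
      apply Tendsto.mono_left _ nhdsWithin_le_nhds
      have : Continuous fun η : ℝ => (1 + η) ^ NN n k₀ := by fun_prop
      exact this.tendsto 0
    rw [add_zero, one_pow] at hcont
    obtain ⟨η, h1, h2⟩ := ((hcont.eventually_lt_const (by norm_num : (1 : ℝ) < 2)).and
      self_mem_nhdsWithin).exists
    exact ⟨η, h2, h1.le⟩
  set U : Set (Fin n → ℂ) := (⋂ β, {z | ‖evR R (q β) z‖ < (1 + η) * S β}) ∩ ball 0 R with hU
  have hUo : IsOpen U := by
    apply IsOpen.inter _ isOpen_ball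
    apply isOpen_iInter_of_finite
    intro β
    exact isOpen_lt (isP_evR (k := k₀) R (hqd β)).continuous.norm continuous_const
  have hKU : K ⊆ U := by
    intro z hz
    refine ⟨?_, hK hz⟩
    rw [Set.mem_iInter]
    intro β
    have h1 := hSK β z hz
    have h2 := hS β
    have h3 : ‖evR R (q β) z‖ < (1 + η) * S β := by nlinarith
    exact h3
  obtain ⟨ε, hε, hεU⟩ := hKc.exists_cthickening_subset_open hUo hKU
  refine ⟨ε, hε, fun z hz => ball_subset_closedBall (hεU hz).2, ?_⟩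
  have e3 := log_NN n (C := 0) le_rfl (τ := τ / 4) (by positivity)
  filter_upwards [easy, hk₀2, e3, eventually_ge_atTop 1] with k h1 h2 h3 hk x y hx hy
  have hM : 0 < ‖(ev (e n R k) x).det‖ := norm_pos_iff.mpr hx.ne
  set j := k / (k₀ + n) with hj
  have hjk : j * (k₀ + n) ≤ k := Nat.div_mul_le_self _ _
  have hb := prod_bound (MonomialOrder.degLex) hR (K' := cthickening ε K)
    (fun z hz => ball_subset_closedBall (hεU hz).2) hjk q (fun β => (1 + η) * S β) hq hqd (by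
      intro β z hz
      have h4 := Set.mem_iInter.mp (hεU hz).1 β
      have h5 : ‖evR R (q β) z‖ < (1 + η) * S β := h4
      exact h5.le) hy
  rcases eq_or_ne (ev (e n R k) y).det 0 with h0 | h0
  · rw [h0, norm_zero]; positivity
  have hy0 : 0 < ‖(ev (e n R k) y).det‖ := norm_pos_iff.mpr h0
  have hprodS : 0 < ∏ β, S β := Finset.prod_pos fun β _ => hS β
  have hb2 : ∏ β, ((1 + η) * S β) ≤ 2 * ‖(ev (e n R k₀) x₀).det‖ := by
    rw [Finset.prod_mul_distrib]
    simp only [Finset.prod_const, Finset.card_univ, card_Ix]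
    gcongr
  have hb3 : ‖(ev (e n R k) y).det‖ ≤ (NN n k : ℝ) ^ NN n k *
      (2 * ‖(ev (e n R k₀) x₀).det‖) ^ (j ^ (n + 1)) := by
    refine hb.trans ?_
    gcongr
    apply Finset.prod_nonneg
    intro β _
    have := hS β
    positivity
  have hNp : (0 : ℝ) < NN n k := by exact_mod_cast NN_pos n k
  have hlog := Real.log_le_log hy0 hb3
  rw [Real.log_mul (by positivity) (by positivity), Real.log_pow, Real.log_pow,
    Real.log_mul (by norm_num) hM₀.ne'] at hlog
  have hL := h1 x hx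
  rw [zero_add] at h3
  have hLl := (abs_le.mp hL).1
  have hL₀u := (abs_le.mp hL₀).2
  have hlk : lk n k = n * SS n k := lk_eq n k
  have hlk₀ : lk n k₀ = n * SS n k₀ := lk_eq n k₀
  have hJ := SS_j n hjk
  have h2' : (1 - s) * SS n k ≤ ((j ^ (n + 1) : ℕ) : ℝ) * SS n k₀ := h2
  set J : ℝ := ((j ^ (n + 1) : ℕ) : ℝ) with hJdef
  have hJ0 : 0 ≤ J := Nat.cast_nonneg _
  rw [div_le_iff₀ hτ'0] at hk₀3
  have hn0 : (0 : ℝ) ≤ n := Nat.cast_nonneg n
  have hlk1 : J * lk n k₀ ≤ lk n k := by rw [hlk, hlk₀]; nlinarith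
  have hlk2 : (1 - s) * lk n k ≤ J * lk n k₀ := by rw [hlk, hlk₀]; nlinarith
  have hA : J * Real.log 2 ≤ τ' * lk n k := by nlinarith
  have hB : J * Real.log ‖(ev (e n R k₀) x₀).det‖ ≤ -D * ((1 - s) * lk n k) + τ' * lk n k := by
    have h5 : Real.log ‖(ev (e n R k₀) x₀).det‖ ≤ -D * lk n k₀ + τ' * lk n k₀ := by
      have : Real.log δ - Real.log R = -D := by rw [hD]; ring
      rw [this] at hL₀u
      linarith
    calc J * Real.log ‖(ev (e n R k₀) x₀).det‖ ≤ J * (-D * lk n k₀ + τ' * lk n k₀) := by gcongr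
      _ = -D * (J * lk n k₀) + τ' * (J * lk n k₀) := by ring
      _ ≤ _ := by nlinarith
  have hC : -(D * lk n k) - τ' * lk n k ≤ Real.log ‖(ev (e n R k) x).det‖ := by
    have : Real.log δ - Real.log R = -D := by rw [hD]; ring
    rw [this] at hLl
    linarith
  have hE : (NN n k : ℝ) * Real.log (NN n k) ≤ τ / 4 * (k * NN n k) := by
    calc (NN n k : ℝ) * Real.log (NN n k) ≤ NN n k * (τ / 4 * k) := by gcongr
      _ = _ := by ring
  have hlkle := lk_le n k
  have hlkp := lk_pos hn hk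
  have hfin : Real.log ‖(ev (e n R k) y).det‖ ≤
      Real.log ‖(ev (e n R k) x).det‖ + τ * (k * NN n k) := by
    have h6 : Real.log ‖(ev (e n R k) y).det‖ ≤ τ / 4 * (k * NN n k) +
        (τ' * lk n k + (-D * ((1 - s) * lk n k) + τ' * lk n k)) := by
      refine hlog.trans ?_
      rw [mul_add]
      linarith
    have h7 : s * D * lk n k ≤ τ / 4 * (k * NN n k) := by
      calc s * D * lk n k ≤ τ / 4 * lk n k := by gcongr
        _ ≤ _ := by gcongr
    have h8 : 3 * τ' * lk n k ≤ τ / 4 * (k * NN n k) := by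
      have : 3 * τ' = τ / 4 := by rw [hτ']; ring
      rw [this]
      gcongr
    have h9 : 0 ≤ τ / 4 * (k * NN n k) := by positivity
    nlinarith
  calc ‖(ev (e n R k) y).det‖ = Real.exp (Real.log ‖(ev (e n R k) y).det‖) :=
        (Real.exp_log hy0).symm
    _ ≤ Real.exp (Real.log ‖(ev (e n R k) x).det‖ + τ * (k * NN n k)) := Real.exp_le_exp.mpr hfin
    _ = _ := by rw [Real.exp_add, Real.exp_log hM]

end Pool.Agent.H940R3.VD
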