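import Pool.Agent.H940R3.VD.ZR

set_option autoImplicit false

open Matrix MeasureTheory Metric Filter Topology
open scoped ComplexOrder MatrixOrder Matrix.Norms.L2Operator

namespace Pool.Agent.H940R3.VD

open Pool.Agent.H805R2.Gram Pool.Agent.H805R2.Fek

variable {n : ℕ}

lemma totalDegree_pow_dom {ℓ : MvPolynomial (Fin n) ℂ} (h : ℓ ≠ 0) (hd : ℓ.totalDegree = 1)
    (a : ℕ) : (ℓ ^ a).totalDegree = a := by
  induction a with
  | zero => simp
  | succ a ih =>
    rw [pow_succ, MvPolynomial.totalDegree_mul_of_isDomain (pow_ne_zero _ h) h, ih, hd]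

lemma exists_ell (hn : 1 ≤ n) {R : ℝ} (hR : 0 < R) (z : Fin n → ℂ) {η : ℝ} (hη : 0 < η) :
    ∃ ℓ : MvPolynomial (Fin n) ℂ, ℓ ≠ 0 ∧ ℓ.totalDegree = 1 ∧
      (∀ w ∈ closedBall (0 : Fin n → ℂ) R, ‖MvPolynomial.eval w ℓ‖ ≤ 1) ∧
      Real.exp (-η) ≤ ‖MvPolynomial.eval z ℓ‖ := by
  set i₀ : Fin n := ⟨0, hn⟩
  have hE : Real.exp (-η) < 1 := by
    rw [Real.exp_lt_one_iff]; linarith
  -- choose b large
  obtain ⟨b, hb1, hb2⟩ : ∃ b : ℝ, 0 < b ∧ Real.exp (-η) * (R + b) ≤ b - ‖z‖ := by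
    refine ⟨(R + ‖z‖) / (1 - Real.exp (-η)), ?_, ?_⟩
    · apply div_pos _ (by linarith)
      have := norm_nonneg z
      linarith
    · have h1 : (1 - Real.exp (-η)) * ((R + ‖z‖) / (1 - Real.exp (-η))) = R + ‖z‖ := by
        field_simp [(by linarith : (1 : ℝ) - Real.exp (-η) ≠ 0)]
      have h2 : Real.exp (-η) * R ≤ R := by nlinarith
      nlinarith
  have hdeg1 : (MvPolynomial.X i₀ + MvPolynomial.C (b : ℂ) : MvPolynomial (Fin n) ℂ).totalDegree =
      1 := by
    rw [MvPolynomial.totalDegree_add_eq_left_of_totalDegree_lt]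
    · simp
    · simp
  have hne1 : (MvPolynomial.X i₀ + MvPolynomial.C (b : ℂ) : MvPolynomial (Fin n) ℂ) ≠ 0 := by
    intro h
    rw [h] at hdeg1
    simp at hdeg1
  have hc : (((R + b : ℝ) : ℂ))⁻¹ ≠ 0 := inv_ne_zero (by exact_mod_cast (by linarith : R + b ≠ 0))
  refine ⟨MvPolynomial.C (((R + b : ℝ) : ℂ))⁻¹ * (MvPolynomial.X i₀ + MvPolynomial.C (b : ℂ)),
    mul_ne_zero (by simpa using hc) hne1, ?_, ?_, ?_⟩
  · rw [MvPolynomial.totalDegree_mul_of_isDomain (by simpa using hc) hne1, hdeg1]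
    simp
  · intro w hw
    rw [mem_closedBall_zero_iff] at hw
    simp only [map_mul, map_add, MvPolynomial.eval_C, MvPolynomial.eval_X]
    rw [norm_mul, norm_inv, Complex.norm_real, Real.norm_of_nonneg (by linarith),
      inv_mul_le_iff₀ (by linarith), mul_one]
    refine (norm_add_le _ _).trans ?_
    rw [Complex.norm_real, Real.norm_of_nonneg hb1.le]
    have := norm_le_pi_norm w i₀
    linarith
  · simp only [map_mul, map_add, MvPolynomial.eval_C, MvPolynomial.eval_X]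
    rw [norm_mul, norm_inv, Complex.norm_real, Real.norm_of_nonneg (by linarith),
      ← div_eq_inv_mul, le_div_iff₀ (by linarith)]
    refine hb2.trans ?_
    have h1 : ‖(b : ℂ)‖ ≤ ‖z i₀ + b‖ + ‖z i₀‖ := by
      calc ‖(b : ℂ)‖ = ‖(z i₀ + b) - z i₀‖ := by congr 1; ring
        _ ≤ _ := norm_sub_le _ _
    rw [Complex.norm_real, Real.norm_of_nonneg hb1.le] at h1
    have := norm_le_pi_norm z i₀
    linarith

theorem Rlem (hn : 1 ≤ n) {R : ℝ} (hR : 0 < R) {K : Set (Fin n → ℂ)} (hK : K ⊆ closedBall 0 R)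
    {μ : Measure (Fin n → ℂ)} [IsFiniteMeasure μ] (hμ : μ Kᶜ = 0) (hCR : CondR K μ)
    {z : Fin n → ℂ} {c : ℝ} (hc : VKstar K z < (c : EReal)) :
    ∃ k₀ : ℕ, ∀ k ≥ k₀, ∀ f : (Fin n → ℂ) → ℂ, IsP k f →
      ‖f z‖ ^ 2 ≤ Real.exp (2 * k * c) * ∫ w, ‖f w‖ ^ 2 ∂μ := by
  obtain ⟨c', hc'1, hc'2⟩ := EReal.lt_iff_exists_real_btwn.mp hc
  have hc'c : c' < c := by exact_mod_cast hc'2
  set η := c - c' with hη
  obtain ⟨ℓ, hℓ0, hℓd, hℓK, hℓz⟩ := exists_ell hn hR z (show 0 < η by linarith)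
  by_contra hcon
  push Not at hcon
  choose kk hkk f hf hfz using hcon
  choose p hp hp2 using hf
  have hpz : ∀ j, p j ≠ 0 := by
    intro j h
    have h1 := hfz j
    rw [← hp2 j z, h] at h1
    have h2 : 0 ≤ Real.exp (2 * (kk j) * c) * ∫ w, ‖f j w‖ ^ 2 ∂μ :=
      mul_nonneg (Real.exp_pos _).le (integral_nonneg fun _ => by positivity)
    simp at h1
    linarith
  set q : ℕ → MvPolynomial (Fin n) ℂ := fun j => p j * ℓ ^ (kk j - (p j).totalDegree) with hq
  have hqdeg : ∀ j, (q j).totalDegree = kk j := by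
    intro j
    rw [hq]
    simp only
    rw [MvPolynomial.totalDegree_mul_of_isDomain (hpz j) (pow_ne_zero _ hℓ0),
      totalDegree_pow_dom hℓ0 hℓd]
    have := hp j
    omega
  have hq0 : ∀ j, q j ≠ 0 := fun j => mul_ne_zero (hpz j) (pow_ne_zero _ hℓ0)
  have hdeg : Tendsto (fun j => (q j).totalDegree) atTop atTop := by
    simp_rw [hqdeg]
    exact tendsto_atTop_mono hkk tendsto_id
  have hlim := hCR q hq0 hdeg z
  have hlt : limsup (fun j => (‖MvPolynomial.eval z (q j)‖ₑ /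
      eLpNorm (fun w => MvPolynomial.eval w (q j)) 2 μ) ^ (1 / ((q j).totalDegree : ℝ))) atTop <
      ((c' : EReal)).exp := lt_of_le_of_lt hlim (EReal.exp_lt_exp_iff.mpr hc'1)
  have hev := eventually_lt_of_limsup_lt hlt
  obtain ⟨j, hj1, hj2⟩ := (hev.and (eventually_ge_atTop 1)).exists
  rw [hqdeg j] at hj1
  set k := kk j with hk
  have hk1 : 1 ≤ k := le_trans hj2 (hkk j)
  have hkr : (0 : ℝ) < k := by exact_mod_cast hk1
  set Ip := ∫ w, ‖f j w‖ ^ 2 ∂μ with hIp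
  set Iq := ∫ w, ‖MvPolynomial.eval w (q j)‖ ^ 2 ∂μ with hIq
  have hIp0 : 0 ≤ Ip := integral_nonneg fun _ => by positivity
  have hIq0 : 0 ≤ Iq := integral_nonneg fun _ => by positivity
  have hIle : Iq ≤ Ip := by
    have hP1 : IsP k (f j) := ⟨p j, hp j, hp2 j⟩
    have hP2 : IsP k (fun w => MvPolynomial.eval w (q j)) := ⟨q j, (hqdeg j).le, fun _ => rfl⟩
    apply integral_mono_ae (integrable_sq hK hμ hP2) (integrable_sq hK hμ hP1)
    have : ∀ᵐ w ∂μ, w ∈ K := by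
      rw [ae_iff]
      exact hμ
    filter_upwards [this] with w hw
    have h1 := hℓK w (hK hw)
    have h2 : ‖MvPolynomial.eval w (q j)‖ ≤ ‖f j w‖ := by
      rw [hq]
      simp only
      rw [map_mul, map_pow, hp2 j w, norm_mul, norm_pow]
      calc ‖f j w‖ * ‖MvPolynomial.eval w ℓ‖ ^ (kk j - (p j).totalDegree) ≤ ‖f j w‖ * 1 := by
            gcongr
            exact pow_le_one₀ (norm_nonneg _) h1
        _ = _ := mul_one _
    gcongr
  have hqz : Real.exp (k * c') * Real.sqrt Iq ≤ ‖MvPolynomial.eval z (q j)‖ := by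
    have h1 := hfz j
    rw [← hk, ← hIp] at h1
    have h2 : ‖MvPolynomial.eval z (q j)‖ = ‖f j z‖ *
        ‖MvPolynomial.eval z ℓ‖ ^ (kk j - (p j).totalDegree) := by
      rw [hq]
      simp only
      rw [map_mul, map_pow, hp2 j z, norm_mul, norm_pow]
    have h3 : Real.exp (-η * k) ≤ ‖MvPolynomial.eval z ℓ‖ ^ (kk j - (p j).totalDegree) := by
      calc Real.exp (-η * k) ≤ Real.exp (-η) ^ (kk j - (p j).totalDegree) := by
            rw [← Real.exp_nat_mul]
            apply Real.exp_le_exp.mpr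
            have h4 : ((kk j - (p j).totalDegree : ℕ) : ℝ) ≤ k := by
              rw [hk]
              exact_mod_cast Nat.sub_le _ _
            have : 0 < η := by linarith
            nlinarith
        _ ≤ _ := by gcongr
    have h5 : Real.exp (k * c) * Real.sqrt Ip ≤ ‖f j z‖ := by
      apply le_of_sq_le_sq _ (norm_nonneg _)
      rw [mul_pow, Real.sq_sqrt hIp0, ← Real.exp_nat_mul]
      have : ((2 : ℕ) : ℝ) * (k * c) = 2 * k * c := by push_cast; ring
      rw [this]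
      exact h1.le
    rw [h2]
    calc Real.exp (k * c') * Real.sqrt Iq ≤ Real.exp (k * c') * Real.sqrt Ip := by gcongr
      _ = (Real.exp (k * c) * Real.sqrt Ip) * Real.exp (-η * k) := by
          have : Real.exp (k * c') = Real.exp (k * c) * Real.exp (-η * k) := by
            rw [← Real.exp_add]; congr 1; rw [hη]; ring
          rw [this]; ring
      _ ≤ _ := by gcongr
  have hqz0 : MvPolynomial.eval z (q j) ≠ 0 := by
    rw [hq]
    simp only
    rw [map_mul, map_pow]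
    apply mul_ne_zero
    · rw [hp2 j z]
      intro h0
      have h1 := hfz j
      rw [h0, norm_zero] at h1
      have h2 : 0 ≤ Real.exp (2 * (kk j) * c) * ∫ w, ‖f j w‖ ^ 2 ∂μ :=
        mul_nonneg (Real.exp_pos _).le hIp0
      norm_num at h1
      linarith
    · apply pow_ne_zero
      intro h0
      rw [h0, norm_zero] at hℓz
      have := Real.exp_pos (-η)
      linarith
  have h6 : ENNReal.ofReal (Real.exp (k * c')) ≤ ‖MvPolynomial.eval z (q j)‖ₑ /
      eLpNorm (fun w => MvPolynomial.eval w (q j)) 2 μ := by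
    rw [eLpNorm_eq hK hμ, ENNReal.le_div_iff_mul_le (Or.inr (by simpa using hqz0))
      (Or.inl ENNReal.ofReal_ne_top), ← ENNReal.ofReal_mul (Real.exp_pos _).le, ← ofReal_norm]
    exact ENNReal.ofReal_le_ofReal hqz
  have h7 : ((c' : EReal)).exp ≤ (‖MvPolynomial.eval z (q j)‖ₑ /
      eLpNorm (fun w => MvPolynomial.eval w (q j)) 2 μ) ^ (1 / (k : ℝ)) := by
    calc ((c' : EReal)).exp = (ENNReal.ofReal (Real.exp (k * c'))) ^ (1 / (k : ℝ)) := by
          rw [ENNReal.ofReal_rpow_of_pos (Real.exp_pos _), ← Real.exp_mul, EReal.exp_coe]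
          congr 2
          field_simp
      _ ≤ _ := ENNReal.rpow_le_rpow h6 (by positivity)
  exact absurd hj1 (not_lt.mpr h7)

/-- locally uniform upper bounds, by Baire's theorem -/
theorem Ubd (hn : 1 ≤ n) {R : ℝ} (hR : 0 < R) {K : Set (Fin n → ℂ)} (hK : K ⊆ closedBall 0 R)
    {μ : Measure (Fin n → ℂ)} [IsFiniteMeasure μ] (hμ : μ Kᶜ = 0) (hCR : CondR K μ)
    (hfin : ∀ z, VKstar K z < ⊤) :
    ∃ (k₁ : ℕ) (Cb : ℝ), 0 ≤ Cb ∧ ∀ k ≥ k₁, ∀ f : (Fin n → ℂ) → ℂ, IsP k f →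
      ∀ z ∈ closedBall (0 : Fin n → ℂ) R, ‖f z‖ ^ 2 ≤ Real.exp (2 * k * Cb) * ∫ w, ‖f w‖ ^ 2 ∂μ := by
  set E : ℕ → Set (Fin n → ℂ) := fun N => ⋂ (k : ℕ), ⋂ (_ : N ≤ k), ⋂ (f : (Fin n → ℂ) → ℂ),
    ⋂ (_ : IsP k f), {z | ‖f z‖ ^ 2 ≤ Real.exp (2 * k * N) * ∫ w, ‖f w‖ ^ 2 ∂μ} with hE
  have hcl : ∀ N, IsClosed (E N) := by
    intro N
    refine isClosed_iInter fun k => isClosed_iInter fun _ => isClosed_iInter fun f =>
      isClosed_iInter fun hf => ?_
    have := hf.continuous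
    exact isClosed_le (by fun_prop) continuous_const
  have hmem : ∀ N z, z ∈ E N ↔ ∀ k, N ≤ k → ∀ f : (Fin n → ℂ) → ℂ, IsP k f →
      ‖f z‖ ^ 2 ≤ Real.exp (2 * k * N) * ∫ w, ‖f w‖ ^ 2 ∂μ := by
    intro N z
    rw [hE]
    simp only [Set.mem_iInter]
    rfl
  have hun : ⋃ N, E N = Set.univ := by
    rw [Set.eq_univ_iff_forall]
    intro z
    obtain ⟨c, hc, _⟩ := EReal.lt_iff_exists_real_btwn.mp (hfin z)
    obtain ⟨k₀, hk₀⟩ := Rlem hn hR hK hμ hCR hc
    rw [Set.mem_iUnion]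
    refine ⟨max k₀ ⌈c⌉₊, ?_⟩
    rw [hmem]
    intro k hk f hf
    refine (hk₀ k ((le_max_left _ _).trans hk) f hf).trans ?_
    have hI : 0 ≤ ∫ w, ‖f w‖ ^ 2 ∂μ := integral_nonneg fun _ => by positivity
    apply mul_le_mul_of_nonneg_right _ hI
    apply Real.exp_le_exp.mpr
    have h1 : c ≤ ((max k₀ ⌈c⌉₊ : ℕ) : ℝ) := (Nat.le_ceil c).trans (by
      exact_mod_cast le_max_right _ _)
    have h2 : (0 : ℝ) ≤ 2 * k := by positivity
    exact mul_le_mul_of_nonneg_left h1 h2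
  obtain ⟨N, a, ha⟩ := nonempty_interior_of_iUnion_of_closed hcl hun
  obtain ⟨r', hr', hr2⟩ := Metric.isOpen_iff.mp isOpen_interior a ha
  set r := r' / 2 with hr
  have hr0 : 0 < r := by positivity
  have hball : closedBall a r ⊆ E N := by
    intro w hw
    apply interior_subset
    apply hr2
    rw [mem_closedBall] at hw
    rw [mem_ball]
    linarith
  set A := 1 + (R + ‖a‖) / r with hA
  have hA1 : 1 ≤ A := by
    have : 0 ≤ (R + ‖a‖) / r := by positivity
    linarith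
  have hA0 : 0 < A := by linarith
  refine ⟨N, N + Real.log A, by have := Real.log_nonneg hA1; positivity, ?_⟩
  intro k hk f hf z hz
  set I := ∫ w, ‖f w‖ ^ 2 ∂μ with hI
  have hI0 : 0 ≤ I := integral_nonneg fun _ => by positivity
  rw [mem_closedBall_zero_iff] at hz
  have key : ∀ t : ℝ, 0 < t → ‖f z‖ ≤ Real.exp (k * (N + Real.log A)) * (Real.sqrt I + t) := by
    intro t ht
    have hM : 0 < Real.exp (k * N) * (Real.sqrt I + t) := by positivity
    have h1 := bwn hf hr0 hM (by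
      intro w hw
      have h2 := (hmem N w).mp (hball hw) k hk f hf
      have h3 : ‖f w‖ ≤ Real.exp (k * N) * Real.sqrt I := by
        apply le_of_sq_le_sq _ (by positivity)
        rw [mul_pow, Real.sq_sqrt hI0, ← Real.exp_nat_mul]
        have : ((2 : ℕ) : ℝ) * (k * N) = 2 * k * N := by push_cast; ring
        rw [this]
        exact h2
      refine h3.trans ?_
      gcongr
      linarith) z
    refine h1.trans ?_
    have h4 : max 1 (‖z - a‖ / r) ≤ A := by
      apply max_le hA1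
      rw [hA]
      have h5 : ‖z - a‖ / r ≤ (R + ‖a‖) / r := by
        gcongr
        exact (norm_sub_le _ _).trans (by linarith)
      linarith
    have h6 : Real.exp (k * (N + Real.log A)) = Real.exp (k * N) * A ^ k := by
      rw [mul_add, Real.exp_add, Real.exp_nat_mul (Real.log A), Real.exp_log hA0]
    rw [h6]
    calc Real.exp (k * N) * (Real.sqrt I + t) * max 1 (‖z - a‖ / r) ^ k ≤
          Real.exp (k * N) * (Real.sqrt I + t) * A ^ k := by gcongr
      _ = _ := by ring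
  have key2 : ‖f z‖ ≤ Real.exp (k * (N + Real.log A)) * Real.sqrt I := by
    apply le_of_forall_pos_le_add
    intro ε hε
    have := key (ε / Real.exp (k * (N + Real.log A))) (by positivity)
    rw [mul_add, mul_div_cancel₀ _ (Real.exp_pos _).ne'] at this
    exact this
  calc ‖f z‖ ^ 2 ≤ (Real.exp (k * (N + Real.log A)) * Real.sqrt I) ^ 2 := by gcongr
    _ = _ := by
      rw [mul_pow, Real.sq_sqrt hI0, ← Real.exp_nat_mul]
      congr 2
      push_cast
      ring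

lemma Gk_posDef_of_bd {R : ℝ} (hR : 0 < R) {K : Set (Fin n → ℂ)}
    (hK : K ⊆ closedBall 0 R)
    {μ : Measure (Fin n → ℂ)} [IsFiniteMeasure μ] (hμ : μ Kᶜ = 0) {k₁ : ℕ} {Cb : ℝ}
    (hbd : ∀ k ≥ k₁, ∀ f : (Fin n → ℂ) → ℂ, IsP k f →
      ∀ z ∈ closedBall (0 : Fin n → ℂ) R, ‖f z‖ ^ 2 ≤ Real.exp (2 * k * Cb) * ∫ w, ‖f w‖ ^ 2 ∂μ)
    {k : ℕ} {x : Ix n k → (Fin n → ℂ)} (hx : Fk (e n R k) K x) : (Gk μ R k).PosDef := by
  have hpsd := Gk_psd hR hK hμ k
  refine Matrix.PosDef.of_dotProduct_mulVec_pos hpsd.1 ?_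
  intro c hc
  have h1 : star c ⬝ᵥ (Gk μ R k *ᵥ c) = qf (Gk μ R k) c := rfl
  have h2 : qf (Gk μ R k) c = ((∫ z, ‖sm (e n R k) c z‖ ^ 2 ∂μ : ℝ) : ℂ) := by
    unfold Gk
    rw [qf_gram μ (e n R k) (fun _ => 1) (hm R k) (hmb hR hK hμ k) measurable_const 1 (by simp)]
    simp [sm]
  rw [h1, h2, ← Complex.ofReal_zero, Complex.real_lt_real]
  have h3 : 0 ≤ ∫ z, ‖sm (e n R k) c z‖ ^ 2 ∂μ := integral_nonneg fun _ => by positivity
  rcases h3.eq_or_lt with h4 | h4
  · exfalso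
    apply hc
    have h5 : ∀ z ∈ K, sm (e n R k) c z = 0 := by
      intro z hz
      have h6 := hbd (max k k₁) (le_max_right _ _) _ ((isP_sm R k c).mono (le_max_left _ _)) z (hK hz)
      rw [← h4, mul_zero] at h6
      have h7 : ‖sm (e n R k) c z‖ ^ 2 = 0 := le_antisymm h6 (by positivity)
      simpa using h7
    have h8 : ev (e n R k) x *ᵥ c = 0 := by
      ext j
      have h9 := h5 (x j) (hx.mem j)
      simp only [mulVec, dotProduct, ev, Matrix.of_apply, Pi.zero_apply]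
      rw [← h9]
      unfold sm
      exact Finset.sum_congr rfl fun _ _ => mul_comm _ _
    have h10 : IsUnit (ev (e n R k) x).det := isUnit_iff_ne_zero.mpr hx.ne
    calc c = (ev (e n R k) x)⁻¹ *ᵥ (ev (e n R k) x *ᵥ c) := by
          rw [mulVec_mulVec, nonsing_inv_mul _ h10, one_mulVec]
      _ = 0 := by rw [h8, mulVec_zero]
  · exact h4

end Pool.Agent.H940R3.VD
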