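import Pool.Agent.H940R3.VD.LF
import Pool.Agent.H940R3.VD.Chain2
import Pool.Agent.H940R3.VD.RL
import Pool.Agent.H940R3.VD.Outer4

set_option autoImplicit false

open Matrix MeasureTheory Metric Filter Topology
open scoped ComplexOrder MatrixOrder Matrix.Norms.L2Operator

namespace Pool.Agent.H940R3.VD

open Pool.Agent.H805R2.Gram Pool.Agent.H805R2.Fek

variable {n : ℕ}

/-- Fekete arrays with nonzero determinant exist in lower degrees -/
lemma fk_down {R : ℝ} {K : Set (Fin n → ℂ)} (hKc : IsCompact K) (hR : 0 < R) {k k' : ℕ}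
    (hk : k ≤ k') {x' : Ix n k' → (Fin n → ℂ)} (hx' : Fk (e n R k') K x') :
    ∃ x : Ix n k → (Fin n → ℂ), Fk (e n R k) K x := by
  have hKne : K.Nonempty := by
    have : Nonempty (Ix n k') := ⟨⟨fun _ => 0, by simp⟩⟩
    exact ⟨_, hx'.mem (Classical.arbitrary _)⟩
  obtain ⟨x, hx, hmax⟩ := exists_fek hKc hKne R k
  refine ⟨x, hx, hmax, ?_⟩
  obtain ⟨q, S, _, _, hS, _, hprod⟩ := greedy (MonomialOrder.degLex) hKc hKne R k (by
    intro c hc
    by_contra hcon
    push Not at hcon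
    apply hc
    obtain ⟨c', hc'⟩ := ((isP_sm R k c).mono hk).coef hR
    have h1 : ev (e n R k') x' *ᵥ c' = 0 := by
      ext j
      have h2 := hcon (x' j) (hx'.mem j)
      rw [hc'] at h2
      simp only [mulVec, dotProduct, ev, Matrix.of_apply, Pi.zero_apply]
      rw [← h2]
      unfold sm
      exact Finset.sum_congr rfl fun _ _ => mul_comm _ _
    have h3 : IsUnit (ev (e n R k') x').det := isUnit_iff_ne_zero.mpr hx'.ne
    have h4 : c' = 0 := by
      calc c' = (ev (e n R k') x')⁻¹ *ᵥ (ev (e n R k') x' *ᵥ c') := by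
            rw [mulVec_mulVec, nonsing_inv_mul _ h3, one_mulVec]
        _ = 0 := by rw [h1, mulVec_zero]
    -- now `sm c` vanishes identically
    have h5 : ∀ z, sm (e n R k) c z = 0 := by
      intro z
      rw [hc', h4]
      simp [sm]
    -- use an array in a large ball with nonvanishing determinant
    obtain ⟨cR, hcR, hfek⟩ := fekete' n hR
    have hv : volume (ball (0 : Fin n → ℂ) 1) = ENNReal.ofReal
        (volume (ball (0 : Fin n → ℂ) 1)).toReal := (ENNReal.ofReal_toReal measure_ball_lt_top.ne).symm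
    have hv0 : 0 < (volume (ball (0 : Fin n → ℂ) 1)).toReal :=
      ENNReal.toReal_pos (measure_ball_pos _ _ one_pos).ne' measure_ball_lt_top.ne
    obtain ⟨y, _, hy2⟩ := hfek _ measurableSet_ball _ hv0 hv k
    have hyne : (ev (e n R k) y).det ≠ 0 := by
      intro h0
      rw [h0, norm_zero] at hy2
      have : 0 < (cR * (volume (ball (0 : Fin n → ℂ) 1)).toReal) ^ SS n k := by positivity
      norm_num at hy2
      linarith
    have h6 : ev (e n R k) y *ᵥ c = 0 := by
      ext j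
      have h2 := h5 (y j)
      simp only [mulVec, dotProduct, ev, Matrix.of_apply, Pi.zero_apply]
      rw [← h2]
      unfold sm
      exact Finset.sum_congr rfl fun _ _ => mul_comm _ _
    have h7 : IsUnit (ev (e n R k) y).det := isUnit_iff_ne_zero.mpr hyne
    calc c = (ev (e n R k) y)⁻¹ *ᵥ (ev (e n R k) y *ᵥ c) := by
          rw [mulVec_mulVec, nonsing_inv_mul _ h7, one_mulVec]
      _ = 0 := by rw [h6, mulVec_zero]) hmax
  have : 0 < ∏ α, S α := Finset.prod_pos fun α _ => hS α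
  exact norm_pos_iff.mp (this.trans_le hprod)

/-- Fekete arrays exist in all degrees if `δ > 0` -/
lemma fk_all (hn : 1 ≤ n) {R : ℝ} (hR : 0 < R) {K : Set (Fin n → ℂ)} (hKc : IsCompact K)
    (hKne : K.Nonempty) {δ : ℝ} (hδ0 : 0 < δ)
    (hδ : Tendsto (fun k => maxVdm K k ^ (1 / lk n k)) atTop (𝓝 δ)) (k : ℕ) :
    ∃ x : Ix n k → (Fin n → ℂ), Fk (e n R k) K x := by
  obtain ⟨k', hk'1, hk'2, hk'3⟩ := ((hδ.eventually_const_lt hδ0).and
    ((eventually_ge_atTop k).and (eventually_ge_atTop 1))).exists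
  obtain ⟨x', hx', hmax'⟩ := exists_fek hKc hKne R k'
  have hl := lk_pos hn hk'3
  have hmv := maxVdm_eq hR hx' hmax'
  have hne : (ev (e n R k') x').det ≠ 0 := by
    intro h0
    rw [hmv, h0, norm_zero, mul_zero, Real.zero_rpow (by positivity)] at hk'1
    exact lt_irrefl _ hk'1
  exact fk_down hKc hR hk'2 ⟨hx', hmax', hne⟩

lemma low_all (hn : 1 ≤ n) {R : ℝ} (hR : 0 < R) {K : Set (Fin n → ℂ)} (hKc : IsCompact K)
    (hKne : K.Nonempty) {δ : ℝ} (hδ0 : 0 < δ)
    (hδ : Tendsto (fun k => maxVdm K k ^ (1 / lk n k)) atTop (𝓝 δ)) :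
    ∃ a : ℝ, 0 < a ∧ Low K R a := by
  refine ⟨Real.exp (2 * n * (Real.log δ - Real.log R - 1)), Real.exp_pos _, ?_⟩
  have h1 := asympL hn hR hδ0 hδ one_pos
  unfold Low
  filter_upwards [h1, eventually_ge_atTop 1] with k hk hk1
  obtain ⟨x, hx⟩ := fk_all hn hR hKc hKne hδ0 hδ k
  refine ⟨x, hx.mem, ?_⟩
  have h2 := (abs_le.mp (hk x hx)).1
  have hM : 0 < ‖(ev (e n R k) x).det‖ := norm_pos_iff.mpr hx.ne
  have hlk := lk_eq n k
  rw [← Real.exp_nat_mul, ← Real.le_log_iff_exp_le (by positivity), Real.log_pow]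
  push_cast
  rw [hlk] at h2
  nlinarith

/-- `V_K` is locally bounded if `δ > 0` -/
lemma gr_all (hn : 1 ≤ n) {K : Set (Fin n → ℂ)} (hKc : IsCompact K)
    (hKne : K.Nonempty) {δ : ℝ} (hδ0 : 0 < δ)
    (hδ : Tendsto (fun k => maxVdm K k ^ (1 / lk n k)) atTop (𝓝 δ)) (ρ : ℝ) :
    ∃ C : ℝ, 0 ≤ C ∧ Gr K C (closedBall 0 ρ) := by
  obtain ⟨R₀, hR₀⟩ := hKc.isBounded.subset_closedBall (0 : Fin n → ℂ)
  set R := max R₀ (max 1 (ρ + 2)) with hRdef
  have hR : 0 < R := lt_of_lt_of_le one_pos ((le_max_left _ _).trans (le_max_right _ _))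
  have hK : K ⊆ closedBall 0 R := hR₀.trans (closedBall_subset_closedBall (le_max_left _ _))
  obtain ⟨a, ha, hlow⟩ := low_all hn hR hKc hKne hδ0 hδ
  exact bounded hR hK hKne ha hlow ((le_max_right _ _).trans (le_max_right _ _))

lemma VKstar_fin (hn : 1 ≤ n) {K : Set (Fin n → ℂ)} (hKc : IsCompact K)
    (hKne : K.Nonempty) {δ : ℝ} (hδ0 : 0 < δ)
    (hδ : Tendsto (fun k => maxVdm K k ^ (1 / lk n k)) atTop (𝓝 δ)) (z : Fin n → ℂ) :
    VKstar K z < ⊤ := by
  obtain ⟨C, hC, hg⟩ := gr_all hn hKc hKne hδ0 hδ (‖z‖ + 1)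
  have h1 : ∀ᶠ w in 𝓝 z, VK K w ≤ (C : EReal) := by
    filter_upwards [Metric.ball_mem_nhds z one_pos] with w hw
    apply VK_of_gr hC hg
    rw [mem_closedBall_zero_iff]
    rw [mem_ball, dist_eq_norm] at hw
    calc ‖w‖ = ‖(w - z) + z‖ := by simp
      _ ≤ ‖w - z‖ + ‖z‖ := norm_add_le _ _
      _ ≤ _ := by linarith
  unfold VKstar
  exact lt_of_le_of_lt (limsup_le_of_le (h := h1)) (EReal.coe_lt_top C)

/-- monotonicity of the ratio -/
lemma mono_y {R : ℝ} (hR : 0 < R) {K : Set (Fin n → ℂ)} (hK : K ⊆ closedBall 0 R)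
    {μ : Measure (Fin n → ℂ)} [IsFiniteMeasure μ] (hμ : μ Kᶜ = 0) {k k' : ℕ} (hkk : k ≤ k')
    {x : Ix n k → (Fin n → ℂ)} (hx : Fk (e n R k) K x) {x' : Ix n k' → (Fin n → ℂ)}
    (hx' : Fk (e n R k') K x') (hpd : (Gk μ R k).PosDef) (hpd' : (Gk μ R k').PosDef) :
    2 * Real.log ‖(ev (e n R k) x).det‖ - Real.log (Gk μ R k).det.re ≤
      2 * Real.log ‖(ev (e n R k') x').det‖ - Real.log (Gk μ R k').det.re +
        NN n k' * Real.log (μ.real Set.univ + NN n k) := by
  choose J' hJ' using fun β : Ix n k => ((isP_e (n := n) R k β).mono hkk).coef hR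
  set J : Matrix (Ix n k') (Ix n k) ℂ := Matrix.of fun α β => J' β α with hJ
  have hJ2 : ∀ β z, sm (e n R k') (fun α => J α β) z = e n R k z β := by
    intro β z
    exact (hJ' β z).symm
  have hEJ : ev (e n R k') x * J = ev (e n R k) x := by
    ext b β
    have := hJ2 β (x b)
    simp only [Matrix.mul_apply, ev, Matrix.of_apply]
    rw [← this]
    unfold sm
    exact Finset.sum_congr rfl fun α _ => mul_comm _ _
  have hstar := star_ineq hpd' hx' J x (A := 1) one_pos (by
    intro c S hS hc b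
    rw [one_mul]
    exact hc _ (hx.mem b)) (m := μ.real Set.univ) (by
    intro c S₁ hS₁ hc2
    rw [qf_Gk hR hK hμ]
    calc ∫ z, ‖sm (e n R k') c z‖ ^ 2 ∂μ ≤ ∫ _z, S₁ ^ 2 ∂μ := by
          apply integral_mono_ae (integrable_sq hK hμ (isP_sm R _ c)) (integrable_const _)
          have : ∀ᵐ z ∂μ, z ∈ K := by
            rw [ae_iff]
            exact hμ
          filter_upwards [this] with z hz
          have := hc2 z hz
          gcongr
      _ = μ.real Set.univ * S₁ ^ 2 := by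
          rw [integral_const, smul_eq_mul])
  rw [hEJ, one_pow, one_mul, card_Ix, card_Ix] at hstar
  have hJpsd : (Jᴴ * Gk μ R k' * J).PosSemidef := hpd'.posSemidef.conjTranspose_mul_mul_same J
  have hdet : (Jᴴ * Gk μ R k' * J).det.re ≤ (Gk μ R k).det.re := by
    apply det_mono _ _ hpd hJpsd
    intro c
    have e1 : qf (Jᴴ * Gk μ R k' * J) c = qf (Gk μ R k') (J *ᵥ c) := by
      unfold qf
      rw [star_mulVec, ← dotProduct_mulVec, mulVec_mulVec, mulVec_mulVec]
    rw [e1, qf_Gk hR hK hμ, qf_Gk hR hK hμ]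
    apply le_of_eq
    congr 1
    funext z
    congr 2
    have e2 : ∀ β, e n R k z β = ∑ α, J α β * e n R k' z α := fun β => (hJ2 β z).symm
    unfold sm
    simp only [mulVec, dotProduct, Finset.sum_mul]
    rw [Finset.sum_comm]
    apply Finset.sum_congr rfl
    intro β _
    rw [e2, Finset.mul_sum]
    apply Finset.sum_congr rfl
    intro α _
    ring
  have hN : 0 < NN n k := NN_pos n k
  have hμN : 0 < μ.real Set.univ + NN n k := by
    have : (0 : ℝ) < NN n k := by exact_mod_cast hN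
    have := measureReal_nonneg (μ := μ) (s := Set.univ)
    linarith
  have hM : 0 < ‖(ev (e n R k) x).det‖ := norm_pos_iff.mpr hx.ne
  have hM' : 0 < ‖(ev (e n R k') x').det‖ := norm_pos_iff.mpr hx'.ne
  have hD := det_re_pos hpd
  have hD' := det_re_pos hpd'
  have hfin : ‖(ev (e n R k) x).det‖ ^ 2 ≤ (μ.real Set.univ + NN n k) ^ NN n k' *
      (‖(ev (e n R k') x').det‖ ^ 2 / (Gk μ R k').det.re) * (Gk μ R k).det.re :=
    hstar.trans (mul_le_mul_of_nonneg_left hdet (by positivity))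
  have hlog := Real.log_le_log (by positivity) hfin
  rw [Real.log_mul (by positivity) hD.ne', Real.log_mul (by positivity) (by positivity),
    Real.log_div (by positivity) hD'.ne', Real.log_pow, Real.log_pow, Real.log_pow] at hlog
  push_cast at hlog
  linarith

end Pool.Agent.H940R3.VD
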