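import Pool.Agent.H940R3.VD.Fin2

set_option autoImplicit false

open MeasureTheory Filter Topology Metric

namespace Pool.Agent.H940R3.VD

variable {n : ℕ}

lemma VK_empty (hn : 1 ≤ n) (z : Fin n → ℂ) : VK (∅ : Set (Fin n → ℂ)) z = ⊤ := by
  rw [EReal.eq_top_iff_forall_lt]
  intro M
  haveI : NeZero n := ⟨by omega⟩
  set a : ℂ := (Real.exp (|M| + 1) : ℂ) - z 0 with ha
  set p : MvPolynomial (Fin n) ℂ := MvPolynomial.X 0 + MvPolynomial.C a with hp
  have hdeg : p.totalDegree = 1 := by
    have h1 : (MvPolynomial.C a : MvPolynomial (Fin n) ℂ).totalDegree <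
        (MvPolynomial.X 0 : MvPolynomial (Fin n) ℂ).totalDegree := by
      rw [MvPolynomial.totalDegree_C, MvPolynomial.totalDegree_X]
      exact Nat.one_pos
    rw [hp, MvPolynomial.totalDegree_add_eq_left_of_totalDegree_lt h1, MvPolynomial.totalDegree_X]
  have hev : MvPolynomial.eval z p = (Real.exp (|M| + 1) : ℂ) := by
    rw [hp, map_add, MvPolynomial.eval_X, MvPolynomial.eval_C, ha]
    ring
  have h2 : ((Real.posLog ‖MvPolynomial.eval z p‖ / p.totalDegree : ℝ) : EReal) ≤ VK ∅ z := by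
    unfold VK
    exact le_iSup_of_le p (le_iSup_of_le (by rw [hdeg]) (le_iSup_of_le (by simp) le_rfl))
  refine lt_of_lt_of_le ?_ h2
  rw [hev, hdeg, Complex.norm_real, Real.norm_of_nonneg (Real.exp_pos _).le]
  have h3 : Real.posLog (Real.exp (|M| + 1)) = |M| + 1 := by
    rw [Real.posLog, Real.log_exp]
    exact max_eq_right (by positivity)
  rw [h3]
  simp only [Nat.cast_one, div_one]
  exact_mod_cast (lt_of_le_of_lt (le_abs_self M) (lt_add_one _))

lemma VKstar_empty (hn : 1 ≤ n) (z : Fin n → ℂ) : VKstar (∅ : Set (Fin n → ℂ)) z = ⊤ := by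
  unfold VKstar
  have : VK (∅ : Set (Fin n → ℂ)) = fun _ => ⊤ := funext fun z => VK_empty hn z
  rw [this]
  exact limsup_const _

theorem final (hn : 1 ≤ n) {K : Set (Fin n → ℂ)} (hKc : IsCompact K)
    {μ : Measure (Fin n → ℂ)} [IsFiniteMeasure μ] (hμ : μ Kᶜ = 0) {δ : ℝ}
    (hδ : Tendsto (fun k => maxVdm K k ^ (1 / lk n k)) atTop (𝓝 δ)) :
    CondR K μ ↔ CondZ μ δ := by
  rcases K.eq_empty_or_nonempty with hKe | hKne
  · subst hKe
    have hμ0 : μ = 0 := by
      rw [Set.compl_empty] at hμ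
      exact Measure.measure_univ_eq_zero.mp hμ
    subst hμ0
    refine ⟨fun _ => ?_, fun _ => ?_⟩
    · have hmv : ∀ k, maxVdm (∅ : Set (Fin n → ℂ)) k = 0 := by
        intro k
        unfold maxVdm
        haveI : IsEmpty (Ix n k → (∅ : Set (Fin n → ℂ))) := by
          refine ⟨fun f => ?_⟩
          exact (f ⟨fun _ => 0, by simp⟩).2
        exact Real.iSup_of_isEmpty _
      have hZ : ∀ k, Zk (0 : Measure (Fin n → ℂ)) k = 0 := by
        intro k
        unfold Zk
        haveI : Nonempty (Ix n k) := ⟨⟨fun _ => 0, by simp⟩⟩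
        have : (Measure.pi fun _ : Ix n k => (0 : Measure (Fin n → ℂ))) = 0 := by
          apply Measure.measure_univ_eq_zero.mp
          rw [Measure.pi_univ]
          simp
        rw [this]
        simp
      have h1 : (fun k => maxVdm (∅ : Set (Fin n → ℂ)) k ^ (1 / lk n k)) =ᶠ[atTop] fun _ => 0 := by
        filter_upwards [eventually_ge_atTop 1] with k hk
        rw [hmv k]
        exact Real.zero_rpow (one_div_ne_zero (lk_pos hn hk).ne')
      have h2 : δ = 0 := tendsto_nhds_unique hδ (h1.tendsto)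
      rw [h2]
      unfold CondZ
      have h3 : (fun k => Zk (0 : Measure (Fin n → ℂ)) k ^ (1 / (2 * lk n k))) =ᶠ[atTop]
          fun _ => 0 := by
        filter_upwards [eventually_ge_atTop 1] with k hk
        rw [hZ k]
        exact Real.zero_rpow (one_div_ne_zero (by have := lk_pos hn hk; positivity))
      exact h3.tendsto
    · intro p _ _ z
      rw [VKstar_empty hn z]
      simp
  refine ⟨fun hCR => ?_, fun hZ => condR_of_condZ hn hKne hKc hμ hδ hZ⟩
  have hδ0 : 0 ≤ δ := ge_of_tendsto' hδ fun k => Real.rpow_nonneg (maxVdm_nonneg k) _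
  rcases hδ0.eq_or_lt with h | hδpos
  · rw [← h] at hδ ⊢
    exact condZ_zero hn hKne hKc hμ hδ
  · obtain ⟨R, hR, hK, H⟩ := RZ_core hn hKc hKne hμ hδpos hδ hCR
    exact condZ_of hn hR hKne hKc hK hμ hδ H

end Pool.Agent.H940R3.VD
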