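import Pool.Agent.H940R3.VD.PT
import Pool.Agent.H940R3.VD.Chain

set_option autoImplicit false

open Matrix MeasureTheory Metric Filter Topology

namespace Pool.Agent.H940R3.VD

open Pool.Agent.H805R2.Fek

variable {n : ℕ}

/-- the Lagrange polynomials of an array -/
noncomputable def LL (R : ℝ) {m : ℕ} (x : Ix n m → (Fin n → ℂ)) (z : Fin n → ℂ) : Ix n m → ℂ :=
  fun i => sm (e n R m) (fun α => (ev (e n R m) x)⁻¹ α i) z

/-- `log max (1, |ℓ_i|)` -/
noncomputable def vF (R : ℝ) {m : ℕ} (x : Ix n m → (Fin n → ℂ)) (z : Fin n → ℂ) : ℝ :=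
  Real.log (max 1 ‖LL R x z‖)

lemma LL_cont (R : ℝ) {m : ℕ} (x : Ix n m → (Fin n → ℂ)) : Continuous (LL R x) := by
  apply continuous_pi
  intro i
  exact (isP_sm R m _).continuous

lemma vF_cont (R : ℝ) {m : ℕ} (x : Ix n m → (Fin n → ℂ)) : Continuous (vF R x) := by
  unfold vF
  have := LL_cont (n := n) R x
  apply Continuous.log (by fun_prop)
  intro z
  positivity

lemma vF_nonneg (R : ℝ) {m : ℕ} (x : Ix n m → (Fin n → ℂ)) (z : Fin n → ℂ) : 0 ≤ vF R x z :=
  Real.log_nonneg (le_max_left _ _)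

lemma exp_vF (R : ℝ) {m : ℕ} (x : Ix n m → (Fin n → ℂ)) (z : Fin n → ℂ) :
    Real.exp (vF R x z) = max 1 ‖LL R x z‖ := Real.exp_log (by positivity)

lemma vF_zero {R : ℝ} {m : ℕ} {K : Set (Fin n → ℂ)} {x : Ix n m → (Fin n → ℂ)}
    (hx : Fk (e n R m) K x) {z : Fin n → ℂ} (hz : z ∈ K) : vF R x z = 0 := by
  unfold vF
  rw [max_eq_left, Real.log_one]
  rw [pi_norm_le_iff_of_nonneg zero_le_one]
  intro i
  exact lagrange hx i hz

lemma vF_adm (R : ℝ) {m : ℕ} (x : Ix n m → (Fin n → ℂ)) : Adm m (vF R x) := by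
  intro z
  rcases le_or_gt ‖LL R x z‖ 1 with h | h
  · refine ⟨fun _ => 1, (isP_const m 1), ?_, ?_⟩
    · rw [exp_vF, max_eq_left h]; simp
    · intro w
      rw [exp_vF]
      simp
  · obtain ⟨i, hi⟩ : ∃ i, ‖LL R x z‖ ≤ ‖LL R x z i‖ := by
      by_contra hcon
      push Not at hcon
      have := (pi_norm_lt_iff (lt_trans one_pos h)).mpr hcon
      exact lt_irrefl _ this
    refine ⟨fun w => LL R x w i, isP_sm R m _, ?_, ?_⟩
    · rw [exp_vF, max_eq_right h.le]; exact hi
    · intro w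
      rw [exp_vF]
      exact (norm_le_pi_norm (LL R x w) i).trans (le_max_right _ _)

lemma interp {R : ℝ} (hR : 0 < R) {m : ℕ} {K : Set (Fin n → ℂ)} {x : Ix n m → (Fin n → ℂ)}
    (hx : Fk (e n R m) K x) {g : (Fin n → ℂ) → ℂ} (hg : IsP m g) (hgK : ∀ z ∈ K, ‖g z‖ ≤ 1)
    (z : Fin n → ℂ) : ‖g z‖ ≤ NN n m * Real.exp (vF R x z) := by
  obtain ⟨c, hc⟩ := hg.coef hR
  set E := ev (e n R m) x with hE
  have hdet : IsUnit E.det := isUnit_iff_ne_zero.mpr hx.ne
  have hEc : ∀ i, (E *ᵥ c) i = g (x i) := by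
    intro i
    rw [hc]
    simp only [mulVec, dotProduct, hE, ev, Matrix.of_apply, sm]
    exact Finset.sum_congr rfl fun _ _ => mul_comm _ _
  have hcc : c = E⁻¹ *ᵥ (E *ᵥ c) := by
    rw [mulVec_mulVec, nonsing_inv_mul _ hdet, one_mulVec]
  have hexp : g z = ∑ i, g (x i) * LL R x z i := by
    rw [hc]
    unfold LL sm
    rw [← hE]
    conv_lhs => rw [hcc]
    simp only [mulVec, dotProduct, Finset.sum_mul, Finset.mul_sum]
    rw [Finset.sum_comm]
    apply Finset.sum_congr rfl
    intro i _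
    apply Finset.sum_congr rfl
    intro α _
    have := hEc i
    simp only [mulVec, dotProduct] at this
    rw [← this, Finset.sum_mul]
    apply Finset.sum_congr rfl
    intro b _
    ring
  rw [hexp]
  refine (norm_sum_le _ _).trans ?_
  calc ∑ i, ‖g (x i) * LL R x z i‖ ≤ ∑ _i : Ix n m, Real.exp (vF R x z) := by
        apply Finset.sum_le_sum
        intro i _
        rw [norm_mul]
        have h1 := hgK _ (hx.mem i)
        have h2 : ‖LL R x z i‖ ≤ Real.exp (vF R x z) := by
          rw [exp_vF]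
          exact (norm_le_pi_norm (LL R x z) i).trans (le_max_right _ _)
        calc ‖g (x i)‖ * ‖LL R x z i‖ ≤ 1 * Real.exp (vF R x z) := by gcongr
          _ = _ := one_mul _
    _ = _ := by simp [card_Ix]

theorem vF_lim {R : ℝ} (hR : 0 < R) {K : Set (Fin n → ℂ)} {R₁ C : ℝ} (h : Bd K R₁ C)
    (x : ∀ m, Ix n m → (Fin n → ℂ)) (hx : ∀ m, Fk (e n R m) K (x m)) {z : Fin n → ℂ}
    (hz : z ∈ closedBall (0 : Fin n → ℂ) R₁) {η : ℝ} (hη : 0 < η) :
    ∀ᶠ j : ℕ in atTop, Vr K z - vF R (x j.factorial) z / j.factorial ≤ η := by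
  have hlt : ((Vr K z - η / 2 : ℝ) : EReal) < VK K z := by
    rw [← h.coe hz]
    exact_mod_cast (by linarith : Vr K z - η / 2 < Vr K z)
  unfold VK at hlt
  obtain ⟨p, hp1⟩ := lt_iSup_iff.mp hlt
  obtain ⟨hp, hp2⟩ := lt_iSup_iff.mp hp1
  obtain ⟨hpK, hp3⟩ := lt_iSup_iff.mp hp2
  set d := p.totalDegree with hd
  have hp4 : Vr K z - η / 2 < Real.posLog ‖MvPolynomial.eval z p‖ / d := by exact_mod_cast hp3
  have hfac : Tendsto (fun j : ℕ => j.factorial) atTop atTop :=
    tendsto_atTop_mono (fun j => Nat.self_le_factorial j) tendsto_id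
  have e1 := hfac.eventually (log_NN n (C := 0) le_rfl (τ := η / 2) (by positivity))
  filter_upwards [e1, eventually_ge_atTop d] with j hj1 hj2
  have hdvd : d ∣ j.factorial := Nat.dvd_factorial hp hj2
  obtain ⟨a, ha⟩ := hdvd
  have hd0 : (0 : ℝ) < d := by exact_mod_cast hp
  have hj0 : (0 : ℝ) < j.factorial := by exact_mod_cast Nat.factorial_pos j
  have hP : IsP d (fun w => MvPolynomial.eval w p) := ⟨p, le_rfl, fun _ => rfl⟩
  have hg : IsP j.factorial (fun w => MvPolynomial.eval w p ^ a) :=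
    (hP.pow a).mono (by rw [ha, mul_comm])
  have h1 := interp hR (hx j.factorial) hg (by
    intro w hw
    rw [norm_pow]
    exact pow_le_one₀ (norm_nonneg _) (hpK w hw)) z
  rw [norm_pow] at h1
  have hNpos : (0 : ℝ) < NN n j.factorial := by exact_mod_cast NN_pos n _
  have hN1 : (1 : ℝ) ≤ NN n j.factorial := by exact_mod_cast NN_pos n _
  rw [zero_add] at hj1
  set v := vF R (x j.factorial) z with hv
  have hv0 : 0 ≤ v := vF_nonneg _ _ _
  have h2 : a * Real.posLog ‖MvPolynomial.eval z p‖ ≤ Real.log (NN n j.factorial) + v := by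
    have h3 : (max 1 ‖MvPolynomial.eval z p‖) ^ a ≤ NN n j.factorial * Real.exp v := by
      rcases le_total ‖MvPolynomial.eval z p‖ 1 with h4 | h4
      · rw [max_eq_left h4, one_pow]
        have := Real.one_le_exp hv0
        nlinarith
      · rw [max_eq_right h4]; exact h1
    have h5 := Real.log_le_log (by positivity) h3
    rw [Real.log_pow, Real.log_mul (by positivity) (Real.exp_pos _).ne', Real.log_exp] at h5
    rw [Real.posLog_eq_log_max_one (norm_nonneg _)]
    exact h5
  have hja : (j.factorial : ℝ) = d * a := by rw [ha]; push_cast; ring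
  have ha0 : (0 : ℝ) < a := by
    rw [hja] at hj0
    exact (mul_pos_iff_of_pos_left hd0).mp hj0
  have h6 : Real.posLog ‖MvPolynomial.eval z p‖ / d ≤
      Real.log (NN n j.factorial) / j.factorial + v / j.factorial := by
    rw [← add_div, div_le_div_iff₀ hd0 hj0, hja]
    nlinarith
  have h7 : Real.log (NN n j.factorial) / j.factorial ≤ η / 2 := by
    rw [div_le_iff₀ hj0]
    exact hj1
  linarith

theorem DK {R : ℝ} (hR : 0 < R) {K : Set (Fin n → ℂ)} {R₁ C : ℝ} (h : Bd K R₁ C)
    (x : ∀ m, Ix n m → (Fin n → ℂ)) (hx : ∀ m, Fk (e n R m) K (x m)) {R' : ℝ} (hR' : R' ≤ R₁)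
    {η : ℝ} (hη : 0 < η) :
    ∃ m : ℕ, 1 ≤ m ∧ ∫⁻ z in closedBall (0 : Fin n → ℂ) R',
      ENNReal.ofReal (Vr K z - vF R (x m) z / m) < ENNReal.ofReal η := by
  have hlim : Tendsto (fun j : ℕ => ∫⁻ z in closedBall (0 : Fin n → ℂ) R',
      ENNReal.ofReal (Vr K z - vF R (x j.factorial) z / j.factorial)) atTop
      (𝓝 (∫⁻ _z in closedBall (0 : Fin n → ℂ) R', 0)) := by
    apply tendsto_lintegral_of_dominated_convergence (fun _ => ENNReal.ofReal C)
    · intro j
      have h1 := Vr_meas K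
      have h2 := (vF_cont (n := n) R (x j.factorial)).measurable
      exact ENNReal.measurable_ofReal.comp (h1.sub (h2.div_const _))
    · intro j
      rw [EventuallyLE, ae_restrict_iff' measurableSet_closedBall]
      refine Filter.Eventually.of_forall fun z hz => ?_
      apply ENNReal.ofReal_le_ofReal
      have h1 := h.Vr_le (closedBall_subset_closedBall hR' hz)
      have h2 : 0 ≤ vF R (x j.factorial) z / j.factorial :=
        div_nonneg (vF_nonneg _ _ _) (Nat.cast_nonneg _)
      linarith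
    · rw [setLIntegral_const]
      exact ENNReal.mul_ne_top ENNReal.ofReal_ne_top measure_closedBall_lt_top.ne
    · rw [ae_restrict_iff' measurableSet_closedBall]
      refine Filter.Eventually.of_forall fun z hz => ?_
      rw [ENNReal.tendsto_nhds_zero]
      intro ε hε
      rcases eq_or_ne ε ⊤ with rfl | hεt
      · exact Filter.Eventually.of_forall fun _ => le_top
      have hε' : 0 < ε.toReal := ENNReal.toReal_pos hε.ne' hεt
      filter_upwards [vF_lim hR h x hx (closedBall_subset_closedBall hR' hz) hε'] with j hj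
      exact (ENNReal.ofReal_le_ofReal hj).trans (ENNReal.ofReal_toReal hεt).le
  simp only [lintegral_zero] at hlim
  have hlt := hlim.eventually_lt_const (show (0 : ENNReal) < ENNReal.ofReal η by
    rw [ENNReal.ofReal_pos]; exact hη)
  obtain ⟨j, hj⟩ := hlt.exists
  exact ⟨j.factorial, Nat.factorial_pos j, hj⟩

theorem DU {K : Set (Fin n → ℂ)} {R₁ C : ℝ} (h : Bd K R₁ C) {R' : ℝ}
    (hR' : R' < R₁) {w : (Fin n → ℂ) → ℝ} (hw : Measurable w) (hw0 : ∀ z, 0 ≤ w z)
    {η : ENNReal} (hη : ∫⁻ z in closedBall (0 : Fin n → ℂ) R', ENNReal.ofReal (Vr K z - w z) < η)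
    {U : ℕ → (Fin n → ℂ) → ℝ} (hU : ∀ k, Measurable (U k)) {Cb : ℝ} (hCb : ∀ k z, U k z ≤ Cb)
    (hlim : ∀ z ∈ closedBall (0 : Fin n → ℂ) R', ∀ c : ℝ, VKstar K z < (c : EReal) →
      ∀ᶠ k in atTop, U k z ≤ c) :
    ∀ᶠ k in atTop, ∫⁻ z in closedBall (0 : Fin n → ℂ) R', ENNReal.ofReal (U k z - w z) < η := by
  have h1 : limsup (fun k => ∫⁻ z in closedBall (0 : Fin n → ℂ) R',
      ENNReal.ofReal (U k z - w z)) atTop ≤ ∫⁻ z in closedBall (0 : Fin n → ℂ) R',
      limsup (fun k => ENNReal.ofReal (U k z - w z)) atTop := by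
    apply limsup_lintegral_le (fun _ => ENNReal.ofReal Cb)
    · intro k
      exact ENNReal.measurable_ofReal.comp ((hU k).sub hw)
    · intro k
      refine Filter.Eventually.of_forall fun z => ?_
      apply ENNReal.ofReal_le_ofReal
      have := hCb k z
      have := hw0 z
      linarith
    · rw [setLIntegral_const]
      exact ENNReal.mul_ne_top ENNReal.ofReal_ne_top measure_closedBall_lt_top.ne
  have h2 : ∫⁻ z in closedBall (0 : Fin n → ℂ) R',
      limsup (fun k => ENNReal.ofReal (U k z - w z)) atTop ≤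
      ∫⁻ z in closedBall (0 : Fin n → ℂ) R', ENNReal.ofReal (Vr K z - w z) := by
    apply lintegral_mono_ae
    rw [ae_restrict_iff' measurableSet_closedBall]
    filter_upwards [h.ae_eq] with z hz hzR
    have hzb : z ∈ ball (0 : Fin n → ℂ) R₁ := by
      rw [mem_closedBall_zero_iff] at hzR
      rw [mem_ball_zero_iff]
      linarith
    have h3 := hz hzb
    rw [← h.coe (ball_subset_closedBall hzb)] at h3
    have h4 : ∀ c : ℝ, Vr K z < c → limsup (fun k => ENNReal.ofReal (U k z - w z)) atTop ≤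
        ENNReal.ofReal (c - w z) := by
      intro c hc
      have h5 := hlim z hzR c (lt_of_le_of_lt h3 (by exact_mod_cast hc))
      apply limsup_le_of_le (h := ?_)
      filter_upwards [h5] with k hk
      apply ENNReal.ofReal_le_ofReal
      linarith
    have hcont : Tendsto (fun c : ℝ => ENNReal.ofReal (c - w z)) (𝓝[>] (Vr K z))
        (𝓝 (ENNReal.ofReal (Vr K z - w z))) := by
      apply Tendsto.mono_left _ nhdsWithin_le_nhds
      have : Continuous fun c : ℝ => ENNReal.ofReal (c - w z) :=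
        ENNReal.continuous_ofReal.comp (continuous_id.sub continuous_const)
      exact this.tendsto _
    exact ge_of_tendsto hcont (by
      filter_upwards [self_mem_nhdsWithin] with c hc
      exact h4 c hc)
  exact eventually_lt_of_limsup_lt (lt_of_le_of_lt (h1.trans h2) hη)

end Pool.Agent.H940R3.VD
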