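import Pool.Agent.H805R2.Gram

set_option autoImplicit false

open Matrix MeasureTheory
open scoped ComplexOrder MatrixOrder Matrix.Norms.L2Operator

namespace Pool.Agent.H940R3.VD

open Pool.Agent.H805R2.Gram

variable {ι ι' : Type*} [Fintype ι] [DecidableEq ι] [Fintype ι'] [DecidableEq ι']

lemma det_re_nonneg {H : Matrix ι ι ℂ} (hH : H.PosSemidef) : 0 ≤ H.det.re :=
  (Complex.le_def.1 hH.det_nonneg).1

lemma det_re_pos {H : Matrix ι ι ℂ} (hH : H.PosDef) : 0 < H.det.re :=
  (Complex.pos_iff.1 hH.det_pos).1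

lemma det_eq_re {H : Matrix ι ι ℂ} (hH : H.PosSemidef) : H.det = (H.det.re : ℂ) := by
  have := (Complex.le_def.1 hH.det_nonneg).2
  apply Complex.ext
  · simp
  · simpa using this.symm

lemma diag_re_nonneg {H : Matrix ι ι ℂ} (hH : H.PosSemidef) (i : ι) : 0 ≤ (H i i).re :=
  (Complex.le_def.1 (hH.diag_nonneg (i := i))).1

/-- Hadamard's inequality -/
lemma hadamard {H : Matrix ι ι ℂ} (hH : H.PosSemidef) : H.det.re ≤ ∏ i, (H i i).re := by
  by_cases h0 : H.det = 0
  · rw [h0]
    exact Finset.prod_nonneg fun i _ => diag_re_nonneg hH i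
  have hP : H.PosDef := hH.posDef_iff_det_ne_zero.mpr h0
  have hd : ∀ i, 0 < (H i i).re := fun i => (Complex.pos_iff.1 (hP.diag_pos (i := i))).1
  set s : ι → ℝ := fun i => (Real.sqrt (H i i).re)⁻¹ with hs
  have hspos : ∀ i, 0 < s i := fun i => inv_pos.mpr (Real.sqrt_pos.mpr (hd i))
  set D : Matrix ι ι ℂ := diagonal fun i => (s i : ℂ) with hD
  have hDH : Dᴴ = D := by
    rw [hD, diagonal_conjTranspose]
    congr 1
    ext i
    simp
  have hDdet : D.det = ((∏ i, s i : ℝ) : ℂ) := by rw [hD, det_diagonal]; push_cast; rfl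
  have hprod : (∏ i, s i) ≠ 0 := (Finset.prod_pos fun i _ => hspos i).ne'
  have hPS : (Dᴴ * H * D).PosSemidef := hH.conjTranspose_mul_mul_same D
  have hPD : (Dᴴ * H * D).PosDef := by
    rw [hPS.posDef_iff_det_ne_zero, det_mul, det_mul, hDH, hDdet]
    have : ((∏ i, s i : ℝ) : ℂ) ≠ 0 := by exact_mod_cast hprod
    exact mul_ne_zero (mul_ne_zero this h0) this
  have htr : (Dᴴ * H * D).trace.re = Fintype.card ι := by
    rw [hDH, trace, Complex.re_sum]
    have : ∀ i, ((D * H * D).diag i).re = 1 := by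
      intro i
      rw [diag_apply, hD, mul_diagonal, diagonal_mul]
      have e : (s i : ℂ) * H i i * (s i : ℂ) = ((s i * s i : ℝ) : ℂ) * H i i := by
        push_cast; ring
      rw [e, Complex.re_ofReal_mul, hs]
      simp only
      have h1 : (Real.sqrt (H i i).re)⁻¹ * (Real.sqrt (H i i).re)⁻¹ = ((H i i).re)⁻¹ := by
        rw [← mul_inv, Real.mul_self_sqrt (hd i).le]
      rw [h1]
      exact inv_mul_cancel₀ (hd i).ne'
    rw [Finset.sum_congr rfl fun i _ => this i]
    simp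
  have hle : (Dᴴ * H * D).det.re ≤ 1 := by
    have h1 := hPD.1.det_eq_prod_eigenvalues
    have h2 := hPD.1.trace_eq_sum_eigenvalues
    have e1 : (Dᴴ * H * D).det.re = ∏ i, hPD.1.eigenvalues i := by
      rw [h1]
      change (∏ i, ((hPD.1.eigenvalues i : ℝ) : ℂ)).re = _
      rw [← Complex.ofReal_prod, Complex.ofReal_re]
    have e2 : (Dᴴ * H * D).trace.re = ∑ i, hPD.1.eigenvalues i := by
      rw [h2]
      change (∑ i, ((hPD.1.eigenvalues i : ℝ) : ℂ)).re = _
      rw [← Complex.ofReal_sum, Complex.ofReal_re]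
    have hp := fun i => hPD.eigenvalues_pos i
    have hlog : Real.log (∏ i, hPD.1.eigenvalues i) ≤ 0 := by
      rw [Real.log_prod fun i _ => (hp i).ne']
      calc ∑ i, Real.log (hPD.1.eigenvalues i) ≤ ∑ i, (hPD.1.eigenvalues i - 1) :=
            Finset.sum_le_sum fun i _ => Real.log_le_sub_one_of_pos (hp i)
        _ = 0 := by
          rw [Finset.sum_sub_distrib, ← e2, htr]
          simp
    rw [e1]
    have hpp : 0 < ∏ i, hPD.1.eigenvalues i := Finset.prod_pos fun i _ => hp i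
    by_contra hcon
    push Not at hcon
    have := Real.log_pos hcon
    linarith
  have e3 : (Dᴴ * H * D).det.re = (∏ i, s i) ^ 2 * H.det.re := by
    rw [det_mul, det_mul, hDH, hDdet]
    have e : ((∏ i, s i : ℝ) : ℂ) * H.det * ((∏ i, s i : ℝ) : ℂ) =
        (((∏ i, s i) ^ 2 : ℝ) : ℂ) * H.det := by push_cast; ring
    rw [e, Complex.re_ofReal_mul]
  have e4 : (∏ i, s i) ^ 2 = (∏ i, (H i i).re)⁻¹ := by
    rw [← Finset.prod_pow, ← Finset.prod_inv_distrib]
    apply Finset.prod_congr rfl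
    intro i _
    rw [hs]
    simp only
    rw [inv_pow, Real.sq_sqrt (hd i).le]
  rw [e3, e4] at hle
  have hpos : 0 < ∏ i, (H i i).re := Finset.prod_pos fun i _ => hd i
  rw [inv_mul_le_iff₀ hpos, mul_one] at hle
  exact hle

/-- `det A ≤ det (1 + A)` -/
lemma det_le_one_add {A : Matrix ι ι ℂ} (hA : A.PosSemidef) : A.det.re ≤ (1 + A).det.re := by
  have hP : (1 + A).PosDef := Matrix.PosDef.one.add_posSemidef hA
  apply det_mono (1 + A) A hP hA
  intro c
  unfold qf
  rw [add_mulVec, dotProduct_add, one_mulVec, Complex.add_re]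
  have : 0 ≤ (star c ⬝ᵥ c).re := (Complex.le_def.1 (dotProduct_star_self_nonneg c)).1
  linarith

/-- Cauchy-Schwarz inequality for determinants -/
lemma cb {G : Matrix ι ι ℂ} (hG : G.PosDef) (E : Matrix ι' ι ℂ) (J : Matrix ι ι' ℂ) :
    ‖(E * J).det‖ ^ 2 ≤ (E * G⁻¹ * Eᴴ).det.re * (Jᴴ * G * J).det.re := by
  have hGi : G⁻¹.PosDef := hG.inv
  have hB : (E * G⁻¹ * Eᴴ).PosSemidef := hGi.posSemidef.mul_mul_conjTranspose_same E
  have hA : (Jᴴ * G * J).PosSemidef := hG.posSemidef.conjTranspose_mul_mul_same J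
  by_cases h0 : (E * J).det = 0
  · rw [h0, norm_zero]
    have := mul_nonneg (det_re_nonneg hB) (det_re_nonneg hA)
    simpa using this
  -- J is injective
  have hApd : (Jᴴ * G * J).PosDef := by
    refine Matrix.PosDef.of_dotProduct_mulVec_pos hA.1 ?_
    intro x hx
    have hJx : J *ᵥ x ≠ 0 := by
      intro h
      apply h0
      apply Matrix.exists_mulVec_eq_zero_iff.mp
      exact ⟨x, hx, by rw [← mulVec_mulVec, h, mulVec_zero]⟩
    have := hG.dotProduct_mulVec_pos hJx
    rw [star_mulVec, ← dotProduct_mulVec, mulVec_mulVec, mulVec_mulVec] at this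
    simpa [Matrix.mul_assoc] using this
  set A := Jᴴ * G * J with hAdef
  have hAinv : A⁻¹.PosDef := hApd.inv
  -- Schur complement
  have hschur : (G⁻¹ - J * A⁻¹ * Jᴴ).PosSemidef := by
    have hGd : IsUnit G.det := by
      rw [isUnit_iff_ne_zero]; exact hG.det_pos.ne'
    have : Invertible A := Matrix.invertibleOfIsUnitDet A (by
      rw [isUnit_iff_ne_zero]; exact hApd.det_pos.ne')
    have h1 := Matrix.PosDef.fromBlocks₁₁ (A := A) Jᴴ G⁻¹ hApd
    rw [conjTranspose_conjTranspose] at h1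
    rw [← h1]
    have e : fromBlocks A Jᴴ J G⁻¹ = (fromCols J G⁻¹)ᴴ * G * (fromCols J G⁻¹) := by
      rw [conjTranspose_fromCols_eq_fromRows_conjTranspose, fromRows_mul, fromRows_mul_fromCols]
      have hGiH : (G⁻¹)ᴴ = G⁻¹ := hGi.1
      rw [hGiH, nonsing_inv_mul _ hGd, Matrix.one_mul, Matrix.one_mul, Matrix.mul_assoc Jᴴ G G⁻¹,
        mul_nonsing_inv _ hGd, Matrix.mul_one, hAdef]
    rw [e]
    exact hG.posSemidef.conjTranspose_mul_mul_same _
  -- compare
  set F := E * J with hF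
  have hC : (F * A⁻¹ * Fᴴ).PosDef := by
    have hPS : (F * A⁻¹ * Fᴴ).PosSemidef := hAinv.posSemidef.mul_mul_conjTranspose_same F
    rw [hPS.posDef_iff_det_ne_zero, det_mul, det_mul, det_conjTranspose]
    exact mul_ne_zero (mul_ne_zero h0 hAinv.det_pos.ne') (by simpa using h0)
  have hdiff : (E * G⁻¹ * Eᴴ - F * A⁻¹ * Fᴴ).PosSemidef := by
    have := hschur.mul_mul_conjTranspose_same E
    have e : E * (G⁻¹ - J * A⁻¹ * Jᴴ) * Eᴴ = E * G⁻¹ * Eᴴ - F * A⁻¹ * Fᴴ := by
      rw [Matrix.mul_sub, Matrix.sub_mul, hF, conjTranspose_mul]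
      simp only [Matrix.mul_assoc]
    rwa [e] at this
  have hBpd : (E * G⁻¹ * Eᴴ).PosDef := by
    have := hC.add_posSemidef hdiff
    rwa [add_sub_cancel] at this
  have hle := det_mono (E * G⁻¹ * Eᴴ) (F * A⁻¹ * Fᴴ) hBpd hC.posSemidef (by
    intro c
    have := hdiff.dotProduct_mulVec_nonneg c
    rw [sub_mulVec, dotProduct_sub] at this
    have h2 := (Complex.le_def.1 this).1
    rw [Complex.zero_re, Complex.sub_re] at h2
    unfold qf
    linarith)
  have e5 : (F * A⁻¹ * Fᴴ).det.re * A.det.re = ‖F.det‖ ^ 2 := by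
    have h1 : (F * A⁻¹ * Fᴴ).det * A.det = ((‖F.det‖ ^ 2 : ℝ) : ℂ) := by
      rw [det_mul, det_mul, det_conjTranspose, det_nonsing_inv]
      have hAd : A.det ≠ 0 := hApd.det_pos.ne'
      rw [Ring.inverse_eq_inv']
      have : F.det * (A.det)⁻¹ * star F.det * A.det = F.det * star F.det := by
        field_simp
      rw [this, Complex.star_def, Complex.mul_conj, Complex.normSq_eq_norm_sq]
    have h2 := det_eq_re hApd.posSemidef
    have h3 := congrArg Complex.re h1
    rw [h2, mul_comm, Complex.re_ofReal_mul, Complex.ofReal_re] at h3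
    linarith
  rw [← e5]
  exact mul_le_mul_of_nonneg_right hle (det_re_nonneg hA)

end Pool.Agent.H940R3.VD
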