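import Pool.Agent.H940R3.VD.Bdd

set_option autoImplicit false

open Matrix MeasureTheory Metric Filter Topology
open scoped ComplexOrder MatrixOrder Matrix.Norms.L2Operator

namespace Pool.Agent.H940R3.VD

open Pool.Agent.H805R2.Gram Pool.Agent.H805R2.Fek

variable {n : ℕ}

/-- lower bound for Vandermonde determinants on `K` -/
def Low (K : Set (Fin n → ℂ)) (R a : ℝ) : Prop :=
  ∀ᶠ k : ℕ in atTop, ∃ x : Ix n k → (Fin n → ℂ), (∀ j, x j ∈ K) ∧
    a ^ SS n k ≤ ‖(ev (e n R k) x).det‖ ^ 2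

lemma bounded_aux {R : ℝ} (hR : 0 < R) {K : Set (Fin n → ℂ)} (hK : K ⊆ closedBall 0 R)
    {a : ℝ} (ha : 0 < a) (hlow : Low K R a) {R₁ : ℝ} (hR₁ : R₁ + 2 ≤ R) :
    ∃ C : ℝ, 0 ≤ C ∧ ∀ (d₀ : ℕ), 1 ≤ d₀ → ∀ p : (Fin n → ℂ) → ℂ, IsP d₀ p → (∀ z ∈ K, ‖p z‖ ≤ 1) →
      ∀ z ∈ closedBall (0 : Fin n → ℂ) R₁, ‖p z‖ ≤ Real.exp (C * d₀) := by
  obtain ⟨cR, hcR, hcore⟩ := core n hR
  set L₀ := |Real.log (cR * ((volume (ball (0 : Fin n → ℂ) (1 * 1))).toReal / 4))| with hL₀
  have hL₀0 : 0 ≤ L₀ := abs_nonneg _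
  set A : ℝ := (2 : ℝ) ^ n with hA
  have hA0 : 0 < A := by positivity
  refine ⟨2 + L₀ / 2 + A * (4 + |Real.log a|), by positivity, ?_⟩
  intro d₀ hd₀ p hp hpK z₀ hz₀
  by_cases hpz : p z₀ = 0
  · rw [hpz, norm_zero]; exact (Real.exp_pos _).le
  have hpz' : 0 < ‖p z₀‖ := norm_pos_iff.mpr hpz
  -- choose a large power
  have hev1 : ∀ᶠ j : ℕ in atTop, Real.log ((0 : ℝ) + NN n j) ≤ 1 * j := log_NN n le_rfl one_pos
  obtain ⟨k₁, hk₁⟩ := eventually_atTop.mp hev1
  obtain ⟨k₂, hk₂⟩ := eventually_atTop.mp hlow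
  set t := k₁ + k₂ + 1 with ht
  set d := t * d₀ with hd
  have hdt : t ≤ d := Nat.le_mul_of_pos_right _ (by omega)
  obtain ⟨x, hxK, hxlow⟩ := hk₂ (d + d) (by omega)
  have hlogk := hk₁ (d + d) (by omega)
  rw [zero_add] at hlogk
  have hne : (ev (e n R (d + d)) x).det ≠ 0 := by
    intro h0
    rw [h0, norm_zero] at hxlow
    have : 0 < a ^ SS n (d + d) := by positivity
    linarith [show (0 : ℝ) ^ 2 = 0 by norm_num]
  obtain ⟨w, hw⟩ := fk_of (K := closedBall (0 : Fin n → ℂ) R) (isCompact_closedBall 0 R)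
    (fun j => hK (hxK j)) hne
  set f : (Fin n → ℂ) → ℂ := fun z => p z ^ t with hf
  have hfP : IsP d f := hp.pow t
  have hN1 : (1 : ℝ) ≤ NN n (d + d) := by exact_mod_cast NN_pos n (d + d)
  set s := Real.sqrt (NN n (d + d)) with hs
  have hs0 : 0 < s := Real.sqrt_pos.mpr (by linarith)
  have hfs : ∫ z, ‖f z‖ ^ 2 ∂(cnt x) ≤ s ^ 2 := by
    rw [cnt_integral x (by have := hfP.continuous; fun_prop), hs, Real.sq_sqrt (by linarith)]
    calc ∑ j, ‖f (x j)‖ ^ 2 ≤ ∑ _j : Ix n (d + d), (1 : ℝ) := by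
          apply Finset.sum_le_sum
          intro j _
          have h1 := hpK (x j) (hxK j)
          rw [hf]
          simp only
          rw [norm_pow]
          apply pow_le_one₀ (by positivity)
          exact pow_le_one₀ (by positivity) h1
      _ = NN n (d + d) := by simp [card_Ix]
  have hd1 : (1 : ℝ) ≤ d := by
    have : 1 ≤ d := by omega
    exact_mod_cast this
  set c := (Real.log ‖f z₀‖ - Real.log s) / d with hc
  have hfz : 0 < ‖f z₀‖ := by
    rw [hf]
    simp only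
    rw [norm_pow]
    positivity
  have hcd : Real.exp (c * d) * s ≤ ‖f z₀‖ := by
    rw [hc, div_mul_cancel₀ _ (by linarith), Real.exp_sub, Real.exp_log hfz, Real.exp_log hs0,
      div_mul_cancel₀ _ hs0.ne']
  have hmain := hcore (closedBall 0 R) le_rfl (cnt x)
    (cnt_compl measurableSet_closedBall fun j => hK (hxK j)) d d (Gk_cnt_posDef hne) w hw f hfP z₀
    s hs0 hfs c hcd 1 1 0 one_pos one_pos le_rfl (by
      rw [one_mul]
      have := Real.log_le_sub_one_of_pos (show (0 : ℝ) < 2 by norm_num)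
      linarith) (by
      intro g _ S hS hg z hz
      rw [zero_mul, Real.exp_zero, one_mul]
      apply hg
      rw [mem_closedBall_zero_iff] at hz₀ ⊢
      rw [mem_closedBall, dist_eq_norm] at hz
      calc ‖z‖ = ‖(z - z₀) + z₀‖ := by simp
        _ ≤ ‖z - z₀‖ + ‖z₀‖ := norm_add_le _ _
        _ ≤ R := by linarith)
  rw [Gk_cnt_det, cnt_univ] at hmain
  have hNm : (1 : ℝ) ≤ NN n d := by exact_mod_cast NN_pos n d
  have hNk : (NN n (d + d) : ℝ) ≤ A * NN n d := by
    have := NN_two_pow n 1 (k := d + d) (m := d) (by omega)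
    rw [pow_one] at this
    rw [hA]
    exact_mod_cast this
  have hSSl : -(d * NN n d * L₀) ≤ SS n d *
      Real.log (cR * ((volume (ball (0 : Fin n → ℂ) (1 * 1))).toReal / 4)) := by
    have h6 := neg_abs_le (Real.log (cR * ((volume (ball (0 : Fin n → ℂ) (1 * 1))).toReal / 4)))
    have h7 := SS_le n d
    have h8 : (0 : ℝ) ≤ SS n d := Nat.cast_nonneg _
    rw [← hL₀] at h6
    nlinarith
  have hdetx : 0 < ‖(ev (e n R (d + d)) x).det‖ ^ 2 := by
    have := norm_pos_iff.mpr hne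
    positivity
  have hdetw : 0 < ‖(ev (e n R (d + d)) w).det‖ := norm_pos_iff.mpr hw.ne
  have hY : Real.log (‖(ev (e n R (d + d)) w).det‖ ^ 2 / ‖(ev (e n R (d + d)) x).det‖ ^ 2) ≤
      NN n (d + d) * (2 * (d + d)) + (d + d) * NN n (d + d) * |Real.log a| := by
    rw [Real.log_div (by positivity) hdetx.ne', Real.log_pow]
    have h1 : Real.log ‖(ev (e n R (d + d)) w).det‖ ≤ NN n (d + d) * (d + d) := by
      calc Real.log ‖(ev (e n R (d + d)) w).det‖ ≤ Real.log ((NN n (d + d) : ℝ) ^ NN n (d + d)) :=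
            Real.log_le_log hdetw (det_le_pow hR hw.mem)
        _ = NN n (d + d) * Real.log (NN n (d + d)) := Real.log_pow _ _
        _ ≤ NN n (d + d) * (d + d) := by
            gcongr
            push_cast at hlogk
            linarith
    have h2 : -((d + d) * NN n (d + d) * |Real.log a|) ≤
        Real.log (‖(ev (e n R (d + d)) x).det‖ ^ 2) := by
      have h3 : SS n (d + d) * Real.log a ≤ Real.log (‖(ev (e n R (d + d)) x).det‖ ^ 2) := by
        rw [← Real.log_pow]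
        exact Real.log_le_log (by positivity) hxlow
      have h4 := neg_abs_le (Real.log a)
      have h5 := SS_le n (d + d)
      push_cast at h5
      have h6 : (0 : ℝ) ≤ SS n (d + d) := Nat.cast_nonneg _
      have h7 := abs_nonneg (Real.log a)
      nlinarith
    push_cast
    linarith
  have hlog2 : Real.log ((NN n (d + d) : ℝ) + NN n d) ≤ 2 * (d + d) := by
    have h1 : (NN n d : ℝ) ≤ NN n (d + d) := by exact_mod_cast NN_mono n (by omega)
    calc Real.log ((NN n (d + d) : ℝ) + NN n d) ≤ Real.log (2 * NN n (d + d)) :=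
          Real.log_le_log (by linarith) (by linarith)
      _ = Real.log 2 + Real.log (NN n (d + d)) := Real.log_mul (by norm_num) (by positivity)
      _ ≤ _ := by
          have := Real.log_le_sub_one_of_pos (show (0 : ℝ) < 2 by norm_num)
          push_cast at hlogk
          linarith
  set B := |Real.log a| with hB
  have hB0 : 0 ≤ B := abs_nonneg _
  have h20 : 2 * (d * (c - 1)) ≤ d * L₀ + A * (4 * (d + d)) + A * ((d + d) * B) := by
    have h21 : (NN n (d + d) : ℝ) * Real.log ((NN n (d + d) : ℝ) + NN n d) ≤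
        A * NN n d * (2 * (d + d)) := by
      calc (NN n (d + d) : ℝ) * Real.log ((NN n (d + d) : ℝ) + NN n d) ≤
            NN n (d + d) * (2 * (d + d)) := by gcongr
        _ ≤ _ := by gcongr
    have h22 : NN n (d + d) * (2 * ((d : ℝ) + d)) + (d + d) * NN n (d + d) * B ≤
        (A * NN n d) * (2 * (d + d)) + (d + d) * (A * NN n d) * B := by gcongr
    have h23 : (2 * (d * (c - 1))) * NN n d ≤
        (d * L₀ + A * (4 * (d + d)) + A * ((d + d) * B)) * NN n d := by
      push_cast at hmain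
      nlinarith
    exact le_of_mul_le_mul_right h23 (by linarith)
  have h24 : c ≤ 1 + L₀ / 2 + A * (4 + B) := by
    have h25 : d * c ≤ d * (1 + L₀ / 2 + A * (4 + B)) := by nlinarith
    exact le_of_mul_le_mul_left h25 (by linarith)
  have h26 : Real.log s ≤ d := by
    rw [hs, Real.log_sqrt (by linarith)]
    push_cast at hlogk
    linarith
  have h27 : Real.log ‖f z₀‖ = t * Real.log ‖p z₀‖ := by
    rw [hf]
    simp only
    rw [norm_pow, Real.log_pow]
  have h28 : t * Real.log ‖p z₀‖ ≤ t * (d₀ * (2 + L₀ / 2 + A * (4 + B))) := by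
    have h29 : (Real.log ‖f z₀‖ - Real.log s) ≤ (1 + L₀ / 2 + A * (4 + B)) * d := by
      rw [hc, div_le_iff₀ (by linarith)] at h24
      exact h24
    have hdd : (d : ℝ) = t * d₀ := by rw [hd]; push_cast; ring
    rw [← h27]
    calc Real.log ‖f z₀‖ ≤ (1 + L₀ / 2 + A * (4 + B)) * d + d := by linarith
      _ = _ := by rw [hdd]; ring
  have ht0 : (0 : ℝ) < t := by
    have : 0 < t := by omega
    exact_mod_cast this
  have h30 := le_of_mul_le_mul_left h28 ht0
  rw [← Real.log_le_iff_le_exp hpz']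
  linarith

lemma gr_of_unit {K A : Set (Fin n → ℂ)} (hKne : K.Nonempty) {C : ℝ} (_hC : 0 ≤ C)
    (h : ∀ (d₀ : ℕ), 1 ≤ d₀ → ∀ p : (Fin n → ℂ) → ℂ, IsP d₀ p → (∀ z ∈ K, ‖p z‖ ≤ 1) →
      ∀ z ∈ A, ‖p z‖ ≤ Real.exp (C * d₀)) : Gr K C A := by
  intro k g hg S hS hgS z hz
  rcases Nat.eq_zero_or_pos k with rfl | hk
  · -- constant
    obtain ⟨w, hw⟩ := hKne
    obtain ⟨p, hp, hp2⟩ := hg
    have hp3 : p = MvPolynomial.C (p.coeff 0) :=
      MvPolynomial.totalDegree_eq_zero_iff_eq_C.mp (Nat.le_zero.mp hp)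
    have h1 : g z = g w := by
      rw [← hp2, ← hp2, hp3]
      simp
    rw [h1]
    simpa using hgS w hw
  · have key : ∀ t : ℝ, 0 < t → ‖g z‖ ≤ Real.exp (C * k) * (S + t) := by
      intro t ht
      have hSt : 0 < S + t := by linarith
      have h1 := h k hk (fun z => (((S + t : ℝ) : ℂ)⁻¹) * g z) (hg.const_mul _) (by
        intro w hw
        rw [norm_mul, norm_inv, Complex.norm_real, Real.norm_of_nonneg hSt.le,
          inv_mul_le_iff₀ hSt, mul_one]
        have := hgS w hw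
        linarith) z hz
      rw [norm_mul, norm_inv, Complex.norm_real, Real.norm_of_nonneg hSt.le,
        inv_mul_le_iff₀ hSt] at h1
      linarith
    have hE := Real.exp_pos (C * k)
    apply le_of_forall_pos_le_add
    intro ε hε
    have := key (ε / Real.exp (C * k)) (by positivity)
    rw [mul_add, mul_div_cancel₀ _ hE.ne'] at this
    exact this

theorem bounded {R : ℝ} (hR : 0 < R) {K : Set (Fin n → ℂ)} (hK : K ⊆ closedBall 0 R)
    (hKne : K.Nonempty) {a : ℝ} (ha : 0 < a) (hlow : Low K R a) {R₁ : ℝ} (hR₁ : R₁ + 2 ≤ R) :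
    ∃ C : ℝ, 0 ≤ C ∧ Gr K C (closedBall 0 R₁) := by
  obtain ⟨C, hC, h⟩ := bounded_aux hR hK ha hlow hR₁
  exact ⟨C, hC, gr_of_unit hKne hC h⟩

/-- local finiteness of the extremal function gives the lower bound -/
theorem low_of_gr {R : ℝ} (hR : 0 < R) {K : Set (Fin n → ℂ)} (hK : IsCompact K)
    (hKne : K.Nonempty) {z₀ : Fin n → ℂ} {r c : ℝ} (hr : 0 < r)
    (hg : Gr K c (closedBall z₀ r)) :
    ∃ a : ℝ, 0 < a ∧ ∀ (k : ℕ) (M : ℝ),
      (∀ x : Ix n k → (Fin n → ℂ), (∀ j, x j ∈ K) → ‖(ev (e n R k) x).det‖ ≤ M) →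
      a ^ SS n k ≤ M ^ 2 := by
  obtain ⟨cR, hcR, hfek⟩ := fekete' n hR
  set v := (volume (closedBall z₀ r)).toReal with hv
  have hvfin : volume (closedBall z₀ r) ≠ ⊤ := measure_closedBall_lt_top.ne
  have hv0 : 0 < v := ENNReal.toReal_pos (measure_closedBall_pos _ _ hr).ne' hvfin
  refine ⟨cR * v * Real.exp (-2 * c * (n + 1)), by positivity, ?_⟩
  intro k M hM
  obtain ⟨y, hy, hy2⟩ := hfek _ measurableSet_closedBall v hv0 (ENNReal.ofReal_toReal hvfin).symm k
  have h1 := det_growth hK hKne (R := R) (k := k) (A := Real.exp (c * k)) (Real.exp_pos _).le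
    (y := y) (fun g hg' S hS h b => hg k g hg' S hS h (y b) (hy b)) hM
  have h2 : (SS n k : ℝ) * (n + 1) = k * NN n k := by exact_mod_cast SS_mul n k
  have h3 : (cR * v) ^ SS n k ≤ (Real.exp (c * k) ^ NN n k) ^ 2 * M ^ 2 := by
    refine hy2.trans ?_
    rw [← mul_pow]
    gcongr
  have h4 : (Real.exp (c * k) ^ NN n k) ^ 2 = Real.exp (-2 * c * (n + 1)) ^ (-(SS n k : ℤ)) := by
    rw [_root_.zpow_neg, zpow_natCast, ← Real.exp_nat_mul, ← Real.exp_nat_mul, ← Real.exp_nat_mul,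
      ← Real.exp_neg]
    congr 1
    push_cast
    linear_combination (-2 * c) * h2
  have h5 : Real.exp (-2 * c * (n + 1)) ^ SS n k * (Real.exp (c * k) ^ NN n k) ^ 2 = 1 := by
    rw [h4, _root_.zpow_neg, zpow_natCast]
    exact mul_inv_cancel₀ (by positivity)
  calc (cR * v * Real.exp (-2 * c * (n + 1))) ^ SS n k
      = Real.exp (-2 * c * (n + 1)) ^ SS n k * (cR * v) ^ SS n k := by rw [mul_pow]; ring
    _ ≤ Real.exp (-2 * c * (n + 1)) ^ SS n k * ((Real.exp (c * k) ^ NN n k) ^ 2 * M ^ 2) := by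
        gcongr
    _ = M ^ 2 := by rw [← mul_assoc, h5, one_mul]

end Pool.Agent.H940R3.VD
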