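import Pool.Agent.H940R3.VD.Andr

set_option autoImplicit false

open Matrix Metric
open scoped MonomialOrder

namespace Pool.Agent.H940R3.VD

open Pool.Agent.H805R2.Fek

variable {n : ℕ}

/-- exponent as finitely supported function -/
noncomputable def fs {k : ℕ} (α : Ix n k) : Fin n →₀ ℕ :=
  Finsupp.equivFunOnFinite.symm (fun i => (α.1 i : ℕ))

lemma fs_apply {k : ℕ} (α : Ix n k) (i : Fin n) : fs α i = (α.1 i : ℕ) := rfl

lemma fs_inj {k : ℕ} : Function.Injective (fs : Ix n k → (Fin n →₀ ℕ)) := by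
  intro a b hab
  have := Finsupp.equivFunOnFinite.symm.injective hab
  apply Subtype.ext
  funext i
  exact Fin.ext (congrFun this i)

/-- evaluation in scaled variables -/
noncomputable def evR (R : ℝ) (p : MvPolynomial (Fin n) ℂ) (z : Fin n → ℂ) : ℂ :=
  MvPolynomial.eval (fun i => z i / (R : ℂ)) p

lemma evR_monomial {k : ℕ} (R : ℝ) (α : Ix n k) (z : Fin n → ℂ) :
    evR R (MvPolynomial.monomial (fs α) 1) z = e n R k z α := by
  unfold evR e
  rw [MvPolynomial.eval_monomial, one_mul, Finsupp.prod_fintype _ _ (by simp)]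
  rfl

lemma evR_eq {k : ℕ} (R : ℝ) {p : MvPolynomial (Fin n) ℂ} (hp : p.totalDegree ≤ k)
    (z : Fin n → ℂ) : evR R p z = ∑ α : Ix n k, p.coeff (fs α) * e n R k z α := by
  unfold evR
  rw [eval_eq]
  have hsub : p.support ⊆ Finset.univ.image (fs : Ix n k → (Fin n →₀ ℕ)) := by
    intro m hm
    have h2 := MvPolynomial.le_totalDegree hm
    have h3 : m.sum (fun _ e => e) = ∑ i : Fin n, m i := Finsupp.sum_fintype _ _ (by simp)
    rw [h3] at h2
    have h4 : ∑ i : Fin n, m i ≤ k := h2.trans hp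
    rw [Finset.mem_image]
    have h5 : ∀ i, m i ≤ k := fun i =>
      (Finset.single_le_sum (fun j _ => Nat.zero_le (m j)) (Finset.mem_univ i)).trans h4
    refine ⟨⟨fun i => ⟨m i, by have := h5 i; omega⟩, h4⟩, Finset.mem_univ _, ?_⟩
    ext i
    rfl
  rw [Finset.sum_subset hsub (fun m _ hm => by
    rw [MvPolynomial.notMem_support_iff.mp hm, zero_mul]), Finset.sum_image (fun a _ b _ h => fs_inj h)]
  rfl

lemma isP_evR {k : ℕ} (R : ℝ) {p : MvPolynomial (Fin n) ℂ} (hp : p.totalDegree ≤ k) :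
    IsP k (evR R p) := by
  have : evR R p = sm (e n R k) (fun α => p.coeff (fs α)) := by
    funext z
    rw [evR_eq R hp]
    rfl
  rw [this]
  exact isP_sm R k _

/-- `f` is monic with leading exponent `a` -/
def Lead (m : MonomialOrder (Fin n)) (a : Fin n →₀ ℕ) (f : MvPolynomial (Fin n) ℂ) : Prop :=
  m.degree f ≼[m] a ∧ f.coeff a = 1

lemma Lead.mul {m : MonomialOrder (Fin n)} {a b : Fin n →₀ ℕ} {f g : MvPolynomial (Fin n) ℂ}
    (hf : Lead m a f) (hg : Lead m b g) : Lead m (a + b) (f * g) := by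
  constructor
  · refine (m.degree_mul_le).trans ?_
    rw [map_add, map_add]
    exact add_le_add hf.1 hg.1
  · rw [m.coeff_mul_of_add_of_degree_le hf.1 hg.1, hf.2, hg.2, one_mul]

lemma Lead.one {m : MonomialOrder (Fin n)} : Lead m 0 (1 : MvPolynomial (Fin n) ℂ) := by
  constructor
  · rw [m.degree_one]
  · simp

lemma Lead.pow {m : MonomialOrder (Fin n)} {a : Fin n →₀ ℕ} {f : MvPolynomial (Fin n) ℂ}
    (hf : Lead m a f) (j : ℕ) : Lead m (j • a) (f ^ j) := by
  induction j with
  | zero => simpa using Lead.one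
  | succ j ih =>
    rw [pow_succ, succ_nsmul]
    exact ih.mul hf

lemma Lead.monomial {m : MonomialOrder (Fin n)} (a : Fin n →₀ ℕ) :
    Lead m a (MvPolynomial.monomial a (1 : ℂ)) :=
  ⟨m.degree_monomial_le 1, by simp⟩

/-- change of basis to a family of monic polynomials -/
lemma det_lead (m : MonomialOrder (Fin n)) {k : ℕ} (R : ℝ) (q : Ix n k → MvPolynomial (Fin n) ℂ)
    (hq : ∀ α, Lead m (fs α) (q α)) (hd : ∀ α, (q α).totalDegree ≤ k)
    (x : Ix n k → (Fin n → ℂ)) :
    (Matrix.of fun j α => evR R (q α) (x j)).det = (ev (e n R k) x).det := by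
  have h1 : (Matrix.of fun j α => evR R (q α) (x j)) =
      ev (e n R k) x * Matrix.of (fun α' α => (q α).coeff (fs α')) := by
    ext j α
    simp only [Matrix.of_apply, Matrix.mul_apply, ev]
    rw [evR_eq R (hd α)]
    exact Finset.sum_congr rfl fun _ _ => mul_comm _ _
  rw [h1, det_mul]
  have h2 : (Matrix.of (fun α' α : Ix n k => (q α).coeff (fs α'))).det = 1 := by
    letI : LinearOrder (Ix n k) := LinearOrder.lift' (fun α : Ix n k => m.toSyn (fs α))
      (fun a b h => fs_inj (m.toSyn.injective h))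
    rw [Matrix.det_of_upperTriangular]
    · apply Finset.prod_eq_one
      intro α _
      exact (hq α).2
    · intro i j hij
      have hlt : m.toSyn (fs j) < m.toSyn (fs i) := hij
      simp only [Matrix.of_apply]
      exact m.coeff_eq_zero_of_lt (lt_of_le_of_lt (hq j).1 hlt)
  rw [h2, mul_one]

lemma det_lead_le (m : MonomialOrder (Fin n)) {k : ℕ} (R : ℝ)
    (q : Ix n k → MvPolynomial (Fin n) ℂ)
    (hq : ∀ α, Lead m (fs α) (q α)) (hd : ∀ α, (q α).totalDegree ≤ k)
    (x : Ix n k → (Fin n → ℂ)) (S : Ix n k → ℝ) (hS : ∀ α j, ‖evR R (q α) (x j)‖ ≤ S α) :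
    ‖(ev (e n R k) x).det‖ ≤ (NN n k : ℝ) ^ NN n k * ∏ α, S α := by
  rw [← det_lead m R q hq hd, ← det_transpose, Matrix.det_apply]
  refine (norm_sum_le _ _).trans ?_
  have h2 : ∀ σ : Equiv.Perm (Ix n k),
      ‖Equiv.Perm.sign σ • ∏ i, (Matrix.of fun j α => evR R (q α) (x j))ᵀ (σ i) i‖ ≤
        ∏ α, S α := by
    intro σ
    have h3 : ‖∏ i, (Matrix.of fun j α => evR R (q α) (x j))ᵀ (σ i) i‖ ≤ ∏ α, S α := by
      rw [norm_prod, ← Equiv.prod_comp σ S]
      apply Finset.prod_le_prod (fun i _ => norm_nonneg _)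
      intro i _
      exact hS (σ i) i
    rcases Int.units_eq_one_or (Equiv.Perm.sign σ) with h | h <;> rw [h] <;> simpa using h3
  refine (Finset.sum_le_sum fun σ _ => h2 σ).trans ?_
  rw [Finset.sum_const, Finset.card_univ, Fintype.card_perm, card_Ix, nsmul_eq_mul]
  have hSp : 0 ≤ ∏ α, S α := by
    have h4 : Nonempty (Ix n k) := ⟨⟨fun _ => 0, by simp⟩⟩
    apply Finset.prod_nonneg
    intro α _
    exact (norm_nonneg _).trans (hS α (Classical.arbitrary _))
  apply mul_le_mul_of_nonneg_right _ hSp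
  exact_mod_cast Nat.factorial_le_pow (NN n k)

end Pool.Agent.H940R3.VD
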