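import Pool.Agent.H940R3.VD.Outer1

set_option autoImplicit false

open Matrix Metric
open scoped MonomialOrder

namespace Pool.Agent.H940R3.VD

open Pool.Agent.H805R2.Fek

variable {n : ℕ}

lemma greedy_step (m : MonomialOrder (Fin n)) {K : Set (Fin n → ℂ)} (hKc : IsCompact K)
    (hKne : K.Nonempty) (R : ℝ) (k₀ N : ℕ)
    (hne : ∀ c : Ix n k₀ → ℂ, c ≠ 0 → ∃ z ∈ K, sm (e n R k₀) c z ≠ 0)
    (a : ℕ → Ix n k₀) (ha : ∀ i j, i < j → j < N → m.toSyn (fs (a i)) < m.toSyn (fs (a j))) :
    ∀ t, t ≤ N → ∃ (x : ℕ → (Fin n → ℂ)) (q : ℕ → MvPolynomial (Fin n) ℂ) (S : ℕ → ℝ),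
      (∀ i < t, x i ∈ K ∧ Lead m (fs (a i)) (q i) ∧ (q i).totalDegree ≤ k₀ ∧ 0 < S i ∧
        ∀ z ∈ K, ‖evR R (q i) z‖ ≤ S i) ∧
      ‖(Matrix.of fun i j : Fin t => e n R k₀ (x i) (a j)).det‖ = ∏ i ∈ Finset.range t, S i := by
  intro t
  induction t with
  | zero =>
    intro _
    exact ⟨fun _ => 0, fun _ => 0, fun _ => 0, by simp, by simp⟩
  | succ t ih =>
    intro ht
    obtain ⟨x, q, S, h1, h2⟩ := ih (by omega)
    set D := (Matrix.of fun i j : Fin t => e n R k₀ (x i) (a j)).det with hD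
    have hprod : 0 < ∏ i ∈ Finset.range t, S i :=
      Finset.prod_pos fun i hi => (h1 i (Finset.mem_range.mp hi)).2.2.2.1
    have hD0 : D ≠ 0 := by
      rw [← h2] at hprod
      exact norm_pos_iff.mp hprod
    let c : Fin (t + 1) → ℂ := fun j =>
      (Matrix.of fun i l : Fin t => e n R k₀ (x i) (a (j.succAbove l))).det
    have hclast : c (Fin.last t) = D := by
      simp only [c, hD, Fin.succAbove_last, Fin.val_castSucc]
    set v : Fin (t + 1) → ℂ := fun j => (-1) ^ (t + (j : ℕ)) * c j / D with hv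
    set Q : MvPolynomial (Fin n) ℂ := ∑ j : Fin (t + 1), MvPolynomial.monomial (fs (a j)) (v j)
      with hQ
    have hvlast : v (Fin.last t) = 1 := by
      simp only [hv, hclast, Fin.val_last]
      rw [← two_mul, pow_mul]
      simp [hD0]
    have hinj : ∀ j : Fin (t + 1), fs (a j) = fs (a t) → j = Fin.last t := by
      intro j hj
      by_contra hcon
      have hlt : (j : ℕ) < t := by
        have := j.2
        have h3 : (j : ℕ) ≠ t := fun h => hcon (Fin.ext (by simpa using h))
        omega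
      have := ha j t hlt (by omega)
      rw [hj] at this
      exact lt_irrefl _ this
    have hQcoef : Q.coeff (fs (a t)) = 1 := by
      rw [hQ, MvPolynomial.coeff_sum, Finset.sum_eq_single (Fin.last t)]
      · rw [MvPolynomial.coeff_monomial, hvlast]
        simp
      · intro j _ hj
        rw [MvPolynomial.coeff_monomial, if_neg]
        exact fun h => hj (hinj j h)
      · simp
    have hQdeg : m.degree Q ≼[m] fs (a t) := by
      rw [m.degree_le_iff]
      intro b hb
      rw [MvPolynomial.mem_support_iff, hQ, MvPolynomial.coeff_sum] at hb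
      obtain ⟨j, _, hj⟩ := Finset.exists_ne_zero_of_sum_ne_zero hb
      rw [MvPolynomial.coeff_monomial] at hj
      have hjb : fs (a j) = b := by
        by_contra hcon
        rw [if_neg hcon] at hj
        exact hj rfl
      rw [← hjb]
      rcases Nat.lt_or_ge (j : ℕ) t with hlt | hge
      · exact (ha j t hlt (by omega)).le
      · have : (j : ℕ) = t := by have := j.2; omega
        rw [this]
    have hQtot : Q.totalDegree ≤ k₀ := by
      rw [hQ]
      refine (MvPolynomial.totalDegree_finsetSum _ _).trans ?_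
      apply Finset.sup_le
      intro j _
      refine (MvPolynomial.totalDegree_monomial_le _ _).trans ?_
      rw [Finsupp.sum_fintype _ _ (by simp)]
      exact (a j).2
    have hdet : ∀ z, (Matrix.of fun i j : Fin (t + 1) =>
        e n R k₀ (if (i : ℕ) < t then x i else z) (a j)).det = D * evR R Q z := by
      intro z
      rw [Matrix.det_succ_row _ (Fin.last t)]
      have e1 : evR R Q z = ∑ j : Fin (t + 1), v j * e n R k₀ z (a j) := by
        rw [hQ]
        unfold evR
        rw [map_sum]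
        apply Finset.sum_congr rfl
        intro j _
        rw [MvPolynomial.eval_monomial, Finsupp.prod_fintype _ _ (by simp)]
        rfl
      rw [e1, Finset.mul_sum]
      apply Finset.sum_congr rfl
      intro j _
      have e2 : ((Matrix.of fun i j : Fin (t + 1) =>
          e n R k₀ (if (i : ℕ) < t then x i else z) (a j)).submatrix
            (Fin.last t).succAbove j.succAbove) =
          Matrix.of fun i l : Fin t => e n R k₀ (x i) (a (j.succAbove l)) := by
        ext i l
        simp only [submatrix_apply, Matrix.of_apply, Fin.succAbove_last, Fin.val_castSucc]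
        rw [if_pos i.2]
      rw [e2]
      simp only [Matrix.of_apply, Fin.val_last, lt_self_iff_false, if_false, hv]
      change (-1) ^ (t + (j : ℕ)) * e n R k₀ z (a j) * c j = _
      field_simp
    have hcQ : Continuous (evR R Q) := (isP_evR (k := k₀) R hQtot).continuous
    obtain ⟨z, hzK, hmax⟩ := hKc.exists_isMaxOn hKne hcQ.norm.continuousOn
    have hpos : 0 < ‖evR R Q z‖ := by
      obtain ⟨w, hw, hw2⟩ := hne (fun α => Q.coeff (fs α)) (by
        intro h
        have := congrFun h (a t)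
        simp only [Pi.zero_apply] at this
        rw [hQcoef] at this
        exact one_ne_zero this)
      have h3 : ‖evR R Q w‖ ≤ ‖evR R Q z‖ := hmax hw
      have h4 : evR R Q w ≠ 0 := by
        rw [evR_eq R hQtot]
        exact hw2
      exact (norm_pos_iff.mpr h4).trans_le h3
    refine ⟨fun i => if i < t then x i else z, fun i => if i < t then q i else Q,
      fun i => if i < t then S i else ‖evR R Q z‖, ?_, ?_⟩
    · intro i hi
      by_cases hit : i < t
      · simp only [if_pos hit]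
        exact h1 i hit
      · have hit2 : i = t := by omega
        subst hit2
        simp only [lt_self_iff_false, if_false]
        exact ⟨hzK, ⟨hQdeg, hQcoef⟩, hQtot, hpos, fun w hw => hmax hw⟩
    · rw [hdet z, norm_mul, h2, Finset.prod_range_succ]
      congr 1
      · apply Finset.prod_congr rfl
        intro i hi
        rw [if_pos (Finset.mem_range.mp hi)]
      · rw [if_neg (lt_irrefl t)]

lemma greedy (m : MonomialOrder (Fin n)) {K : Set (Fin n → ℂ)} (hKc : IsCompact K)
    (hKne : K.Nonempty) (R : ℝ) (k₀ : ℕ)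
    (hne : ∀ c : Ix n k₀ → ℂ, c ≠ 0 → ∃ z ∈ K, sm (e n R k₀) c z ≠ 0) {M : ℝ}
    (hM : ∀ y : Ix n k₀ → (Fin n → ℂ), (∀ j, y j ∈ K) → ‖(ev (e n R k₀) y).det‖ ≤ M) :
    ∃ (q : Ix n k₀ → MvPolynomial (Fin n) ℂ) (S : Ix n k₀ → ℝ),
      (∀ α, Lead m (fs α) (q α)) ∧ (∀ α, (q α).totalDegree ≤ k₀) ∧ (∀ α, 0 < S α) ∧
      (∀ α, ∀ z ∈ K, ‖evR R (q α) z‖ ≤ S α) ∧ ∏ α, S α ≤ M := by
  classical
  let ord : LinearOrder (Ix n k₀) := LinearOrder.lift' (fun α : Ix n k₀ => m.toSyn (fs α))
      (fun a b h => fs_inj (m.toSyn.injective h))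
  set N := Fintype.card (Ix n k₀) with hN
  let s := @monoEquivOfFin (Ix n k₀) _ ord N hN.symm
  have hs : ∀ i j : Fin N, i < j → m.toSyn (fs (s i)) < m.toSyn (fs (s j)) := by
    intro i j hij
    exact (@OrderIso.lt_iff_lt (Fin N) (Ix n k₀) _ ord.toPreorder s i j).mpr hij
  have i₀ : Ix n k₀ := ⟨fun _ => 0, by simp⟩
  let a : ℕ → Ix n k₀ := fun i => if h : i < N then s ⟨i, h⟩ else i₀
  obtain ⟨x, q, S, h1, h2⟩ := greedy_step m hKc hKne R k₀ N hne a (by
    intro i j hij hj
    have hi : i < N := hij.trans hj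
    simp only [a, dif_pos hi, dif_pos hj]
    exact hs _ _ hij) N le_rfl
  let se : Fin N ≃ Ix n k₀ := s.toEquiv
  have hase : ∀ i : Fin N, a i = se i := by
    intro i
    simp only [a, dif_pos i.2]
    rfl
  have hfs : ∀ α, fs (a (se.symm α : Fin N)) = fs α := by
    intro α
    rw [hase, Equiv.apply_symm_apply]
  refine ⟨fun α => q (se.symm α : Fin N), fun α => S (se.symm α : Fin N), ?_, ?_, ?_, ?_, ?_⟩
  · intro α
    have := (h1 _ (se.symm α).2).2.1
    rwa [hfs] at this
  · intro α
    exact (h1 _ (se.symm α).2).2.2.1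
  · intro α
    exact (h1 _ (se.symm α).2).2.2.2.1
  · intro α
    exact (h1 _ (se.symm α).2).2.2.2.2
  · have e1 : ∏ α, S (se.symm α : Fin N) = ∏ i ∈ Finset.range N, S i := by
      rw [← Fin.prod_univ_eq_prod_range, ← Equiv.prod_comp se]
      simp
    rw [e1, ← h2]
    have e2 := hM (fun α => x (se.symm α : Fin N)) (fun α => (h1 _ (se.symm α).2).1)
    rw [← Matrix.det_submatrix_equiv_self se] at e2
    have e3 : ((ev (e n R k₀) fun α => x (se.symm α : Fin N)).submatrix se se) =
        Matrix.of fun i j : Fin N => e n R k₀ (x i) (a j) := by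
      ext i j
      simp only [submatrix_apply, ev, Matrix.of_apply, Equiv.symm_apply_apply, hase]
    rw [e3] at e2
    exact e2

lemma prod_bound (m : MonomialOrder (Fin n)) {K' : Set (Fin n → ℂ)} {R : ℝ} (hR : 0 < R)
    (hK' : K' ⊆ closedBall 0 R) {k₀ j k : ℕ} (hjk : j * (k₀ + n) ≤ k)
    (q : Ix n k₀ → MvPolynomial (Fin n) ℂ) (S : Ix n k₀ → ℝ)
    (hq : ∀ α, Lead m (fs α) (q α)) (hqd : ∀ α, (q α).totalDegree ≤ k₀)
    (hS : ∀ α, ∀ z ∈ K', ‖evR R (q α) z‖ ≤ S α) {x : Ix n k → (Fin n → ℂ)} (hx : ∀ b, x b ∈ K') :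
    ‖(ev (e n R k) x).det‖ ≤ (NN n k : ℝ) ^ NN n k * (∏ β, S β) ^ (j ^ (n + 1)) := by
  classical
  have hsum : ∀ p : Ix n k₀ × (Fin n → Fin j),
      ∑ i, (j * (p.1.1 i : ℕ) + (p.2 i : ℕ)) ≤ k := by
    intro p
    rw [Finset.sum_add_distrib, ← Finset.mul_sum]
    have h1 : ∑ i, (p.2 i : ℕ) ≤ ∑ _i : Fin n, j := Finset.sum_le_sum fun i _ => (p.2 i).2.le
    simp only [Finset.sum_const, Finset.card_univ, Fintype.card_fin, smul_eq_mul] at h1
    have h2 := p.1.2
    have h3 : j * ∑ i, (p.1.1 i : ℕ) ≤ j * k₀ := Nat.mul_le_mul_left _ h2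
    nlinarith
  let Φ : Ix n k₀ × (Fin n → Fin j) → Ix n k := fun p =>
    ⟨fun i => ⟨j * (p.1.1 i : ℕ) + (p.2 i : ℕ), by
      have h1 := hsum p
      have h2 := Finset.single_le_sum (f := fun i => j * (p.1.1 i : ℕ) + (p.2 i : ℕ))
        (fun i _ => Nat.zero_le _) (Finset.mem_univ i)
      exact Nat.lt_succ_of_le (h2.trans h1)⟩, hsum p⟩
  have hΦv : ∀ p i, ((Φ p).1 i : ℕ) = j * (p.1.1 i : ℕ) + (p.2 i : ℕ) := fun p i => rfl
  have hΦ : Function.Injective Φ := by
    intro p p' h
    have h1 : ∀ i, j * (p.1.1 i : ℕ) + (p.2 i : ℕ) = j * (p'.1.1 i : ℕ) + (p'.2 i : ℕ) := by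
      intro i
      rw [← hΦv, ← hΦv, h]
    have h2 : ∀ i, (p.1.1 i : ℕ) = (p'.1.1 i : ℕ) ∧ (p.2 i : ℕ) = (p'.2 i : ℕ) := by
      intro i
      have hj : 0 < j := lt_of_le_of_lt (Nat.zero_le _) (p.2 i).2
      have h3 := congrArg (· / j) (h1 i)
      simp only [Nat.mul_add_div hj, Nat.div_eq_of_lt (p.2 i).2, Nat.div_eq_of_lt (p'.2 i).2,
        add_zero] at h3
      refine ⟨h3, ?_⟩
      have h4 := h1 i
      rw [h3] at h4
      omega
    apply Prod.ext
    · apply Subtype.ext
      funext i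
      exact Fin.ext (h2 i).1
    · funext i
      exact Fin.ext (h2 i).2
  let γs : (Fin n → Fin j) → (Fin n →₀ ℕ) := fun γ =>
    Finsupp.equivFunOnFinite.symm (fun i => (γ i : ℕ))
  have hfsΦ : ∀ p, fs (Φ p) = j • fs p.1 + γs p.2 := by
    intro p
    ext i
    rfl
  set q' : Ix n k → MvPolynomial (Fin n) ℂ := Function.extend Φ
    (fun p => q p.1 ^ j * MvPolynomial.monomial (γs p.2) 1)
    (fun α => MvPolynomial.monomial (fs α) 1) with hq'
  set S' : Ix n k → ℝ := Function.extend Φ (fun p => S p.1 ^ j) (fun _ => 1) with hS'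
  have hle1 : ∀ b i, ‖x b i / (R : ℂ)‖ ≤ 1 := by
    intro b i
    have := hK' (hx b)
    rw [mem_closedBall_zero_iff] at this
    rw [norm_div, Complex.norm_real, Real.norm_of_nonneg hR.le, div_le_one hR]
    exact (norm_le_pi_norm _ i).trans this
  have hmain := det_lead_le m R q' ?_ ?_ x S' ?_
  · refine hmain.trans ?_
    apply mul_le_mul_of_nonneg_left _ (by positivity)
    apply le_of_eq
    have e1 : ∏ α, S' α = ∏ α ∈ Finset.univ.image Φ, S' α := by
      symm
      apply Finset.prod_subset (Finset.subset_univ _)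
      intro α _ hα
      rw [hS', Function.extend_apply']
      rintro ⟨p, hp⟩
      exact hα (Finset.mem_image.mpr ⟨p, Finset.mem_univ _, hp⟩)
    rw [e1, Finset.prod_image (fun a _ b _ h => hΦ h)]
    have e2 : ∀ p, S' (Φ p) = S p.1 ^ j := fun p => hΦ.extend_apply _ _ p
    rw [Finset.prod_congr rfl fun p _ => e2 p, Fintype.prod_prod_type]
    simp only [Finset.prod_const, Finset.card_univ, Fintype.card_fun, Fintype.card_fin]
    rw [Finset.prod_pow, Finset.prod_pow, ← pow_mul]
    congr 1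
    ring
  · intro α
    by_cases h : ∃ p, Φ p = α
    · obtain ⟨p, rfl⟩ := h
      rw [hq', hΦ.extend_apply, hfsΦ]
      exact ((hq p.1).pow j).mul (Lead.monomial _)
    · rw [hq', Function.extend_apply' _ _ _ h]
      exact Lead.monomial _
  · intro α
    by_cases h : ∃ p, Φ p = α
    · obtain ⟨p, rfl⟩ := h
      rw [hq', hΦ.extend_apply]
      refine (MvPolynomial.totalDegree_mul _ _).trans ?_
      have h1 : (q p.1 ^ j).totalDegree ≤ j * k₀ :=
        (MvPolynomial.totalDegree_pow _ _).trans (Nat.mul_le_mul_left j (hqd p.1))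
      have h2 : (MvPolynomial.monomial (γs p.2) (1 : ℂ)).totalDegree ≤ n * j := by
        refine (MvPolynomial.totalDegree_monomial_le _ _).trans ?_
        rw [Finsupp.sum_fintype _ _ (by simp)]
        have h3 : ∑ i, (p.2 i : ℕ) ≤ ∑ _i : Fin n, j := Finset.sum_le_sum fun i _ => (p.2 i).2.le
        change ∑ i, (p.2 i : ℕ) ≤ n * j
        simpa using h3
      nlinarith
    · rw [hq', Function.extend_apply' _ _ _ h]
      refine (MvPolynomial.totalDegree_monomial_le _ _).trans ?_
      rw [Finsupp.sum_fintype _ _ (by simp)]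
      exact α.2
  · intro α b
    by_cases h : ∃ p, Φ p = α
    · obtain ⟨p, rfl⟩ := h
      rw [hq', hΦ.extend_apply, hS', hΦ.extend_apply]
      unfold evR
      rw [map_mul, map_pow, norm_mul, norm_pow]
      have h1 : ‖MvPolynomial.eval (fun i => x b i / (R : ℂ)) (q p.1)‖ ≤ S p.1 := hS p.1 _ (hx b)
      have h2 : ‖MvPolynomial.eval (fun i => x b i / (R : ℂ))
          (MvPolynomial.monomial (γs p.2) 1)‖ ≤ 1 := by
        rw [MvPolynomial.eval_monomial, one_mul, Finsupp.prod_fintype _ _ (by simp), norm_prod]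
        apply Finset.prod_le_one (fun i _ => norm_nonneg _)
        intro i _
        rw [norm_pow]
        exact pow_le_one₀ (norm_nonneg _) (hle1 b i)
      have h0 : 0 ≤ S p.1 := (norm_nonneg _).trans h1
      calc _ ≤ S p.1 ^ j * 1 := by gcongr
        _ = _ := mul_one _
    · rw [hq', Function.extend_apply' _ _ _ h, hS', Function.extend_apply' _ _ _ h, evR_monomial]
      have := hK' (hx b)
      rw [mem_closedBall_zero_iff] at this
      exact norm_e_le hR this α

end Pool.Agent.H940R3.VD
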