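import Pool.Agent.H940R3.VD.Outer2
import Pool.Agent.H940R3.VD.Conv

set_option autoImplicit false

open Matrix Metric Filter Topology
open scoped MonomialOrder

namespace Pool.Agent.H940R3.VD

open Pool.Agent.H805R2.Fek

variable {n : ℕ}

lemma SS_lower (n k : ℕ) : (k : ℝ) ^ (n + 1) ≤ (n + 1).factorial * SS n k := by
  have h := Nat.pow_sub_le_descFactorial (n + k) (n + 1)
  have h2 : n + k + 1 - (n + 1) = k := by omega
  rw [h2, Nat.descFactorial_eq_factorial_mul_choose] at h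
  unfold SS
  exact_mod_cast h

lemma SS_upper (n k : ℕ) : ((n + 1).factorial : ℝ) * SS n k ≤ ((n : ℝ) + k) ^ (n + 1) := by
  have h := Nat.descFactorial_le_pow (n + k) (n + 1)
  rw [Nat.descFactorial_eq_factorial_mul_choose] at h
  unfold SS
  exact_mod_cast h

lemma SS_j (n : ℕ) {j k₀ k : ℕ} (h : j * (k₀ + n) ≤ k) :
    ((j ^ (n + 1) : ℕ) : ℝ) * SS n k₀ ≤ SS n k := by
  have hf : (0 : ℝ) < (n + 1).factorial := by exact_mod_cast Nat.factorial_pos _
  have h1 := SS_upper n k₀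
  have h2 := SS_lower n k
  have h3 : ((j : ℝ) * ((n : ℝ) + k₀)) ^ (n + 1) ≤ (k : ℝ) ^ (n + 1) := by
    apply pow_le_pow_left₀ (by positivity)
    have : ((j * (k₀ + n) : ℕ) : ℝ) ≤ k := by exact_mod_cast h
    push_cast at this
    linarith
  push_cast
  have h4 : ((n + 1).factorial : ℝ) * ((j : ℝ) ^ (n + 1) * SS n k₀) ≤ (n + 1).factorial * SS n k := by
    calc ((n + 1).factorial : ℝ) * ((j : ℝ) ^ (n + 1) * SS n k₀) =
          (j : ℝ) ^ (n + 1) * ((n + 1).factorial * SS n k₀) := by ring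
      _ ≤ (j : ℝ) ^ (n + 1) * ((n : ℝ) + k₀) ^ (n + 1) := by gcongr
      _ = ((j : ℝ) * ((n : ℝ) + k₀)) ^ (n + 1) := by rw [mul_pow]
      _ ≤ (k : ℝ) ^ (n + 1) := h3
      _ ≤ _ := h2
  exact le_of_mul_le_mul_left h4 hf

lemma SS_jl (n : ℕ) {s : ℝ} (hs : 0 < s) (hs1 : s ≤ 1) :
    ∀ᶠ k₀ : ℕ in atTop, ∀ᶠ k : ℕ in atTop,
      (1 - s) * SS n k ≤ (((k / (k₀ + n)) ^ (n + 1) : ℕ) : ℝ) * SS n k₀ := by
  set s' : ℝ := s / (n + 1) with hs'
  have hs'0 : 0 < s' := by positivity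
  have hs'1 : s' ≤ 1 := by
    rw [hs', div_le_one (by positivity)]
    have : (0 : ℝ) ≤ n := Nat.cast_nonneg n
    linarith
  have e1 : ∀ᶠ k₀ : ℕ in atTop, 2 * n / s' ≤ k₀ :=
    tendsto_natCast_atTop_atTop.eventually_ge_atTop _
  filter_upwards [e1, eventually_ge_atTop 1] with k₀ hk₀ hk₀1
  have e2 : ∀ᶠ k : ℕ in atTop, (k₀ + n) / (s' / 2) ≤ (k : ℝ) :=
    tendsto_natCast_atTop_atTop.eventually_ge_atTop _
  filter_upwards [e2] with k hk
  have hk₀' : (1 : ℝ) ≤ k₀ := by exact_mod_cast hk₀1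
  have hn0 : (0 : ℝ) ≤ n := Nat.cast_nonneg n
  have hf : (0 : ℝ) < (n + 1).factorial := by exact_mod_cast Nat.factorial_pos _
  set j := k / (k₀ + n) with hj
  have hj1 : (k : ℝ) ≤ (j + 1) * (k₀ + n) := by
    have h3 := Nat.lt_mul_div_succ k (b := k₀ + n) (by omega)
    have h4 : k ≤ (j + 1) * (k₀ + n) := by rw [hj]; nlinarith
    exact_mod_cast h4
  rw [div_le_iff₀ (by positivity)] at hk hk₀
  have hkey : (1 - s') * ((n : ℝ) + k) ≤ j * k₀ := by
    have h5 : (k : ℝ) * k₀ ≤ (j * k₀ + k₀) * (k₀ + n) := by nlinarith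
    -- k k0 / (k0+n) ≥ (1 - s'/2) k
    have h6 : (1 - s' / 2) * k * (k₀ + n) ≤ k * k₀ := by
      have : (0 : ℝ) ≤ k := Nat.cast_nonneg k
      nlinarith
    have h7 : (1 - s' / 2) * k ≤ j * k₀ + k₀ := by
      have h8 : (1 - s' / 2) * k * (k₀ + n) ≤ (j * k₀ + k₀) * (k₀ + n) := h6.trans h5
      exact le_of_mul_le_mul_right h8 (by positivity)
    nlinarith
  have h9 : (1 - s) ≤ (1 - s') ^ (n + 1) := by
    have h10 := one_add_mul_le_pow (a := -s') (by linarith) (n + 1)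
    have h11 : ((n + 1 : ℕ) : ℝ) * (-s') = -s := by
      rw [hs']; push_cast; field_simp
    rw [h11] at h10
    simpa [sub_eq_add_neg] using h10
  have h12 := SS_upper n k
  have h13 := SS_lower n k₀
  push_cast
  have h14 : ((n + 1).factorial : ℝ) * ((1 - s) * SS n k) ≤
      (n + 1).factorial * ((j : ℝ) ^ (n + 1) * SS n k₀) := by
    calc ((n + 1).factorial : ℝ) * ((1 - s) * SS n k) =
          (1 - s) * ((n + 1).factorial * SS n k) := by ring
      _ ≤ (1 - s) * ((n : ℝ) + k) ^ (n + 1) := by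
          apply mul_le_mul_of_nonneg_left h12 (by linarith)
      _ ≤ (1 - s') ^ (n + 1) * ((n : ℝ) + k) ^ (n + 1) := by gcongr
      _ = ((1 - s') * ((n : ℝ) + k)) ^ (n + 1) := by rw [mul_pow]
      _ ≤ (j * k₀) ^ (n + 1) := by
          apply pow_le_pow_left₀ _ hkey
          apply mul_nonneg (by linarith) (by positivity)
      _ = (j : ℝ) ^ (n + 1) * (k₀ : ℝ) ^ (n + 1) := by rw [mul_pow]
      _ ≤ (j : ℝ) ^ (n + 1) * ((n + 1).factorial * SS n k₀) := by gcongr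
      _ = _ := by ring
  exact le_of_mul_le_mul_left h14 hf

end Pool.Agent.H940R3.VD
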