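import Pool.Agent.H940R3.VD.ZR
import Pool.Agent.H940R3.Flow.Hartogs

set_option autoImplicit false

open MeasureTheory Metric Filter Topology

namespace Pool.Agent.H940R3.VD

open Pool.Agent.H940R3.Flow

variable {n : ℕ}

lemma VK_meas (K : Set (Fin n → ℂ)) : Measurable (VK K) := by
  unfold VK
  apply LowerSemicontinuous.measurable
  apply lowerSemicontinuous_iSup
  intro p
  apply lowerSemicontinuous_iSup
  intro _
  apply lowerSemicontinuous_iSup
  intro _
  apply Continuous.lowerSemicontinuous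
  apply continuous_coe_real_ereal.comp
  have h1 : Continuous fun z : Fin n → ℂ => MvPolynomial.eval z p := MvPolynomial.continuous_eval p
  apply Continuous.div_const
  exact Real.continuous_posLog.comp h1.norm

/-- real valued version -/
noncomputable def Vr (K : Set (Fin n → ℂ)) (z : Fin n → ℂ) : ℝ := (VK K z).toReal

lemma Vr_meas (K : Set (Fin n → ℂ)) : Measurable (Vr K) :=
  measurable_ereal_toReal.comp (VK_meas K)

/-- standing assumptions: `V_K` is bounded on a ball -/
structure Bd (K : Set (Fin n → ℂ)) (R₁ C : ℝ) : Prop where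
  nn : ∀ z, 0 ≤ VK K z
  le : ∀ z ∈ closedBall (0 : Fin n → ℂ) R₁, VK K z ≤ (C : EReal)

lemma Bd.coe {K : Set (Fin n → ℂ)} {R₁ C : ℝ} (h : Bd K R₁ C) {z : Fin n → ℂ}
    (hz : z ∈ closedBall (0 : Fin n → ℂ) R₁) : ((Vr K z : ℝ) : EReal) = VK K z := by
  apply EReal.coe_toReal
  · exact (lt_of_le_of_lt (h.le z hz) (EReal.coe_lt_top C)).ne
  · exact (lt_of_lt_of_le EReal.bot_lt_zero (h.nn z)).ne'

lemma Bd.Vr_nonneg {K : Set (Fin n → ℂ)} {R₁ C : ℝ} (h : Bd K R₁ C) (z : Fin n → ℂ) :
    0 ≤ Vr K z := EReal.toReal_nonneg (h.nn z)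

lemma Bd.Vr_le {K : Set (Fin n → ℂ)} {R₁ C : ℝ} (h : Bd K R₁ C) {z : Fin n → ℂ}
    (hz : z ∈ closedBall (0 : Fin n → ℂ) R₁) : Vr K z ≤ C := by
  have h1 := h.le z hz
  rw [← h.coe hz] at h1
  exact_mod_cast h1

lemma Bd.posLog_le {K : Set (Fin n → ℂ)} {R₁ C : ℝ} (h : Bd K R₁ C) {z : Fin n → ℂ}
    (hz : z ∈ closedBall (0 : Fin n → ℂ) R₁) {p : MvPolynomial (Fin n) ℂ}
    (hp : 1 ≤ p.totalDegree) (hpK : ∀ w ∈ K, ‖MvPolynomial.eval w p‖ ≤ 1) :
    Real.posLog ‖MvPolynomial.eval z p‖ ≤ p.totalDegree * Vr K z := by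
  have h2 : ((Real.posLog ‖MvPolynomial.eval z p‖ / p.totalDegree : ℝ) : EReal) ≤ VK K z := by
    unfold VK
    exact le_iSup_of_le p (le_iSup_of_le hp (le_iSup_of_le hpK le_rfl))
  rw [← h.coe hz] at h2
  have h3 : Real.posLog ‖MvPolynomial.eval z p‖ / p.totalDegree ≤ Vr K z := by exact_mod_cast h2
  have h4 : (0 : ℝ) < p.totalDegree := by exact_mod_cast hp
  rw [div_le_iff₀ h4] at h3
  linarith

lemma Bd.submean {K : Set (Fin n → ℂ)} {R₁ C : ℝ} (h : Bd K R₁ C) {ζ : Fin n → ℂ} {ρ : ℝ}
    (hρ : 0 < ρ) (hsub : closedBall ζ ρ ⊆ closedBall 0 R₁) :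
    Vr K ζ * (volume (ball (0 : Fin n → ℂ) ρ)).toReal ≤
      ∫ x in ball (0 : Fin n → ℂ) ρ, Vr K (ζ + x) := by
  set B := ball (0 : Fin n → ℂ) ρ with hB
  set V := (volume B).toReal with hV
  have hVpos : 0 < V := ENNReal.toReal_pos (measure_ball_pos _ _ hρ).ne' measure_ball_lt_top.ne
  set I := ∫ x in B, Vr K (ζ + x) with hI
  have hin : ∀ x ∈ B, ζ + x ∈ closedBall (0 : Fin n → ℂ) R₁ := by
    intro x hx
    apply hsub
    rw [hB, mem_ball_zero_iff] at hx
    rw [mem_closedBall, dist_eq_norm, add_sub_cancel_left]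
    exact hx.le
  have hζ : ζ ∈ closedBall (0 : Fin n → ℂ) R₁ := hsub (mem_closedBall_self hρ.le)
  have hint : IntegrableOn (fun x => Vr K (ζ + x)) B := by
    refine Measure.integrableOn_of_bounded (M := C) measure_ball_lt_top.ne
      ((Vr_meas K).comp (measurable_const_add ζ)).aestronglyMeasurable ?_
    rw [ae_restrict_iff' measurableSet_ball]
    refine Filter.Eventually.of_forall fun x hx => ?_
    rw [Real.norm_of_nonneg (h.Vr_nonneg _)]
    exact h.Vr_le (hin x hx)
  have key : ∀ p : MvPolynomial (Fin n) ℂ, 1 ≤ p.totalDegree →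
      (∀ w ∈ K, ‖MvPolynomial.eval w p‖ ≤ 1) →
      Real.posLog ‖MvPolynomial.eval ζ p‖ / p.totalDegree ≤ I / V := by
    intro p hp hpK
    set d := p.totalDegree with hd
    have hd0 : (0 : ℝ) < d := by exact_mod_cast hp
    have hP : IsP d (fun w => MvPolynomial.eval w p) := ⟨p, le_rfl, fun _ => rfl⟩
    have hlog2 : 0 < Real.log 2 := Real.log_pos (by norm_num)
    have ha : ∀ a : ℕ, 1 ≤ a → Real.posLog ‖MvPolynomial.eval ζ p‖ / d * V ≤
        I + Real.log 2 * V / (2 * (a * d)) := by
      intro a ha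
      have ha0 : (0 : ℝ) < a := by exact_mod_cast ha
      have h1 := submean_log (hP.pow a) one_pos ζ ρ
      have hexp : ∀ w : Fin n → ℂ, Real.exp (Real.posLog ‖MvPolynomial.eval w p‖) =
          max 1 ‖MvPolynomial.eval w p‖ := by
        intro w
        rw [Real.posLog_eq_log_max_one (norm_nonneg _), Real.exp_log (by positivity)]
      have hlow : 2 * a * Real.posLog ‖MvPolynomial.eval ζ p‖ ≤
          Real.log (‖MvPolynomial.eval ζ p ^ a‖ ^ 2 + 1) := by
        rw [Real.posLog_eq_log_max_one (norm_nonneg _)]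
        have e1 : 2 * a * Real.log (max 1 ‖MvPolynomial.eval ζ p‖) =
            Real.log ((max 1 ‖MvPolynomial.eval ζ p‖) ^ (2 * a)) := by
          rw [Real.log_pow]; push_cast; ring
        rw [e1]
        apply Real.log_le_log (by positivity)
        rcases le_total ‖MvPolynomial.eval ζ p‖ 1 with h2 | h2
        · rw [max_eq_left h2, one_pow]
          have : (0 : ℝ) ≤ ‖MvPolynomial.eval ζ p ^ a‖ ^ 2 := by positivity
          linarith
        · rw [max_eq_right h2, norm_pow, ← pow_mul, mul_comm a 2]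
          linarith
      have hup : ∀ x ∈ B, Real.log (‖MvPolynomial.eval (ζ + x) p ^ a‖ ^ 2 + 1) ≤
          Real.log 2 + 2 * a * d * Vr K (ζ + x) := by
        intro x hx
        have h3 := h.posLog_le (hin x hx) hp hpK
        have h4 : ‖MvPolynomial.eval (ζ + x) p ^ a‖ ^ 2 + 1 ≤
            2 * (max 1 ‖MvPolynomial.eval (ζ + x) p‖) ^ (2 * a) := by
          have h5 : ‖MvPolynomial.eval (ζ + x) p ^ a‖ ^ 2 ≤
              (max 1 ‖MvPolynomial.eval (ζ + x) p‖) ^ (2 * a) := by
            rw [norm_pow, ← pow_mul, mul_comm a 2]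
            gcongr
            exact le_max_right _ _
          have h6 : 1 ≤ (max 1 ‖MvPolynomial.eval (ζ + x) p‖) ^ (2 * a) :=
            one_le_pow₀ (le_max_left _ _)
          linarith
        calc Real.log (‖MvPolynomial.eval (ζ + x) p ^ a‖ ^ 2 + 1)
            ≤ Real.log (2 * (max 1 ‖MvPolynomial.eval (ζ + x) p‖) ^ (2 * a)) :=
              Real.log_le_log (by positivity) h4
          _ = Real.log 2 + 2 * a * Real.posLog ‖MvPolynomial.eval (ζ + x) p‖ := by
              rw [Real.log_mul (by norm_num) (by positivity), Real.log_pow,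
                Real.posLog_eq_log_max_one (norm_nonneg _)]
              push_cast
              ring
          _ ≤ _ := by nlinarith
      have hi3 : ∫ x in B, Real.log (‖MvPolynomial.eval (ζ + x) p ^ a‖ ^ 2 + 1) ≤
          ∫ x in B, (Real.log 2 + 2 * a * d * Vr K (ζ + x)) := by
        apply setIntegral_mono_on _ _ measurableSet_ball hup
        · have hcp := (hP.pow a).continuous
          have hcon : Continuous fun x => Real.log (‖MvPolynomial.eval (ζ + x) p ^ a‖ ^ 2 + 1) := by
            have h7 : Continuous fun x => MvPolynomial.eval (ζ + x) p ^ a :=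
              hcp.comp (continuous_const.add continuous_id)
            apply Continuous.log (by fun_prop)
            intro x
            positivity
          exact (hcon.continuousOn.integrableOn_compact (isCompact_closedBall 0 ρ)).mono_set
            ball_subset_closedBall
        · apply Integrable.add (integrableOn_const measure_ball_lt_top.ne)
          exact hint.const_mul _
      have hi4 : ∫ x in B, (Real.log 2 + 2 * a * d * Vr K (ζ + x)) =
          Real.log 2 * V + 2 * a * d * I := by
        have hc1 : Integrable (fun _ : Fin n → ℂ => Real.log 2) (volume.restrict B) :=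
          integrableOn_const measure_ball_lt_top.ne
        rw [integral_add hc1 (hint.const_mul _), integral_const_mul, setIntegral_const, smul_eq_mul]
        simp only [Measure.real]
        ring
      have h8 : 2 * a * Real.posLog ‖MvPolynomial.eval ζ p‖ * V ≤
          Real.log 2 * V + 2 * a * d * I :=
        (mul_le_mul_of_nonneg_right hlow hVpos.le).trans (h1.trans (hi3.trans hi4.le))
      have h9 : Real.posLog ‖MvPolynomial.eval ζ p‖ / d * V =
          (2 * a * Real.posLog ‖MvPolynomial.eval ζ p‖ * V) / (2 * (a * d)) := by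
        field_simp
      rw [h9, div_le_iff₀ (by positivity), add_mul, div_mul_cancel₀ _ (by positivity)]
      linarith
    rw [le_div_iff₀ hVpos]
    have hlim : Tendsto (fun a : ℕ => I + Real.log 2 * V / (2 * (a * d))) atTop (𝓝 (I + 0)) := by
      apply Tendsto.const_add
      apply Tendsto.div_atTop tendsto_const_nhds
      apply Tendsto.const_mul_atTop (by norm_num)
      exact tendsto_natCast_atTop_atTop.atTop_mul_const hd0
    rw [add_zero] at hlim
    exact ge_of_tendsto hlim (by
      filter_upwards [eventually_ge_atTop 1] with a ha'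
      exact ha a ha')
  have hVK : VK K ζ ≤ ((I / V : ℝ) : EReal) := by
    unfold VK
    refine iSup_le fun p => iSup_le fun hp => iSup_le fun hpK => ?_
    exact_mod_cast key p hp hpK
  rw [← h.coe hζ] at hVK
  have h10 : Vr K ζ ≤ I / V := by exact_mod_cast hVK
  rwa [le_div_iff₀ hVpos] at h10

theorem Bd.ae_eq {K : Set (Fin n → ℂ)} {R₁ C : ℝ} (h : Bd K R₁ C) :
    ∀ᵐ z : Fin n → ℂ, z ∈ ball (0 : Fin n → ℂ) R₁ → VKstar K z ≤ VK K z := by
  set f : (Fin n → ℂ) → ℝ := (closedBall 0 R₁).indicator (Vr K) with hf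
  have hfint : Integrable f := by
    rw [hf, integrable_indicator_iff measurableSet_closedBall]
    refine Measure.integrableOn_of_bounded (M := C) measure_closedBall_lt_top.ne
      (Vr_meas K).aestronglyMeasurable ?_
    rw [ae_restrict_iff' measurableSet_closedBall]
    refine Filter.Eventually.of_forall fun x hx => ?_
    rw [Real.norm_of_nonneg (h.Vr_nonneg _)]
    exact h.Vr_le hx
  filter_upwards [IsUnifLocDoublingMeasure.ae_tendsto_average (volume : Measure (Fin n → ℂ))
    hfint.locallyIntegrable 1] with z hz hzb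
  have hzc : z ∈ closedBall (0 : Fin n → ℂ) R₁ := ball_subset_closedBall hzb
  have hdist : Tendsto (fun ζ => dist ζ z) (𝓝[≠] z) (𝓝[>] 0) := by
    rw [tendsto_nhdsWithin_iff]
    constructor
    · have : Tendsto (fun ζ => dist ζ z) (𝓝 z) (𝓝 (dist z z)) :=
        (continuous_id.dist continuous_const).tendsto z
      rw [dist_self] at this
      exact this.mono_left nhdsWithin_le_nhds
    · filter_upwards [self_mem_nhdsWithin] with ζ hζ
      exact dist_pos.mpr hζ
  have hlim := hz (l := 𝓝[≠] z) (fun ζ => ζ) (fun ζ => dist ζ z) hdist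
    (Filter.Eventually.of_forall fun ζ => by
      rw [one_mul, mem_closedBall, dist_comm])
  have hfz : f z = Vr K z := by rw [hf, Set.indicator_of_mem hzc]
  rw [hfz] at hlim
  rw [← h.coe hzc]
  apply EReal.le_of_forall_lt_iff_le.mp
  intro c hc
  have hc' : Vr K z < c := by exact_mod_cast hc
  have e1 := hlim.eventually_lt_const hc'
  -- small balls are inside
  have e2 : ∀ᶠ ζ in 𝓝[≠] z, closedBall ζ (dist ζ z) ⊆ closedBall (0 : Fin n → ℂ) R₁ := by
    rw [mem_ball_zero_iff] at hzb
    have h3 : ∀ᶠ ζ in 𝓝[≠] z, dist ζ z < (R₁ - ‖z‖) / 2 := by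
      have : ∀ᶠ ζ in 𝓝 z, dist ζ z < (R₁ - ‖z‖) / 2 :=
        Metric.ball_mem_nhds z (by linarith)
      exact nhdsWithin_le_nhds this
    filter_upwards [h3] with ζ hζ w hw
    rw [mem_closedBall] at hw
    rw [mem_closedBall_zero_iff]
    have h4 : ‖w‖ ≤ dist w ζ + dist ζ z + ‖z‖ := by
      rw [dist_eq_norm, dist_eq_norm]
      calc ‖w‖ = ‖(w - ζ) + (ζ - z) + z‖ := by congr 1; abel
        _ ≤ ‖(w - ζ) + (ζ - z)‖ + ‖z‖ := norm_add_le _ _
        _ ≤ _ := by gcongr; exact norm_add_le _ _
    linarith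
  have e3 : ∀ᶠ ζ in 𝓝[≠] z, VK K ζ < (c : EReal) := by
    filter_upwards [e1, e2, self_mem_nhdsWithin] with ζ h1 h2 h3
    have hδ : 0 < dist ζ z := dist_pos.mpr h3
    set δ := dist ζ z with hδdef
    have hsm := h.submean hδ h2
    have hζc : ζ ∈ closedBall (0 : Fin n → ℂ) R₁ := h2 (mem_closedBall_self hδ.le)
    have hVpos : 0 < (volume (ball (0 : Fin n → ℂ) δ)).toReal :=
      ENNReal.toReal_pos (measure_ball_pos _ _ hδ).ne' measure_ball_lt_top.ne
    have hvol : (volume (closedBall ζ δ)).toReal = (volume (ball (0 : Fin n → ℂ) δ)).toReal := by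
      rw [Measure.addHaar_closedBall _ _ hδ.le, Measure.addHaar_ball_of_pos _ _ hδ]
    have hint2 : ∫ x in ball (0 : Fin n → ℂ) δ, Vr K (ζ + x) ≤ ∫ y in closedBall ζ δ, f y := by
      rw [integral_ball_translate]
      have h5 : ∫ y in ball ζ δ, Vr K y = ∫ y in ball ζ δ, f y := by
        apply setIntegral_congr_fun measurableSet_ball
        intro y hy
        rw [hf, Set.indicator_of_mem (h2 (ball_subset_closedBall hy))]
      rw [h5]
      apply setIntegral_mono_set hfint.integrableOn
      · exact Filter.Eventually.of_forall fun y =>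
          Set.indicator_nonneg (fun _ _ => h.Vr_nonneg _) y
      · exact Filter.Eventually.of_forall ball_subset_closedBall
    have h6 : Vr K ζ ≤ ⨍ y in closedBall ζ δ, f y := by
      rw [setAverage_eq, smul_eq_mul, ← div_eq_inv_mul, le_div_iff₀]
      · simp only [Measure.real]
        rw [hvol]
        exact hsm.trans hint2
      · simp only [Measure.real]
        rw [hvol]
        exact hVpos
    rw [← h.coe hζc]
    exact_mod_cast lt_of_le_of_lt h6 h1
  have e4 : ∀ᶠ ζ in 𝓝 z, VK K ζ ≤ (c : EReal) := by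
    rw [eventually_nhdsWithin_iff] at e3
    filter_upwards [e3] with ζ hζ
    by_cases hζz : ζ = z
    · rw [hζz, ← h.coe hzc]
      exact hc.le
    · exact (hζ hζz).le
  unfold VKstar
  exact limsup_le_of_le (h := e4)

end Pool.Agent.H940R3.VD
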