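import Pool.Agent.H940R3.VD.Star
import Pool.Agent.H805R2.Fekete

set_option autoImplicit false

open Matrix MeasureTheory
open scoped ContDiff

namespace Pool.Agent.H940R3.VD

open Pool.Agent.H805R2.Fek

/-- exponents of degree at most `k` -/
abbrev Ix (n k : ℕ) : Type := {α : Fin n → Fin (k + 1) // ∑ i, (α i : ℕ) ≤ k}

/-- scaled monomials -/
noncomputable def e (n : ℕ) (R : ℝ) (k : ℕ) (z : Fin n → ℂ) (α : Ix n k) : ℂ :=
  ∏ i, (z i / (R : ℂ)) ^ (α.1 i : ℕ)

/-- polynomial functions of degree at most `k` -/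
def IsP {n : ℕ} (k : ℕ) (f : (Fin n → ℂ) → ℂ) : Prop :=
  ∃ p : MvPolynomial (Fin n) ℂ, p.totalDegree ≤ k ∧ ∀ z, MvPolynomial.eval z p = f z

variable {n : ℕ}

lemma isP_const (k : ℕ) (c : ℂ) : IsP k (fun _ : Fin n → ℂ => c) :=
  ⟨MvPolynomial.C c, by simp, by simp⟩

lemma isP_coord (i : Fin n) : IsP 1 (fun z : Fin n → ℂ => z i) :=
  ⟨MvPolynomial.X i, by simp, by simp⟩

lemma IsP.mono {k l : ℕ} {f : (Fin n → ℂ) → ℂ} (h : IsP k f) (hkl : k ≤ l) : IsP l f := by
  obtain ⟨p, hp, hp2⟩ := h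
  exact ⟨p, hp.trans hkl, hp2⟩

lemma IsP.mul {k l : ℕ} {f g : (Fin n → ℂ) → ℂ} (hf : IsP k f) (hg : IsP l g) :
    IsP (k + l) (fun z => f z * g z) := by
  obtain ⟨p, hp, hp2⟩ := hf
  obtain ⟨q, hq, hq2⟩ := hg
  exact ⟨p * q, (MvPolynomial.totalDegree_mul p q).trans (add_le_add hp hq), fun z => by
    rw [map_mul, hp2, hq2]⟩

lemma IsP.add {k : ℕ} {f g : (Fin n → ℂ) → ℂ} (hf : IsP k f) (hg : IsP k g) :
    IsP k (fun z => f z + g z) := by
  obtain ⟨p, hp, hp2⟩ := hf
  obtain ⟨q, hq, hq2⟩ := hg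
  exact ⟨p + q, (MvPolynomial.totalDegree_add p q).trans (max_le hp hq), fun z => by
    rw [map_add, hp2, hq2]⟩

lemma IsP.const_mul {k : ℕ} {f : (Fin n → ℂ) → ℂ} (c : ℂ) (hf : IsP k f) :
    IsP k (fun z => c * f z) := by
  have := (isP_const 0 c).mul hf
  rwa [zero_add] at this

lemma IsP.sum {ι : Type*} (s : Finset ι) {k : ℕ} {f : ι → (Fin n → ℂ) → ℂ}
    (hf : ∀ i ∈ s, IsP k (f i)) : IsP k (fun z => ∑ i ∈ s, f i z) := by
  classical
  induction s using Finset.induction_on with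
  | empty => simpa using isP_const k 0
  | insert a s ha ih =>
    simp_rw [Finset.sum_insert ha]
    exact (hf a (Finset.mem_insert_self a s)).add
      (ih fun i hi => hf i (Finset.mem_insert_of_mem hi))

lemma IsP.pow {k : ℕ} {f : (Fin n → ℂ) → ℂ} (hf : IsP k f) (m : ℕ) :
    IsP (m * k) (fun z => f z ^ m) := by
  obtain ⟨p, hp, hp2⟩ := hf
  exact ⟨p ^ m, (MvPolynomial.totalDegree_pow p m).trans (Nat.mul_le_mul_left m hp), fun z => by
    rw [map_pow, hp2]⟩

lemma IsP.prod {ι : Type*} (s : Finset ι) {k : ι → ℕ} {f : ι → (Fin n → ℂ) → ℂ}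
    (hf : ∀ i ∈ s, IsP (k i) (f i)) : IsP (∑ i ∈ s, k i) (fun z => ∏ i ∈ s, f i z) := by
  classical
  induction s using Finset.induction_on with
  | empty => simpa using isP_const 0 1
  | insert a s ha ih =>
    simp_rw [Finset.prod_insert ha, Finset.sum_insert ha]
    exact (hf a (Finset.mem_insert_self a s)).mul
      (ih fun i hi => hf i (Finset.mem_insert_of_mem hi))

lemma IsP.continuous {k : ℕ} {f : (Fin n → ℂ) → ℂ} (hf : IsP k f) : Continuous f := by
  obtain ⟨p, _, hp2⟩ := hf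
  have : f = fun z => MvPolynomial.eval z p := funext fun z => (hp2 z).symm
  rw [this]
  exact MvPolynomial.continuous_eval p

/-- representation of polynomials -/
lemma eval_eq (p : MvPolynomial (Fin n) ℂ) (z : Fin n → ℂ) :
    MvPolynomial.eval z p = ∑ m ∈ p.support, p.coeff m * ∏ i, z i ^ m i :=
  MvPolynomial.eval_eq' z p

lemma IsP.translate {k : ℕ} {f : (Fin n → ℂ) → ℂ} (hf : IsP k f) (ξ : Fin n → ℂ) :
    IsP k (fun z => f (z + ξ)) := by
  obtain ⟨p, hp, hp2⟩ := hf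
  have : (fun z => f (z + ξ)) = fun z => ∑ m ∈ p.support, p.coeff m * ∏ i, (z i + ξ i) ^ m i := by
    funext z
    rw [← hp2, eval_eq]
    rfl
  rw [this]
  apply IsP.sum
  intro m hm
  apply IsP.const_mul
  have h1 : IsP (∑ i : Fin n, m i * 1) (fun z : Fin n → ℂ => ∏ i, (z i + ξ i) ^ m i) :=
    IsP.prod _ fun i _ => ((isP_coord i).add (isP_const 1 (ξ i))).pow (m i)
  apply h1.mono
  have h2 := MvPolynomial.le_totalDegree hm
  have h3 : m.sum (fun _ e => e) = ∑ i : Fin n, m i := Finsupp.sum_fintype _ _ (by simp)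
  rw [h3] at h2
  simp only [mul_one]
  exact h2.trans hp

lemma isP_e (R : ℝ) (k : ℕ) (α : Ix n k) : IsP k (fun z => e n R k z α) := by
  have h1 : IsP (∑ i : Fin n, (α.1 i : ℕ) * 1)
      (fun z : Fin n → ℂ => ∏ i, (z i / (R : ℂ)) ^ (α.1 i : ℕ)) := by
    apply IsP.prod
    intro i _
    apply IsP.pow
    have := (isP_coord i).const_mul ((R : ℂ)⁻¹)
    have e2 : (fun z : Fin n → ℂ => z i / (R : ℂ)) = fun z => (R : ℂ)⁻¹ * z i := by
      funext z; rw [div_eq_inv_mul]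
    rw [e2]
    exact this
  apply h1.mono
  simpa using α.2

lemma isP_sm (R : ℝ) (k : ℕ) (c : Ix n k → ℂ) : IsP k (sm (e n R k) c) := by
  unfold sm
  exact IsP.sum _ fun α _ => (isP_e R k α).const_mul (c α)

lemma IsP.coef {R : ℝ} (hR : 0 < R) {k : ℕ} {f : (Fin n → ℂ) → ℂ} (hf : IsP k f) :
    ∃ c : Ix n k → ℂ, ∀ z, f z = sm (e n R k) c z := by
  obtain ⟨p, hp, hp2⟩ := hf
  have hle : ∀ α : Ix n k, True := fun _ => trivial
  let F : Ix n k → (Fin n →₀ ℕ) := fun α => Finsupp.equivFunOnFinite.symm (fun i => (α.1 i : ℕ))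
  have hF : Function.Injective F := by
    intro a b hab
    have := Finsupp.equivFunOnFinite.symm.injective hab
    apply Subtype.ext
    funext i
    exact Fin.ext (congrFun this i)
  refine ⟨fun α => p.coeff (F α) * (R : ℂ) ^ (∑ i, (α.1 i : ℕ)), fun z => ?_⟩
  rw [← hp2, eval_eq]
  have hsub : p.support ⊆ Finset.univ.image F := by
    intro m hm
    have h2 := MvPolynomial.le_totalDegree hm
    have h3 : m.sum (fun _ e => e) = ∑ i : Fin n, m i := Finsupp.sum_fintype _ _ (by simp)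
    rw [h3] at h2
    have h4 : ∑ i : Fin n, m i ≤ k := h2.trans hp
    rw [Finset.mem_image]
    have h5 : ∀ i, m i ≤ k := fun i =>
      (Finset.single_le_sum (fun j _ => Nat.zero_le (m j)) (Finset.mem_univ i)).trans h4
    refine ⟨⟨fun i => ⟨m i, by have := h5 i; omega⟩, h4⟩, Finset.mem_univ _, ?_⟩
    ext i
    rfl
  rw [Finset.sum_subset hsub (fun m _ hm => by
    rw [MvPolynomial.notMem_support_iff.mp hm, zero_mul]), Finset.sum_image (fun a _ b _ h => hF h)]
  unfold sm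
  apply Finset.sum_congr rfl
  intro α _
  have hRc : (R : ℂ) ≠ 0 := by exact_mod_cast hR.ne'
  have h6 : e n R k z α = (∏ i, z i ^ (α.1 i : ℕ)) * ((R : ℂ) ^ (∑ i, (α.1 i : ℕ)))⁻¹ := by
    unfold e
    rw [← Finset.prod_pow_eq_pow_sum, ← Finset.prod_inv_distrib, ← Finset.prod_mul_distrib]
    apply Finset.prod_congr rfl
    intro i _
    rw [div_pow, div_eq_mul_inv]
  rw [h6]
  have h7 : (R : ℂ) ^ (∑ i, (α.1 i : ℕ)) ≠ 0 := pow_ne_zero _ hRc
  have h8 : ∏ i, z i ^ (F α) i = ∏ i, z i ^ (α.1 i : ℕ) := rfl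
  rw [h8]
  field_simp

lemma norm_e_le {R : ℝ} (hR : 0 < R) {k : ℕ} {z : Fin n → ℂ} (hz : ‖z‖ ≤ R) (α : Ix n k) :
    ‖e n R k z α‖ ≤ 1 := by
  unfold e
  rw [norm_prod]
  apply Finset.prod_le_one
  · intro i _; positivity
  · intro i _
    rw [norm_pow, norm_div, Complex.norm_real, Real.norm_of_nonneg hR.le]
    apply pow_le_one₀ (by positivity)
    rw [div_le_one hR]
    exact (norm_le_pi_norm z i).trans hz

lemma continuous_e (R : ℝ) (k : ℕ) : Continuous fun z => e n R k z := by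
  apply continuous_pi
  intro α
  exact (isP_e R k α).continuous

/-! ### the equivalence with `Idx` -/

lemma ex_sum_le (n d : ℕ) (a : Idx n d) : ∑ i, ex n d a i ≤ d := by
  induction n generalizing d with
  | zero => simp
  | succ n ih =>
    obtain ⟨k, a⟩ := a
    have := ih (d - k) a
    rw [Fin.sum_univ_succ]
    change (k : ℕ) + ∑ i : Fin n, ex n (d - k) a i ≤ d
    have hk := k.2
    omega

lemma ex_surj (n d : ℕ) (α : Fin n → ℕ) (h : ∑ i, α i ≤ d) : ∃ a : Idx n d, ex n d a = α := by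
  induction n generalizing d with
  | zero => exact ⟨(() : Unit), by funext i; exact i.elim0⟩
  | succ n ih =>
    rw [Fin.sum_univ_succ] at h
    obtain ⟨a, ha⟩ := ih (d - α 0) (fun i => α i.succ) (by omega)
    refine ⟨⟨⟨α 0, by omega⟩, a⟩, ?_⟩
    change (Fin.cons (α 0) (ex n (d - α 0) a) : Fin (n + 1) → ℕ) = α
    rw [ha]
    funext i
    refine Fin.cases ?_ (fun j => ?_) i <;> simp

/-- the equivalence -/
noncomputable def eqv (n d : ℕ) : Idx n d ≃ Ix n d :=
  Equiv.ofBijective (fun a => ⟨fun i => ⟨ex n d a i, by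
      have h1 := ex_sum_le n d a
      have h2 := Finset.single_le_sum (f := fun i => ex n d a i) (fun j _ => Nat.zero_le _)
        (Finset.mem_univ i)
      omega⟩, ex_sum_le n d a⟩) (by
    constructor
    · intro a b hab
      apply ex_inj n d
      funext i
      have := congrFun (Subtype.ext_iff.mp hab) i
      exact Fin.ext_iff.mp this
    · intro α
      obtain ⟨a, ha⟩ := ex_surj n d (fun i => (α.1 i : ℕ)) α.2
      refine ⟨a, ?_⟩
      apply Subtype.ext
      funext i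
      apply Fin.ext
      exact congrFun ha i)

lemma eqv_apply (n d : ℕ) (a : Idx n d) (i : Fin n) : (((eqv n d a).1 i : ℕ)) = ex n d a i := rfl

lemma card_Ix (n d : ℕ) : Fintype.card (Ix n d) = NN n d := by
  rw [← card_Idx, Fintype.card_congr (eqv n d)]

lemma deg_sum_Idx (n d : ℕ) : ∑ a : Idx n d, ∑ i, ex n d a i = n * SS n d := by
  induction n generalizing d with
  | zero => simp
  | succ n ih =>
    have h : ∑ a : Idx (n + 1) d, ∑ i, ex (n + 1) d a i =
        ∑ k : Fin (d + 1), ∑ a : Idx n (d - k), ((k : ℕ) + ∑ i, ex n (d - k) a i) := by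
      refine (Fintype.sum_sigma _).trans ?_
      apply Finset.sum_congr rfl
      intro k _
      apply Finset.sum_congr rfl
      intro a _
      rw [Fin.sum_univ_succ]
      rfl
    rw [h]
    have h2 : ∀ k : Fin (d + 1), ∑ a : Idx n (d - k), ((k : ℕ) + ∑ i, ex n (d - k) a i) =
        (k : ℕ) * NN n (d - k) + n * SS n (d - k) := by
      intro k
      rw [Finset.sum_add_distrib, ih, Finset.sum_const, Finset.card_univ, card_Idx, smul_eq_mul,
        mul_comm]
    rw [Finset.sum_congr rfl fun k _ => h2 k, Finset.sum_add_distrib,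
      Fin.sum_univ_eq_sum_range (fun k => k * NN n (d - k)),
      Fin.sum_univ_eq_sum_range (fun k => n * SS n (d - k)), sum_p, ← Finset.mul_sum, sum_r]
    ring

lemma deg_sum (n d : ℕ) : ∑ α : Ix n d, ∑ i, (α.1 i : ℕ) = n * SS n d := by
  rw [← deg_sum_Idx, ← Equiv.sum_comp (eqv n d)]
  rfl

/-- the determinant in terms of unscaled monomials -/
lemma det_scale {R : ℝ} (_hR : 0 < R) (d : ℕ) (x : Ix n d → (Fin n → ℂ)) :
    (ev (e n R d) x).det = (ev (e n 1 d) x).det * ((R : ℂ) ^ (n * SS n d))⁻¹ := by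
  have h1 : ev (e n R d) x = ev (e n 1 d) x *
      diagonal (fun α : Ix n d => ((R : ℂ) ^ (∑ i, (α.1 i : ℕ)))⁻¹) := by
    ext j α
    rw [mul_diagonal]
    simp only [ev, Matrix.of_apply, e]
    rw [← Finset.prod_pow_eq_pow_sum, ← Finset.prod_inv_distrib, ← Finset.prod_mul_distrib]
    apply Finset.prod_congr rfl
    intro i _
    rw [div_pow, div_eq_mul_inv]
    simp
  rw [h1, det_mul, det_diagonal, ← deg_sum, Finset.prod_inv_distrib, Finset.prod_pow_eq_pow_sum]

theorem fekete' (n : ℕ) {R : ℝ} (hR : 0 < R) : ∃ c : ℝ, 0 < c ∧ ∀ (K : Set (Fin n → ℂ)),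
    MeasurableSet K → ∀ v : ℝ, 0 < v → volume K = ENNReal.ofReal v → ∀ d : ℕ,
    ∃ x : Ix n d → (Fin n → ℂ), (∀ β, x β ∈ K) ∧
      (c * v) ^ (SS n d) ≤ ‖(ev (e n R d) x).det‖ ^ 2 := by
  obtain ⟨c, hc, h⟩ := fekete n
  refine ⟨c / R ^ (2 * n), by positivity, ?_⟩
  intro K hK v hv hvol d
  obtain ⟨x, hx, hx2⟩ := h K hK v hv hvol d
  refine ⟨fun α => x ((eqv n d).symm α), fun β => hx _, ?_⟩
  rw [det_scale hR]
  have h1 : (ev (e n 1 d) (fun α => x ((eqv n d).symm α))).det = (Vm n d x).det := by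
    rw [← Matrix.det_submatrix_equiv_self (eqv n d)]
    congr 1
    ext a b
    simp only [submatrix_apply, ev, Matrix.of_apply, e, Vm, mon, Equiv.symm_apply_apply, eqv_apply]
    simp
  rw [h1]
  have h3 : ‖(Vm n d x).det * ((R : ℂ) ^ (n * SS n d))⁻¹‖ ^ 2 =
      ‖(Vm n d x).det‖ ^ 2 * ((R ^ (n * SS n d))⁻¹) ^ 2 := by
    rw [norm_mul, norm_inv, norm_pow, Complex.norm_real, Real.norm_of_nonneg hR.le, mul_pow]
  rw [h3]
  have h2 : (c / R ^ (2 * n) * v) ^ SS n d = (c * v) ^ SS n d * ((R ^ (n * SS n d))⁻¹) ^ 2 := by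
    have : c / R ^ (2 * n) * v = (c * v) * (R ^ (2 * n))⁻¹ := by ring
    rw [this, mul_pow, inv_pow, inv_pow, ← pow_mul, ← pow_mul]
    congr 3
    ring
  rw [h2]
  gcongr

end Pool.Agent.H940R3.VD
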