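import Pool.Agent.H940R3.VD.Lin

set_option autoImplicit false

open Matrix MeasureTheory
open scoped ComplexOrder MatrixOrder Matrix.Norms.L2Operator

namespace Pool.Agent.H940R3.VD

open Pool.Agent.H805R2.Gram

variable {ι ι' : Type*} [Fintype ι] [DecidableEq ι] [Fintype ι'] [DecidableEq ι'] {X : Type*}

/-- evaluation matrix -/
def ev {ι ι' X : Type*} (e : X → ι → ℂ) (x : ι' → X) : Matrix ι' ι ℂ := Matrix.of fun j α => e (x j) α

/-- linear combination -/
def sm {ι X : Type*} [Fintype ι] (e : X → ι → ℂ) (c : ι → ℂ) (z : X) : ℂ := ∑ α, c α * e z α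

/-- `x` is a Fekete array for `K` with nonzero determinant -/
structure Fk (e : X → ι → ℂ) (K : Set X) (x : ι → X) : Prop where
  mem : ∀ j, x j ∈ K
  max : ∀ y : ι → X, (∀ j, y j ∈ K) → ‖(ev e y).det‖ ≤ ‖(ev e x).det‖
  ne : (ev e x).det ≠ 0

lemma lagrange {e : X → ι → ℂ} {K : Set X} {x : ι → X} (h : Fk e K x) (j : ι) {z : X}
    (hz : z ∈ K) : ‖sm e (fun α => (ev e x)⁻¹ α j) z‖ ≤ 1 := by
  set E := ev e x with hE
  have hdet : IsUnit E.det := isUnit_iff_ne_zero.mpr h.ne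
  set a : ι → ℂ := e z ᵥ* E⁻¹ with ha
  have h1 : sm e (fun α => E⁻¹ α j) z = a j := by
    simp only [sm, ha, vecMul, dotProduct]
    exact Finset.sum_congr rfl fun α _ => mul_comm _ _
  have h2 : e z = ∑ k, a k • E k := by
    have : e z = a ᵥ* E := by
      rw [ha, vecMul_vecMul, nonsing_inv_mul _ hdet, vecMul_one]
    rw [this]
    ext α
    simp [vecMul, dotProduct, Finset.sum_apply]
  have h3 : (E.updateRow j (∑ k, a k • E k)).det = a j • E.det := Matrix.det_updateRow_sum E j a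
  have h4 : E.updateRow j (e z) = ev e (Function.update x j z) := by
    ext i α
    by_cases hi : i = j
    · subst hi
      simp [ev]
    · simp [ev, hE, Matrix.updateRow_ne hi, Function.update_of_ne hi]
  rw [h1]
  have h5 := h.max (Function.update x j z) (by
    intro i
    by_cases hi : i = j
    · subst hi; simpa using hz
    · rw [Function.update_of_ne hi]; exact h.mem i)
  rw [← h4, h2, h3, smul_eq_mul, norm_mul, ← hE] at h5
  have h6 : 0 < ‖E.det‖ := norm_pos_iff.mpr h.ne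
  by_contra hcon
  push Not at hcon
  nlinarith

lemma det_le_of_form {H : Matrix ι ι ℂ} (hH : H.PosSemidef) {e : X → ι → ℂ} {K : Set X}
    {x : ι → X} (h : Fk e K x) {B : ℝ}
    (hB : ∀ (c : ι → ℂ) (S : ℝ), 0 ≤ S → (∀ z ∈ K, ‖sm e c z‖ ≤ S) → (qf H c).re ≤ B * S ^ 2) :
    H.det.re ≤ B ^ Fintype.card ι * ‖(ev e x).det‖ ^ 2 := by
  set E := ev e x with hE
  have hdet : IsUnit E.det := isUnit_iff_ne_zero.mpr h.ne
  set L := E⁻¹ with hL
  have h1 := hadamard (hH.conjTranspose_mul_mul_same L)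
  have h2 : ∏ i, ((Lᴴ * H * L) i i).re ≤ B ^ Fintype.card ι := by
    have : B ^ Fintype.card ι = ∏ _i : ι, B := by simp
    rw [this]
    apply Finset.prod_le_prod
    · intro i _
      exact diag_re_nonneg (hH.conjTranspose_mul_mul_same L) i
    · intro i _
      rw [diag_entry]
      have := hB (fun j => L j i) 1 zero_le_one (fun z hz => lagrange h i hz)
      simpa using this
  have h3 : (Lᴴ * H * L).det.re = (‖E.det‖ ^ 2)⁻¹ * H.det.re := by
    rw [det_mul, det_mul, det_conjTranspose, hL, det_nonsing_inv, Ring.inverse_eq_inv']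
    have e1 : star (E.det)⁻¹ * H.det * (E.det)⁻¹ = (((‖E.det‖ ^ 2)⁻¹ : ℝ) : ℂ) * H.det := by
      have : star (E.det)⁻¹ * (E.det)⁻¹ = (((‖E.det‖ ^ 2)⁻¹ : ℝ) : ℂ) := by
        rw [Complex.star_def, mul_comm, Complex.mul_conj, Complex.normSq_eq_norm_sq, norm_inv]
        push_cast
        rw [inv_pow]
      rw [mul_right_comm, this]
    rw [e1, Complex.re_ofReal_mul]
  rw [h3] at h1
  have h6 : 0 < ‖E.det‖ ^ 2 := by
    have := norm_pos_iff.mpr h.ne
    positivity
  have h7 := h1.trans h2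
  rw [inv_mul_le_iff₀ h6] at h7
  linarith

lemma qf_ev (e : X → ι → ℂ) (y : ι' → X) (c : ι → ℂ) :
    qf ((ev e y)ᴴ * ev e y) c = ((∑ b, ‖sm e c (y b)‖ ^ 2 : ℝ) : ℂ) := by
  unfold qf
  rw [← mulVec_mulVec, dotProduct_mulVec, ← star_mulVec]
  simp only [dotProduct, Pi.star_apply]
  push_cast
  apply Finset.sum_congr rfl
  intro b _
  have : (ev e y *ᵥ c) b = sm e c (y b) := by
    simp only [mulVec, dotProduct, sm, ev, Matrix.of_apply]
    exact Finset.sum_congr rfl fun α _ => mul_comm _ _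
  rw [this, Complex.star_def, mul_comm, Complex.mul_conj, Complex.normSq_eq_norm_sq]
  push_cast
  ring

lemma qf_add (G H : Matrix ι ι ℂ) (c : ι → ℂ) : qf (G + H) c = qf G c + qf H c := by
  unfold qf
  rw [add_mulVec, dotProduct_add]

lemma qf_smul (t : ℂ) (H : Matrix ι ι ℂ) (c : ι → ℂ) : qf (t • H) c = t * qf H c := by
  unfold qf
  rw [smul_mulVec, dotProduct_smul, smul_eq_mul]

lemma star_ineq {G : Matrix ι ι ℂ} (hG : G.PosDef) {e : X → ι → ℂ} {K : Set X}
    {x : ι → X} (h : Fk e K x) (J : Matrix ι ι' ℂ) (y : ι' → X) {A : ℝ} (hA : 0 < A)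
    (hy : ∀ (c : ι → ℂ) (S : ℝ), 0 ≤ S → (∀ z ∈ K, ‖sm e c z‖ ≤ S) → ∀ b, ‖sm e c (y b)‖ ≤ A * S)
    {m : ℝ} (hm : ∀ (c : ι → ℂ) (S : ℝ), 0 ≤ S → (∀ z ∈ K, ‖sm e c z‖ ≤ S) →
      (qf G c).re ≤ m * S ^ 2) :
    ‖(ev e y * J).det‖ ^ 2 ≤ A ^ (2 * Fintype.card ι') * (m + Fintype.card ι') ^ Fintype.card ι *
      (‖(ev e x).det‖ ^ 2 / G.det.re) * (Jᴴ * G * J).det.re := by
  set E := ev e y with hE
  set t : ℝ := (A ^ 2)⁻¹ with ht
  have ht0 : 0 < t := by positivity
  have hEE : (Eᴴ * E).PosSemidef := Matrix.posSemidef_conjTranspose_mul_self E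
  have htE : ((t : ℂ) • (Eᴴ * E)).PosSemidef := by
    apply hEE.smul
    exact_mod_cast ht0.le
  set H := G + (t : ℂ) • (Eᴴ * E) with hH
  have hHpd : H.PosDef := hG.add_posSemidef htE
  have h1 : H.det.re ≤ (m + Fintype.card ι') ^ Fintype.card ι * ‖(ev e x).det‖ ^ 2 := by
    apply det_le_of_form hHpd.posSemidef h
    intro c S hS hc
    rw [hH, qf_add, qf_smul, hE, qf_ev, Complex.add_re, Complex.re_ofReal_mul, Complex.ofReal_re]
    have h2 : ∑ b, ‖sm e c (y b)‖ ^ 2 ≤ Fintype.card ι' * (A * S) ^ 2 := by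
      calc ∑ b, ‖sm e c (y b)‖ ^ 2 ≤ ∑ _b : ι', (A * S) ^ 2 := by
            apply Finset.sum_le_sum
            intro b _
            have := hy c S hS hc b
            gcongr
        _ = _ := by simp
    have h3 := hm c S hS hc
    have h4 : t * ∑ b, ‖sm e c (y b)‖ ^ 2 ≤ Fintype.card ι' * S ^ 2 := by
      calc t * ∑ b, ‖sm e c (y b)‖ ^ 2 ≤ t * (Fintype.card ι' * (A * S) ^ 2) := by gcongr
        _ = _ := by
          rw [ht]
          field_simp
    linarith
  have hGd : IsUnit G.det := by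
    rw [isUnit_iff_ne_zero]; exact hG.det_pos.ne'
  have h5 : H.det = G.det * (1 + (t : ℂ) • (E * G⁻¹ * Eᴴ)).det := by
    have e1 : H = G * (1 + (G⁻¹ * ((t : ℂ) • Eᴴ)) * E) := by
      rw [Matrix.mul_add, Matrix.mul_one, hH, Matrix.mul_assoc G⁻¹, ← Matrix.mul_assoc G,
        mul_nonsing_inv _ hGd, Matrix.one_mul, Matrix.smul_mul]
    rw [e1, det_mul, det_one_add_mul_comm]
    congr 3
    rw [Matrix.mul_smul, Matrix.mul_smul, Matrix.mul_assoc]
  have hB : (E * G⁻¹ * Eᴴ).PosSemidef := hG.inv.posSemidef.mul_mul_conjTranspose_same E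
  have htB : ((t : ℂ) • (E * G⁻¹ * Eᴴ)).PosSemidef := by
    apply hB.smul
    exact_mod_cast ht0.le
  have h6 := det_le_one_add htB
  have h7 : ((t : ℂ) • (E * G⁻¹ * Eᴴ)).det.re = t ^ Fintype.card ι' * (E * G⁻¹ * Eᴴ).det.re := by
    rw [det_smul, ← Complex.ofReal_pow, Complex.re_ofReal_mul]
  have hGre := det_re_pos hG
  have h8 : H.det.re = G.det.re * (1 + (t : ℂ) • (E * G⁻¹ * Eᴴ)).det.re := by
    rw [h5, det_eq_re hG.posSemidef, Complex.re_ofReal_mul, Complex.ofReal_re]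
  have h9 := cb hG E J
  have h10 := det_re_nonneg (hG.posSemidef.conjTranspose_mul_mul_same J)
  have h11 : (E * G⁻¹ * Eᴴ).det.re ≤ A ^ (2 * Fintype.card ι') *
      (m + Fintype.card ι') ^ Fintype.card ι * (‖(ev e x).det‖ ^ 2 / G.det.re) := by
    rw [h7] at h6
    rw [h8] at h1
    have h12 : G.det.re * (t ^ Fintype.card ι' * (E * G⁻¹ * Eᴴ).det.re) ≤
        (m + Fintype.card ι') ^ Fintype.card ι * ‖(ev e x).det‖ ^ 2 :=
      (mul_le_mul_of_nonneg_left h6 hGre.le).trans h1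
    have ht2 : t ^ Fintype.card ι' * A ^ (2 * Fintype.card ι') = 1 := by
      rw [ht, pow_mul, ← mul_pow, inv_mul_cancel₀ (by positivity), one_pow]
    have hAp : 0 < A ^ (2 * Fintype.card ι') := by positivity
    calc (E * G⁻¹ * Eᴴ).det.re = (A ^ (2 * Fintype.card ι') *
          (G.det.re * (t ^ Fintype.card ι' * (E * G⁻¹ * Eᴴ).det.re))) / G.det.re := by
          rw [eq_div_iff hGre.ne']
          linear_combination (-(G.det.re * (E * G⁻¹ * Eᴴ).det.re)) * ht2
      _ ≤ (A ^ (2 * Fintype.card ι') *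
          ((m + Fintype.card ι') ^ Fintype.card ι * ‖(ev e x).det‖ ^ 2)) / G.det.re := by gcongr
      _ = _ := by ring
  exact h9.trans (mul_le_mul_of_nonneg_right h11 h10)

end Pool.Agent.H940R3.VD
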