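import Pool.Agent.H940R3.VD.Poly
import Pool.Agent.H940R3.Flow.Ball
import Pool.Agent.H940R3.Fek.BW

set_option autoImplicit false

open MeasureTheory Metric
open scoped ContDiff

namespace Pool.Agent.H940R3.VD

open Pool.Agent.Helper853 Pool.Agent.Helper853.Df Pool.Agent.H940R3.Flow

variable {n : ℕ}

lemma IsP.contDiff {k : ℕ} {f : (Fin n → ℂ) → ℂ} (hf : IsP k f) : ContDiff ℂ ∞ f := by
  obtain ⟨p, _, hp2⟩ := hf
  have : f = fun z => ∑ m ∈ p.support, p.coeff m * ∏ i, z i ^ m i :=
    funext fun z => by rw [← hp2, eval_eq]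
  rw [this]
  apply ContDiff.sum
  intro m _
  apply contDiff_const.mul
  apply contDiff_prod
  intro i _
  exact (contDiff_apply ℂ ℂ i).pow _

/-- auxiliary family -/
noncomputable def FF (f : (Fin n → ℂ) → ℂ) (κ : ℝ) : Option Unit → (Fin n → ℂ) → ℂ
  | none => fun _ => (Real.sqrt κ : ℂ)
  | some _ => f

lemma sumSq_FF (f : (Fin n → ℂ) → ℂ) {κ : ℝ} (hκ : 0 ≤ κ) (z : Fin n → ℂ) :
    sumSq (FF f κ) z = ‖f z‖ ^ 2 + κ := by
  unfold sumSq
  rw [Fintype.sum_option]
  simp only [FF, Finset.univ_unique, Finset.sum_singleton, Complex.norm_real]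
  rw [Real.norm_of_nonneg (Real.sqrt_nonneg _), Real.sq_sqrt hκ]
  ring

lemma submean_log {k : ℕ} {f : (Fin n → ℂ) → ℂ} (hf : IsP k f) {κ : ℝ} (hκ : 0 < κ)
    (a : Fin n → ℂ) (ρ : ℝ) :
    Real.log (‖f a‖ ^ 2 + κ) * (volume (ball (0 : Fin n → ℂ) ρ)).toReal ≤
      ∫ x in ball (0 : Fin n → ℂ) ρ, Real.log (‖f (a + x)‖ ^ 2 + κ) := by
  have hF : ∀ j, ContDiff ℂ ∞ (FF f κ j) := by
    intro j
    rcases j with _ | j
    · exact contDiff_const
    · exact hf.contDiff
  have hps := sPsh_log_sumSq hF (Ω := Set.univ) (fun x _ => by rw [sumSq_FF f hκ.le]; positivity)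
    isOpen_univ zero_le_one
  have e1 : (fun y => (1 : ℝ) * Real.log (sumSq (FF f κ) y)) =
      fun y => Real.log (‖f y‖ ^ 2 + κ) := by
    funext y
    rw [sumSq_FF f hκ.le, one_mul]
  rw [e1] at hps
  have hcont : Continuous fun y => Real.log (‖f y‖ ^ 2 + κ) := by
    have := hf.continuous
    apply Continuous.log (by fun_prop)
    intro x
    positivity
  refine submean_ball (Ω := Set.univ) hcont.continuousOn ?_ hps.2 (Set.subset_univ _)
  intro x hx
  exact hps.contDiffAt isOpen_univ hx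

lemma submean_sq {k : ℕ} {f : (Fin n → ℂ) → ℂ} (hf : IsP k f) (a : Fin n → ℂ) (ρ : ℝ) :
    ‖f a‖ ^ 2 * (volume (ball (0 : Fin n → ℂ) ρ)).toReal ≤
      ∫ x in ball (0 : Fin n → ℂ) ρ, ‖f (a + x)‖ ^ 2 := by
  have hc := hf.continuous
  refine submean_ball (Ω := Set.univ) (g := fun y => ‖f y‖ ^ 2) (by fun_prop) ?_ ?_
    (Set.subset_univ _)
  · intro x _
    exact ((contDiff_normSq hf.contDiff).of_le ENat.LEInfty.out).contDiffAt
  · intro x _ b
    rw [lap2_normSq hf.contDiff]
    positivity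

lemma IsP.line {k : ℕ} {f : (Fin n → ℂ) → ℂ} (hf : IsP k f) (a b : Fin n → ℂ) :
    ∃ q : Polynomial ℂ, q.natDegree ≤ k ∧ ∀ t, q.eval t = f (a + t • b) := by
  obtain ⟨p, hp, hp2⟩ := hf
  refine ⟨∑ m ∈ p.support, Polynomial.C (p.coeff m) *
    ∏ i, (Polynomial.C (a i) + Polynomial.X * Polynomial.C (b i)) ^ m i, ?_, ?_⟩
  · apply Polynomial.natDegree_sum_le_of_forall_le
    intro m hm
    refine (Polynomial.natDegree_C_mul_le _ _).trans ?_
    refine (Polynomial.natDegree_prod_le _ _).trans ?_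
    have h2 := MvPolynomial.le_totalDegree hm
    have h3 : m.sum (fun _ e => e) = ∑ i : Fin n, m i := Finsupp.sum_fintype _ _ (by simp)
    rw [h3] at h2
    refine le_trans (Finset.sum_le_sum fun i _ => ?_) (h2.trans hp)
    refine (Polynomial.natDegree_pow_le).trans ?_
    have h4 : (Polynomial.C (a i) + Polynomial.X * Polynomial.C (b i)).natDegree ≤ 1 := by
      refine (Polynomial.natDegree_add_le _ _).trans (max_le (by simp) ?_)
      refine Polynomial.natDegree_mul_le.trans ?_
      simp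
    calc m i * _ ≤ m i * 1 := Nat.mul_le_mul_left _ h4
      _ = m i := mul_one _
  · intro t
    rw [← hp2, eval_eq, Polynomial.eval_finsetSum]
    apply Finset.sum_congr rfl
    intro m _
    simp only [Polynomial.eval_prod, Polynomial.eval_mul, Polynomial.eval_C, Polynomial.eval_pow,
      Polynomial.eval_add, Polynomial.eval_X]
    rfl

/-- Bernstein-Walsh -/
lemma bwn {k : ℕ} {f : (Fin n → ℂ) → ℂ} (hf : IsP k f) {a : Fin n → ℂ} {r M : ℝ} (hr : 0 < r)
    (hM : 0 < M) (h : ∀ z ∈ closedBall a r, ‖f z‖ ≤ M) (z : Fin n → ℂ) :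
    ‖f z‖ ≤ M * max 1 (‖z - a‖ / r) ^ k := by
  by_cases hz : ‖z - a‖ ≤ r
  · have h1 : max 1 (‖z - a‖ / r) = 1 := max_eq_left (by rw [div_le_one hr]; exact hz)
    rw [h1, one_pow, mul_one]
    exact h z (by rw [mem_closedBall, dist_eq_norm]; exact hz)
  push Not at hz
  set ρ := ‖z - a‖ with hρ
  have hρ0 : 0 < ρ := hr.trans hz
  obtain ⟨q, hq, hq2⟩ := hf.line a (((r / ρ : ℝ) : ℂ) • (z - a))
  have hb : ‖((r / ρ : ℝ) : ℂ) • (z - a)‖ = r := by
    rw [norm_smul, Complex.norm_real, Real.norm_of_nonneg (by positivity), ← hρ]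
    field_simp
  have h1 := Pool.Agent.H940R3.Fek.bw (P := Polynomial.X) (q := q) (by simp) hq hM (by
    intro t ht
    rw [Polynomial.eval_X] at ht
    rw [hq2]
    apply h
    rw [mem_closedBall, dist_eq_norm, add_sub_cancel_left, norm_smul, hb]
    nlinarith) ((ρ / r : ℝ) : ℂ)
  rw [Polynomial.natDegree_X, pow_one, pow_one, hq2, Polynomial.eval_X, Complex.norm_real,
    Real.norm_of_nonneg (by positivity)] at h1
  have h2 : a + ((ρ / r : ℝ) : ℂ) • ((r / ρ : ℝ) : ℂ) • (z - a) = z := by
    rw [smul_smul, ← Complex.ofReal_mul]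
    have : ρ / r * (r / ρ) = 1 := by field_simp
    rw [this, Complex.ofReal_one, one_smul, add_sub_cancel]
  rw [h2] at h1
  exact h1

/-- Lemma E -/
lemma big_set {d : ℕ} {f : (Fin n → ℂ) → ℂ} (hf : IsP d f) {z₀ : Fin n → ℂ} (hz : f z₀ ≠ 0)
    {r θ : ℝ} (hr : 0 < r) (hθ : 0 < θ) (hθ1 : θ ≤ 1) (hd : Real.log 2 ≤ θ * d) :
    (volume (ball (0 : Fin n → ℂ) (θ * r))).toReal / 4 ≤
      (volume {z ∈ closedBall z₀ (2 * r) | Real.exp (-θ * d) * ‖f z₀‖ ≤ ‖f z‖}).toReal := by
  have hc := hf.continuous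
  set S : Set (Fin n → ℂ) := {z ∈ closedBall z₀ (2 * r) | Real.exp (-θ * d) * ‖f z₀‖ ≤ ‖f z‖} with hS
  have hSm : MeasurableSet S := by
    apply IsClosed.measurableSet
    apply isClosed_closedBall.inter
    exact isClosed_le continuous_const hc.norm
  have hSfin : volume S ≠ ⊤ := by
    refine ne_of_lt (lt_of_le_of_lt (measure_mono (fun z hz => hz.1)) ?_)
    exact measure_closedBall_lt_top
  obtain ⟨z₁, hz₁, hmax⟩ := (isCompact_closedBall z₀ r).exists_isMaxOn
    ⟨z₀, mem_closedBall_self hr.le⟩ hc.norm.continuousOn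
  set M := ‖f z₁‖ with hM
  have hM0 : ‖f z₀‖ ≤ M := hmax (mem_closedBall_self hr.le)
  have hMpos : 0 < M := lt_of_lt_of_le (norm_pos_iff.mpr hz) hM0
  set ρ := θ * r with hρ
  have hρ0 : 0 < ρ := by positivity
  set B := ball (0 : Fin n → ℂ) ρ with hB
  set κ := (Real.exp (-θ * d) * M) ^ 2 with hκ
  have hκ0 : 0 < κ := by positivity
  have hsub := submean_log hf hκ0 z₁ ρ
  set V := (volume B).toReal with hV
  have hVpos : 0 < V := ENNReal.toReal_pos (measure_ball_pos _ _ hρ0).ne' measure_ball_lt_top.ne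
  set T : Set (Fin n → ℂ) := {x | z₁ + x ∈ S} with hT
  have hTm : MeasurableSet T := by
    apply hSm.preimage
    fun_prop
  have hTvol : volume T = volume S := by
    have : T = (fun x => z₁ + x) ⁻¹' S := rfl
    rw [this, measure_preimage_add]
  set A : ℝ := 2 * Real.log M + 2 * d * θ + Real.log 2 with hA
  set b : ℝ := 2 * Real.log M - 2 * θ * d + Real.log 2 with hb
  have hin : ∀ x ∈ B, z₁ + x ∈ closedBall z₀ (r * (1 + θ)) := by
    intro x hx
    rw [hB, mem_ball_zero_iff] at hx
    rw [mem_closedBall, dist_eq_norm] at hz₁ ⊢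
    calc ‖z₁ + x - z₀‖ = ‖(z₁ - z₀) + x‖ := by congr 1; abel
      _ ≤ ‖z₁ - z₀‖ + ‖x‖ := norm_add_le _ _
      _ ≤ r * (1 + θ) := by nlinarith
  have hgr : ∀ x ∈ B, ‖f (z₁ + x)‖ ≤ M * Real.exp (θ * d) := by
    intro x hx
    have h1 := bwn hf hr hMpos (fun z hz => hmax hz) (z₁ + x)
    refine h1.trans ?_
    have h2 := hin x hx
    rw [mem_closedBall, dist_eq_norm] at h2
    have h3 : max 1 (‖z₁ + x - z₀‖ / r) ≤ Real.exp θ := by
      apply max_le
      · exact Real.one_le_exp hθ.le
      · rw [div_le_iff₀ hr]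
        have := Real.add_one_le_exp θ
        nlinarith
    have h4 : Real.exp (θ * d) = Real.exp θ ^ d := by rw [← Real.exp_nat_mul]; congr 1; ring
    rw [h4]
    gcongr
  have hpt : ∀ x ∈ B, Real.log (‖f (z₁ + x)‖ ^ 2 + κ) ≤ b + T.indicator (fun _ => A - b) x := by
    intro x hx
    have hlogM : Real.log (M ^ 2) = 2 * Real.log M := by
      rw [Real.log_pow]; norm_num
    by_cases hxT : x ∈ T
    · rw [Set.indicator_of_mem hxT]
      have h5 : ‖f (z₁ + x)‖ ^ 2 + κ ≤ 2 * (M ^ 2 * Real.exp (2 * d * θ)) := by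
        have h6 : ‖f (z₁ + x)‖ ^ 2 ≤ M ^ 2 * Real.exp (2 * d * θ) := by
          have := hgr x hx
          calc ‖f (z₁ + x)‖ ^ 2 ≤ (M * Real.exp (θ * d)) ^ 2 := by gcongr
            _ = _ := by
              rw [mul_pow, ← Real.exp_nat_mul]
              congr 2
              push_cast
              ring
        have h7 : κ ≤ M ^ 2 * Real.exp (2 * d * θ) := by
          rw [hκ, mul_pow, ← Real.exp_nat_mul, mul_comm]
          apply mul_le_mul_of_nonneg_left _ (by positivity)
          apply Real.exp_le_exp.mpr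
          push_cast
          have : 0 ≤ θ * d := by positivity
          nlinarith
        linarith
      calc Real.log (‖f (z₁ + x)‖ ^ 2 + κ) ≤ Real.log (2 * (M ^ 2 * Real.exp (2 * d * θ))) :=
            Real.log_le_log (by positivity) h5
        _ = b + (A - b) := by
            rw [Real.log_mul (by norm_num) (by positivity), Real.log_mul (by positivity)
              (Real.exp_pos _).ne', Real.log_exp, hlogM, hA]
            ring
    · rw [Set.indicator_of_notMem hxT, add_zero]
      have h5 : ‖f (z₁ + x)‖ < Real.exp (-θ * d) * ‖f z₀‖ := by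
        by_contra hcon
        push Not at hcon
        apply hxT
        refine ⟨?_, hcon⟩
        have := hin x hx
        rw [mem_closedBall] at this ⊢
        nlinarith
      have h6 : ‖f (z₁ + x)‖ ^ 2 + κ ≤ 2 * κ := by
        have : ‖f (z₁ + x)‖ ^ 2 ≤ κ := by
          rw [hκ]
          have h7 : Real.exp (-θ * d) * ‖f z₀‖ ≤ Real.exp (-θ * d) * M := by gcongr
          gcongr
          linarith
        linarith
      calc Real.log (‖f (z₁ + x)‖ ^ 2 + κ) ≤ Real.log (2 * κ) :=
            Real.log_le_log (by positivity) h6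
        _ = b := by
            rw [Real.log_mul (by norm_num) hκ0.ne', hκ, Real.log_pow,
              Real.log_mul (Real.exp_pos _).ne' hMpos.ne', Real.log_exp, hb]
            push_cast
            ring
  have hint : ∫ x in B, Real.log (‖f (z₁ + x)‖ ^ 2 + κ) ≤
      b * V + (A - b) * (volume (T ∩ B)).toReal := by
    have h1 : ∫ x in B, Real.log (‖f (z₁ + x)‖ ^ 2 + κ) ≤
        ∫ x in B, (b + T.indicator (fun _ => A - b) x) := by
      apply setIntegral_mono_on _ _ measurableSet_ball hpt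
      · have hcon : Continuous fun x => Real.log (‖f (z₁ + x)‖ ^ 2 + κ) := by
          apply Continuous.log (by fun_prop)
          intro x
          positivity
        exact (hcon.continuousOn.integrableOn_compact (isCompact_closedBall 0 ρ)).mono_set
          ball_subset_closedBall
      · apply Integrable.add
        · exact integrableOn_const measure_ball_lt_top.ne
        · exact (integrableOn_const measure_ball_lt_top.ne).indicator hTm
    refine h1.trans (le_of_eq ?_)
    have hi1 : Integrable (fun _ : Fin n → ℂ => b) (volume.restrict B) :=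
      integrableOn_const measure_ball_lt_top.ne
    have hi2 : Integrable (T.indicator (fun _ : Fin n → ℂ => A - b)) (volume.restrict B) :=
      Integrable.indicator (integrableOn_const measure_ball_lt_top.ne) hTm
    rw [integral_add hi1 hi2, setIntegral_const,
      integral_indicator hTm, Measure.restrict_restrict hTm, setIntegral_const, smul_eq_mul,
      smul_eq_mul]
    simp only [Measure.real]
    ring
  have hge : 2 * Real.log M ≤ Real.log (‖f z₁‖ ^ 2 + κ) := by
    have hlogM : Real.log (M ^ 2) = 2 * Real.log M := by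
      rw [Real.log_pow]; norm_num
    rw [← hlogM]
    exact Real.log_le_log (by positivity) (by linarith)
  set s := (volume (T ∩ B)).toReal with hs
  have hsS : s ≤ (volume S).toReal := by
    rw [← hTvol]
    exact ENNReal.toReal_mono (by rw [hTvol]; exact hSfin) (measure_mono Set.inter_subset_left)
  have hfin : 2 * Real.log M * V ≤ b * V + (A - b) * s :=
    (mul_le_mul_of_nonneg_right hge hVpos.le).trans (hsub.trans hint)
  rw [hA, hb] at hfin
  have hd0 : 0 < θ * d := lt_of_lt_of_le (Real.log_pos (by norm_num)) hd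
  have h10 : (2 * (θ * d) - Real.log 2) * V ≤ 4 * (θ * d) * s := by nlinarith
  have h11 : θ * d * V ≤ 4 * (θ * d) * s := by nlinarith
  have h12 : V ≤ 4 * s := by
    by_contra hcon
    push Not at hcon
    nlinarith
  linarith

end Pool.Agent.H940R3.VD
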