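import Pool.Agent.H940R3.VD.Conv

set_option autoImplicit false

open Matrix MeasureTheory Metric Filter Topology
open scoped ComplexOrder MatrixOrder Matrix.Norms.L2Operator

namespace Pool.Agent.H940R3.VD

open Pool.Agent.H805R2.Gram Pool.Agent.H805R2.Fek

variable {n : ℕ}

lemma gr_of_VK {K A : Set (Fin n → ℂ)} (hKne : K.Nonempty) {c : ℝ} (hc : 0 ≤ c)
    (h : ∀ z ∈ A, VK K z ≤ (c : EReal)) : Gr K c A := by
  apply gr_of_unit hKne hc
  rintro d₀ _ p ⟨P, hP, hP2⟩ hpK z hz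
  by_cases h0 : P.totalDegree = 0
  · obtain ⟨w, hw⟩ := hKne
    have hp3 : P = MvPolynomial.C (P.coeff 0) := MvPolynomial.totalDegree_eq_zero_iff_eq_C.mp h0
    have h1 : p z = p w := by
      rw [← hP2, ← hP2, hp3]
      simp
    rw [h1]
    refine (hpK w hw).trans ?_
    apply Real.one_le_exp
    positivity
  · have h1 : 1 ≤ P.totalDegree := Nat.one_le_iff_ne_zero.mpr h0
    have h2 : ((Real.posLog ‖MvPolynomial.eval z P‖ / P.totalDegree : ℝ) : EReal) ≤ VK K z := by
      unfold VK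
      refine le_iSup_of_le P (le_iSup_of_le h1 (le_iSup_of_le ?_ le_rfl))
      intro w hw
      rw [hP2]
      exact hpK w hw
    have h3 : Real.posLog ‖MvPolynomial.eval z P‖ / P.totalDegree ≤ c := by
      exact_mod_cast h2.trans (h z hz)
    have h4 : (0 : ℝ) < P.totalDegree := by exact_mod_cast h1
    rw [div_le_iff₀ h4] at h3
    rcases eq_or_ne (p z) 0 with h5 | h5
    · rw [h5, norm_zero]; exact (Real.exp_pos _).le
    · rw [← Real.log_le_iff_le_exp (norm_pos_iff.mpr h5), ← hP2]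
      have h6 : Real.log ‖MvPolynomial.eval z P‖ ≤ Real.posLog ‖MvPolynomial.eval z P‖ :=
        le_max_right _ _
      have h7 : (P.totalDegree : ℝ) ≤ d₀ := by exact_mod_cast hP
      nlinarith

lemma VK_of_gr {K A : Set (Fin n → ℂ)} {c : ℝ} (hc : 0 ≤ c) (h : Gr K c A) :
    ∀ z ∈ A, VK K z ≤ (c : EReal) := by
  intro z hz
  unfold VK
  refine iSup_le fun p => iSup_le fun hp => iSup_le fun hpK => ?_
  have h1 := h p.totalDegree (fun w => MvPolynomial.eval w p) ⟨p, le_rfl, fun w => rfl⟩ 1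
    zero_le_one hpK z hz
  rw [mul_one] at h1
  have h4 : (0 : ℝ) < p.totalDegree := by exact_mod_cast hp
  rw [EReal.coe_le_coe_iff, div_le_iff₀ h4]
  unfold Real.posLog
  apply max_le (by positivity)
  rcases eq_or_ne (MvPolynomial.eval z p) 0 with h5 | h5
  · rw [h5, norm_zero, Real.log_zero]; positivity
  · rwa [Real.log_le_iff_le_exp (norm_pos_iff.mpr h5)]

lemma VK_nonneg (hn : 1 ≤ n) {R : ℝ} (hR : 0 < R) {K : Set (Fin n → ℂ)}
    (hK : K ⊆ closedBall 0 R) (z : Fin n → ℂ) : 0 ≤ VK K z := by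
  set i₀ : Fin n := ⟨0, hn⟩
  set p : MvPolynomial (Fin n) ℂ := MvPolynomial.C ((R : ℂ)⁻¹) * MvPolynomial.X i₀ with hp
  have hRc : (R : ℂ)⁻¹ ≠ 0 := inv_ne_zero (by exact_mod_cast hR.ne')
  have hdeg : p.totalDegree = 1 := by
    rw [hp, MvPolynomial.totalDegree_mul_of_isDomain (by simpa using hRc)
      (MvPolynomial.X_ne_zero _)]
    simp
  unfold VK
  refine le_iSup_of_le p (le_iSup_of_le hdeg.ge (le_iSup_of_le ?_ ?_))
  · intro w hw
    have h1 := hK hw
    rw [mem_closedBall_zero_iff] at h1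
    rw [hp]
    simp only [map_mul, MvPolynomial.eval_C, MvPolynomial.eval_X]
    rw [norm_mul, norm_inv, Complex.norm_real, Real.norm_of_nonneg hR.le, inv_mul_le_iff₀ hR,
      mul_one]
    exact (norm_le_pi_norm w i₀).trans h1
  · have : 0 ≤ Real.posLog ‖MvPolynomial.eval z p‖ / p.totalDegree :=
      div_nonneg (le_max_left _ _) (Nat.cast_nonneg _)
    exact_mod_cast this

lemma VKstar_nonneg (hn : 1 ≤ n) {R : ℝ} (hR : 0 < R) {K : Set (Fin n → ℂ)}
    (hK : K ⊆ closedBall 0 R) (z : Fin n → ℂ) : 0 ≤ VKstar K z := by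
  unfold VKstar
  exact le_limsup_of_frequently_le (Filter.Frequently.of_forall fun z => VK_nonneg hn hR hK z)

lemma ball_of_VKstar {K : Set (Fin n → ℂ)} {z : Fin n → ℂ} {c : ℝ}
    (h : VKstar K z < (c : EReal)) : ∃ r : ℝ, 0 < r ∧ ∀ w ∈ closedBall z (2 * r),
      VK K w ≤ (c : EReal) := by
  have h1 : ∀ᶠ w in 𝓝 z, VK K w < (c : EReal) := eventually_lt_of_limsup_lt h
  obtain ⟨r, hr, hr2⟩ := Metric.eventually_nhds_iff_ball.mp h1
  refine ⟨r / 4, by positivity, fun w hw => (hr2 w ?_).le⟩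
  rw [mem_ball]
  rw [mem_closedBall] at hw
  linarith

/-- The extremal function is infinite when the transfinite diameter vanishes. -/
theorem VKstar_top (hn : 1 ≤ n) {R : ℝ} (hR : 0 < R) {K : Set (Fin n → ℂ)} (hKne : K.Nonempty)
    (hKc : IsCompact K)
    (hδ : Tendsto (fun k => maxVdm K k ^ (1 / lk n k)) atTop (𝓝 0)) (z : Fin n → ℂ) :
    VKstar K z = ⊤ := by
  by_contra hcon
  have hlt : VKstar K z < ⊤ := lt_top_iff_ne_top.mpr hcon
  obtain ⟨c₁, hc₁, _⟩ := EReal.lt_iff_exists_real_btwn.mp hlt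
  set c := max c₁ 0 with hc
  have hc0 : 0 ≤ c := le_max_right _ _
  have hcV : VKstar K z < (c : EReal) := lt_of_lt_of_le hc₁ (by exact_mod_cast le_max_left _ _)
  obtain ⟨r, hr, hr2⟩ := ball_of_VKstar hcV
  have hg := gr_of_VK hKne hc0 hr2
  obtain ⟨a, ha, hlow⟩ := low_of_gr hR hKc hKne (by positivity : 0 < 2 * r) hg
  have hn' : (0 : ℝ) < n := by exact_mod_cast hn
  have key : ∀ᶠ k : ℕ in atTop, (R ^ (2 * n) * a) ^ (1 / (2 * (n : ℝ))) ≤
      maxVdm K k ^ (1 / lk n k) := by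
    filter_upwards [eventually_ge_atTop 1] with k hk
    obtain ⟨x, hx, hmax⟩ := exists_fek hKc hKne R k
    have hmv := maxVdm_eq hR hx hmax
    have h1 := hlow k _ hmax
    have hl := lk_pos hn hk
    have hSS : (0 : ℝ) < SS n k := by
      rw [lk_eq] at hl
      exact (mul_pos_iff_of_pos_left hn').mp hl
    have h2 : (R ^ (2 * n) * a) ^ SS n k ≤ maxVdm K k ^ 2 := by
      rw [hmv, mul_pow, mul_pow]
      have : (R ^ (2 * n)) ^ SS n k = (R ^ (n * SS n k)) ^ 2 := by
        rw [← pow_mul, ← pow_mul]; congr 1; ring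
      rw [this]
      gcongr
    calc (R ^ (2 * n) * a) ^ (1 / (2 * (n : ℝ)))
        = ((R ^ (2 * n) * a) ^ SS n k) ^ (1 / (2 * lk n k)) := by
          rw [← Real.rpow_natCast (R ^ (2 * n) * a) (SS n k), ← Real.rpow_mul (by positivity),
            lk_eq]
          congr 1
          field_simp
      _ ≤ (maxVdm K k ^ 2) ^ (1 / (2 * lk n k)) :=
          Real.rpow_le_rpow (by positivity) h2 (by positivity)
      _ = maxVdm K k ^ (1 / lk n k) := by
          rw [← Real.rpow_natCast (maxVdm K k) 2, ← Real.rpow_mul (maxVdm_nonneg k)]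
          congr 1
          push_cast
          field_simp
  have h3 := ge_of_tendsto hδ key
  have h4 : 0 < (R ^ (2 * n) * a) ^ (1 / (2 * (n : ℝ))) := by positivity
  linarith

lemma eLpNorm_eq {R : ℝ} {K : Set (Fin n → ℂ)} (hK : K ⊆ closedBall 0 R)
    {μ : Measure (Fin n → ℂ)} [IsFiniteMeasure μ] (hμ : μ Kᶜ = 0) (p : MvPolynomial (Fin n) ℂ) :
    eLpNorm (fun w => MvPolynomial.eval w p) 2 μ =
      ENNReal.ofReal (Real.sqrt (∫ z, ‖MvPolynomial.eval z p‖ ^ 2 ∂μ)) := by
  have hP : IsP p.totalDegree (fun w => MvPolynomial.eval w p) := ⟨p, le_rfl, fun _ => rfl⟩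
  have hint := integrable_sq hK hμ hP
  have hmem : MemLp (fun w => MvPolynomial.eval w p) 2 μ :=
    (memLp_two_iff_integrable_sq_norm hP.continuous.aestronglyMeasurable).mpr hint
  rw [hmem.eLpNorm_eq_integral_rpow_norm (by norm_num) (by norm_num)]
  congr 1
  rw [Real.sqrt_eq_rpow]
  norm_num

/-- (Z) implies (R) -/
theorem condR_of_condZ (hn : 1 ≤ n) {K : Set (Fin n → ℂ)} (hKne : K.Nonempty)
    (hKc : IsCompact K) {μ : Measure (Fin n → ℂ)} [IsFiniteMeasure μ] (hμ : μ Kᶜ = 0) {δ : ℝ}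
    (hδ : Tendsto (fun k => maxVdm K k ^ (1 / lk n k)) atTop (𝓝 δ)) (hZ : CondZ μ δ) :
    CondR K μ := by
  obtain ⟨R₀, hR₀⟩ := hKc.isBounded.subset_closedBall (0 : Fin n → ℂ)
  set R := max R₀ 1 with hRdef
  have hR : 0 < R := lt_of_lt_of_le one_pos (le_max_right _ _)
  have hK : K ⊆ closedBall 0 R := hR₀.trans (closedBall_subset_closedBall (le_max_left _ _))
  have hδ0 : 0 ≤ δ := ge_of_tendsto' hδ fun k => Real.rpow_nonneg (maxVdm_nonneg k) _
  intro p hp hdeg z
  rcases hδ0.eq_or_lt with h | hδpos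
  · rw [VKstar_top hn hR hKne hKc (by rw [← h] at hδ; exact hδ) z]
    simp
  have H := fun (τ : ℝ) (hτ : 0 < τ) => of_condZ hn hR hKne hKc hK hμ hδpos hδ hZ hτ
  have hV0 := VKstar_nonneg hn hR hK z
  by_contra hcon
  push Not at hcon
  obtain ⟨b, hb1, hb2⟩ := exists_between hcon
  have hVtop : VKstar K z < ⊤ := by
    rw [← EReal.exp_lt_top_iff]
    exact lt_of_lt_of_le hcon le_top
  have hbtop : b ≠ ⊤ := (lt_of_lt_of_le hb2 le_top).ne
  have hb0 : 0 < b.toReal := by
    apply ENNReal.toReal_pos _ hbtop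
    exact (lt_of_le_of_lt zero_le hb1).ne'
  set c := Real.log b.toReal with hc
  have hbc : b = ((c : EReal)).exp := by
    rw [EReal.exp_coe, hc, Real.exp_log hb0, ENNReal.ofReal_toReal hbtop]
  rw [hbc, EReal.exp_lt_exp_iff] at hb1
  obtain ⟨c', hc'1, hc'2⟩ := EReal.lt_iff_exists_real_btwn.mp hb1
  have hc'c : c' < c := by exact_mod_cast hc'2
  have hc'0 : 0 ≤ c' := by
    have : (0 : EReal) ≤ (c' : EReal) := hV0.trans hc'1.le
    exact_mod_cast this
  obtain ⟨r, hr, hr2⟩ := ball_of_VKstar hc'1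
  have hg := gr_of_VK hKne hc'0 hr2
  have hcore := ZR_core hR hK hμ H hr hc'0 hg hc'c
  have hev : ∀ᶠ j in atTop, (‖MvPolynomial.eval z (p j)‖ₑ /
        eLpNorm (fun w => MvPolynomial.eval w (p j)) 2 μ) ^ (1 / ((p j).totalDegree : ℝ)) ≤ b := by
    filter_upwards [hdeg.eventually hcore, hdeg.eventually_ge_atTop 1] with j hj hj1
    set d := (p j).totalDegree with hd
    have hP : IsP d (fun w => MvPolynomial.eval w (p j)) := ⟨p j, le_rfl, fun _ => rfl⟩
    set I := ∫ z, ‖MvPolynomial.eval z (p j)‖ ^ 2 ∂μ with hI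
    have hI0 : 0 ≤ I := integral_nonneg fun _ => by positivity
    have h1 : ‖MvPolynomial.eval z (p j)‖ ≤ Real.exp (c * d) * Real.sqrt I := by
      apply le_of_forall_pos_le_add
      intro ε hε
      have h2 := hj _ hP (Real.sqrt I + ε / Real.exp (c * d)) (by positivity) (by
        have : I = Real.sqrt I ^ 2 := (Real.sq_sqrt hI0).symm
        calc I = Real.sqrt I ^ 2 := this
          _ ≤ _ := by
            gcongr
            have : 0 < ε / Real.exp (c * d) := by positivity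
            linarith)
      rw [mul_add, mul_div_cancel₀ _ (Real.exp_pos _).ne'] at h2
      exact h2.le
    have h3 : ‖MvPolynomial.eval z (p j)‖ₑ / eLpNorm (fun w => MvPolynomial.eval w (p j)) 2 μ ≤
        ENNReal.ofReal (Real.exp (c * d)) := by
      rw [eLpNorm_eq hK hμ]
      apply ENNReal.div_le_of_le_mul
      rw [← ENNReal.ofReal_mul (Real.exp_pos _).le, ← ofReal_norm]
      exact ENNReal.ofReal_le_ofReal h1
    have hd0 : (0 : ℝ) < d := by exact_mod_cast hj1
    calc (‖MvPolynomial.eval z (p j)‖ₑ /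
        eLpNorm (fun w => MvPolynomial.eval w (p j)) 2 μ) ^ (1 / (d : ℝ))
        ≤ (ENNReal.ofReal (Real.exp (c * d))) ^ (1 / (d : ℝ)) :=
          ENNReal.rpow_le_rpow h3 (by positivity)
      _ = b := by
          rw [ENNReal.ofReal_rpow_of_pos (Real.exp_pos _), ← Real.exp_mul, hbc, EReal.exp_coe]
          congr 2
          field_simp
  have hle : limsup (fun j => (‖MvPolynomial.eval z (p j)‖ₑ /
        eLpNorm (fun w => MvPolynomial.eval w (p j)) 2 μ) ^ (1 / ((p j).totalDegree : ℝ))) atTop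
      ≤ b := limsup_le_of_le (h := hev)
  exact absurd hb2 (not_lt.mpr hle)

end Pool.Agent.H940R3.VD
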